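import Mathlib
import Pool.Agent.H52.GS.Def
import Pool.Agent.H50.GS.Defs

/-!
# Project GS2 (captain helper52), module D (helper50): the group of lifts
-/

set_option autoImplicit false
open Set Filter Topology MeasureTheory

namespace Pool.Agent.H50.GSD

open Pool.Agent.H52.GS (TT)

/-- all elements of `G` are real-analytic diffeomorphisms of the circle -/
def AnGroup (G : Subgroup (Circle ≃ₜ Circle)) : Prop :=
  ∀ g ∈ G, ∃ u : ℝ → ℝ, AnalyticOnNhd ℝ u univ ∧ (∀ t, deriv u t ≠ 0) ∧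
    ∀ t, Circle.exp (u t) = g (Circle.exp t)

/-- bounded torsion -/
def BddTorsion (G : Subgroup (Circle ≃ₜ Circle)) : Prop :=
  ∃ Q : ℕ, 0 < Q ∧ ∀ g ∈ G, (∃ q : ℕ, 0 < q ∧ g ^ q = 1) → g ^ Q = 1

/-- `f` is an increasing lift of `g` -/
def IsL (g : Circle ≃ₜ Circle) (f : ℝ ≃o ℝ) : Prop := ∀ t : ℝ, Circle.exp (f t) = g (Circle.exp t)

theorem IsL.one : IsL 1 1 := fun _ => rfl

theorem IsL.mul {g h : Circle ≃ₜ Circle} {f k : ℝ ≃o ℝ} (hf : IsL g f) (hk : IsL h k) :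
    IsL (g * h) (f * k) := fun t => by
  change Circle.exp (f (k t)) = g (h (Circle.exp t))
  rw [hf, hk]

theorem IsL.inv {g : Circle ≃ₜ Circle} {f : ℝ ≃o ℝ} (hf : IsL g f) : IsL g⁻¹ f⁻¹ := fun t => by
  have h1 := hf ((f⁻¹ : ℝ ≃o ℝ) t)
  have h2 : f ((f⁻¹ : ℝ ≃o ℝ) t) = t := RelIso.apply_inv_self f t
  rw [h2] at h1
  rw [h1]
  exact (g.symm_apply_apply _).symm

/-- the group of all increasing lifts of elements of `G` -/
def Lf (G : Subgroup (Circle ≃ₜ Circle)) : Subgroup (ℝ ≃o ℝ) where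
  carrier := {f | ∃ g ∈ G, IsL g f}
  mul_mem' := by
    rintro f k ⟨g, hg, hf⟩ ⟨h, hh, hk⟩
    exact ⟨g * h, G.mul_mem hg hh, hf.mul hk⟩
  one_mem' := ⟨1, G.one_mem, IsL.one⟩
  inv_mem' := by
    rintro f ⟨g, hg, hf⟩
    exact ⟨g⁻¹, G.inv_mem hg, hf.inv⟩

theorem mem_Lf {G : Subgroup (Circle ≃ₜ Circle)} {f : ℝ ≃o ℝ} :
    f ∈ Lf G ↔ ∃ g ∈ G, IsL g f := Iff.rfl

/-- `f` commutes with the translation by the period -/
def Per (f : ℝ ≃o ℝ) : Prop := ∀ x : ℝ, f (x + 2 * Real.pi) = f x + 2 * Real.pi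

/-- `f` is C² with positive derivative -/
def C2p (f : ℝ ≃o ℝ) : Prop := ContDiff ℝ 2 (f : ℝ → ℝ) ∧ ∀ t, 0 < deriv (f : ℝ → ℝ) t

/-- no power of `f` has a fixed point on the circle -/
def Free (f : ℝ ≃o ℝ) : Prop :=
  ∀ q : ℕ, 0 < q → ∀ (k : ℤ) (z : ℝ), (f ^ q) z ≠ z + k * (2 * Real.pi)

end Pool.Agent.H50.GSD
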