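import Mathlib
import Pool.Agent.H50.GSD.Def
import Pool.Agent.H50.GS.Disc

/-!
# GD-1: basic facts on lifts

`IsL g f`: `exp (f t) = g (exp t)` for all `t` (`f : ℝ ≃o ℝ` an increasing lift of
`g : Circle ≃ₜ Circle`), `TT x = x + 2 pi` (`OrderIso.addRight`), products are compositions
(`RelIso.mul_apply`, `RelIso.inv_apply_self`, `RelIso.apply_inv_self`).  Available:
`Pool.Agent.H50.GS.lifts_diff` (two continuous functions with `exp u = exp v` differ by a constant
`m * (2 pi)`), `Circle.exp_eq_exp`, `Circle.exp_two_pi`, `Circle.surjective_exp` or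
`Circle.exp_arg`, `OrderIso.continuous`, `OrderIso.strictMono`.

PROOFS.
* `tt_zpow`: integer induction (or `TT ^ k = OrderIso.addRight (k * (2 pi))`).
* `isL_TT`: `tt_zpow`, `exp (x + k 2 pi) = exp x`.
* `isL_one`: `f` and `id` are continuous lifts of `1`, `lifts_diff`; `RelIso.ext`.
* `isL_unique`: `f' * f⁻¹` is a lift of `g * g⁻¹ = 1` (`IsL.mul`, `IsL.inv`), `isL_one`.
* `isL_inj`: the exponential is onto the circle.
* `isL_fix`: if `f z = z` and `f' z = z` then `k = 0` in `isL_unique`.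
* `isL_pow`, `isL_zpow`: induction with `IsL.mul`, `IsL.inv`.
* `isL_per`: `t ↦ f (t + 2 pi)` and `f` are continuous lifts of the same map, so by `lifts_diff`
  `f (t + 2 pi) = f t + m 2 pi` for all `t`, with `m ≥ 1` as `f` is strictly increasing.  If
  `m ≥ 2` there is `y` with `t < y < t + 2 pi` and `f y = f t + 2 pi` (`f` is onto:
  `y = f⁻¹ (f t + 2 pi)`), so `g (exp y) = g (exp t)`, `exp y = exp t`, impossible
  (`Circle.exp_eq_exp`).
* `per_inv`, `per_mul`, `per_pow`, `per_zpow`, `per_int`, `per_comm`: easy.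
* `free_zpow`: for `n < 0` apply `(f ^ (-n))` to the equation and use `per_int`.
* `exists_isL_fix`: `f z = z + k 2 pi` by `Circle.exp_eq_exp`; take `f' = TT ^ (-k) * f`.
-/

set_option autoImplicit false
open Set Filter Topology MeasureTheory

namespace Pool.Agent.H50.GSD

open Pool.Agent.H52.GS (TT)
open Pool.Agent.H50.GS

variable {G : Subgroup (Circle ≃ₜ Circle)} {g g' : Circle ≃ₜ Circle} {f f' : ℝ ≃o ℝ}

theorem tt_apply (x : ℝ) : TT x = x + 2 * Real.pi := rfl

theorem tt_inv_apply (x : ℝ) : (TT⁻¹ : ℝ ≃o ℝ) x = x - 2 * Real.pi := by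
  have h : TT (x - 2 * Real.pi) = x := by rw [tt_apply]; ring
  calc (TT⁻¹ : ℝ ≃o ℝ) x = (TT⁻¹ : ℝ ≃o ℝ) (TT (x - 2 * Real.pi)) := by rw [h]
    _ = x - 2 * Real.pi := RelIso.inv_apply_self _ _

theorem tt_zpow (k : ℤ) (x : ℝ) : (TT ^ k) x = x + k * (2 * Real.pi) := by
  induction k using Int.induction_on generalizing x with
  | zero => simp
  | succ i ih =>
    rw [zpow_add_one, RelIso.mul_apply, ih, tt_apply]
    push_cast
    ring
  | pred i ih =>
    rw [zpow_sub_one, RelIso.mul_apply, ih, tt_inv_apply]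
    push_cast
    ring

theorem isL_TT (k : ℤ) : IsL 1 (TT ^ k) := by
  intro t
  rw [tt_zpow]
  change Circle.exp (t + k * (2 * Real.pi)) = Circle.exp t
  exact Circle.exp_eq_exp.2 ⟨k, rfl⟩

theorem isL_one (hf : IsL 1 f) : ∃ k : ℤ, f = TT ^ k := by
  obtain ⟨m, hm⟩ := lifts_diff (u := (f : ℝ → ℝ)) (v := fun t => t) f.continuous continuous_id
    (fun t => hf t)
  refine ⟨m, ?_⟩
  ext x
  rw [hm x, tt_zpow]

theorem isL_unique (hf : IsL g f) (hf' : IsL g f') : ∃ k : ℤ, f' = TT ^ k * f := by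
  have h1 : IsL 1 (f' * f⁻¹) := by
    have := hf'.mul hf.inv
    rwa [mul_inv_cancel] at this
  obtain ⟨k, hk⟩ := isL_one h1
  exact ⟨k, by rw [← hk, inv_mul_cancel_right]⟩

theorem isL_inj (hf : IsL g f) (hf' : IsL g' f) : g = g' := by
  ext z
  obtain ⟨t, rfl⟩ : ∃ t : ℝ, Circle.exp t = z := ⟨_, Circle.exp_arg z⟩
  rw [← hf t, ← hf' t]

theorem isL_fix {z : ℝ} (hf : IsL g f) (hf' : IsL g f') (hz : f z = z) (hz' : f' z = z) :
    f = f' := by
  obtain ⟨k, hk⟩ := isL_unique hf hf'
  have h1 : f' z = f z + k * (2 * Real.pi) := by rw [hk, RelIso.mul_apply, tt_zpow]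
  rw [hz, hz'] at h1
  have h2 : (k : ℝ) = 0 := by
    have hp := Real.pi_pos
    have h3 : (k : ℝ) * (2 * Real.pi) = 0 := by linarith
    rcases mul_eq_zero.1 h3 with h | h
    · exact h
    · exfalso; linarith
  have h3 : k = 0 := by exact_mod_cast h2
  rw [hk, h3, zpow_zero, one_mul]

theorem isL_pow (hf : IsL g f) (n : ℕ) : IsL (g ^ n) (f ^ n) := by
  induction n with
  | zero => rw [pow_zero, pow_zero]; exact IsL.one
  | succ n ih => rw [pow_succ, pow_succ]; exact ih.mul hf

theorem isL_zpow (hf : IsL g f) (n : ℤ) : IsL (g ^ n) (f ^ n) := by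
  rcases n with n | n
  · rw [Int.ofNat_eq_natCast, zpow_natCast, zpow_natCast]; exact isL_pow hf n
  · rw [zpow_negSucc, zpow_negSucc]; exact (isL_pow hf (n + 1)).inv

theorem isL_per (hf : IsL g f) : Per f := by
  have hp := Real.pi_pos
  obtain ⟨m, hm⟩ := lifts_diff (u := fun t => f (t + 2 * Real.pi)) (v := (f : ℝ → ℝ))
    (f.continuous.comp (continuous_id.add continuous_const)) f.continuous
    (fun t => by
      rw [hf, hf]
      congr 1
      exact Circle.exp_eq_exp.2 ⟨1, by simp⟩)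
  have hm' : ∀ t, f (t + 2 * Real.pi) = f t + m * (2 * Real.pi) := hm
  have h1 : 1 ≤ m := by
    have h2 : f 0 < f (0 + 2 * Real.pi) := f.strictMono (by linarith)
    rw [hm' 0] at h2
    have h3 : (0 : ℝ) < m := by
      by_contra hc
      push Not at hc
      nlinarith
    have h4 : (0 : ℤ) < m := by exact_mod_cast h3
    omega
  have h2 : m ≤ 1 := by
    by_contra hc
    have hc' : 2 ≤ m := by omega
    have hc2 : (2 : ℝ) ≤ m := by exact_mod_cast hc'
    set y := (f⁻¹ : ℝ ≃o ℝ) (f 0 + 2 * Real.pi) with hy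
    have hfy : f y = f 0 + 2 * Real.pi := RelIso.apply_inv_self f _
    have hy1 : 0 < y := by
      have : f 0 < f y := by rw [hfy]; linarith
      exact f.lt_iff_lt.1 this
    have hy2 : y < 0 + 2 * Real.pi := by
      have : f y < f (0 + 2 * Real.pi) := by
        rw [hfy, hm' 0]
        nlinarith
      exact f.lt_iff_lt.1 this
    have h3 : g (Circle.exp y) = g (Circle.exp 0) := by
      rw [← hf y, ← hf 0, hfy]
      exact Circle.exp_eq_exp.2 ⟨1, by simp⟩
    have h4 : Circle.exp y = Circle.exp 0 := g.injective h3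
    obtain ⟨n, hn⟩ := Circle.exp_eq_exp.1 h4
    rw [zero_add] at hn hy2
    rw [hn] at hy1 hy2
    have h5 : (0 : ℝ) < n := by
      by_contra hc3
      push Not at hc3
      nlinarith
    have h6 : (n : ℝ) < 1 := by
      by_contra hc3
      push Not at hc3
      nlinarith
    have h7 : (0 : ℤ) < n := by exact_mod_cast h5
    have h8 : n < 1 := by exact_mod_cast h6
    omega
  have h3 : m = 1 := by omega
  intro x
  rw [hm' x, h3]
  simp

theorem TT_mem : TT ∈ Lf G :=
  ⟨1, G.one_mem, by have := isL_TT 1; rwa [zpow_one] at this⟩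

theorem TT_zpow_mem (k : ℤ) : TT ^ k ∈ Lf G := (Lf G).zpow_mem TT_mem k

theorem per_inv (hf : Per f) : Per f⁻¹ := by
  intro x
  apply f.injective
  rw [hf, RelIso.apply_inv_self, RelIso.apply_inv_self]

theorem per_mul (hf : Per f) (hf' : Per f') : Per (f * f') := by
  intro x
  rw [RelIso.mul_apply, RelIso.mul_apply, hf', hf]

theorem per_pow (hf : Per f) (n : ℕ) : Per (f ^ n) := by
  induction n with
  | zero => intro x; rw [pow_zero]; rfl
  | succ n ih => rw [pow_succ]; exact per_mul ih hf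

theorem per_zpow (hf : Per f) (n : ℤ) : Per (f ^ n) := by
  rcases n with n | n
  · rw [Int.ofNat_eq_natCast, zpow_natCast]; exact per_pow hf n
  · rw [zpow_negSucc]; exact per_inv (per_pow hf (n + 1))

theorem per_int (hf : Per f) (k : ℤ) (x : ℝ) :
    f (x + k * (2 * Real.pi)) = f x + k * (2 * Real.pi) := by
  induction k using Int.induction_on with
  | zero => simp
  | succ i ih =>
    have h := hf (x + (i : ℤ) * (2 * Real.pi))
    push_cast at h ih ⊢
    rw [show x + ((i : ℝ) + 1) * (2 * Real.pi) = x + (i : ℝ) * (2 * Real.pi) + 2 * Real.pi by ring,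
      h, ih]
    ring
  | pred i ih =>
    have h := hf (x + ((-(i : ℤ) - 1 : ℤ) : ℝ) * (2 * Real.pi))
    push_cast at h ih ⊢
    rw [show x + (-(i : ℝ) - 1) * (2 * Real.pi) + 2 * Real.pi = x + -(i : ℝ) * (2 * Real.pi) by
      ring, ih] at h
    linarith

theorem per_comm (hf : Per f) (k : ℤ) : f * TT ^ k = TT ^ k * f := by
  ext x
  rw [RelIso.mul_apply, RelIso.mul_apply, tt_zpow, tt_zpow, per_int hf]

theorem free_zpow (hf : Per f) (hfree : Free f) {n : ℤ} (hn : n ≠ 0) (k : ℤ) (z : ℝ) :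
    (f ^ n * TT ^ k) z ≠ z := by
  intro h
  rw [RelIso.mul_apply, tt_zpow, per_int (per_zpow hf n)] at h
  rcases n with n | n
  · rw [Int.ofNat_eq_natCast, zpow_natCast] at h
    have hn' : 0 < n := by
      rcases Nat.eq_zero_or_pos n with h0 | h0
      · exfalso; apply hn; rw [h0]; rfl
      · exact h0
    apply hfree n hn' (-k) z
    push_cast
    linarith
  · rw [zpow_negSucc] at h
    have h1 : (f ^ (n + 1))⁻¹ z = z + (-k : ℤ) * (2 * Real.pi) := by
      push_cast
      linarith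
    have h2 : (f ^ (n + 1)) ((f ^ (n + 1))⁻¹ z) = z := RelIso.apply_inv_self _ _
    rw [h1, per_int (per_pow hf (n + 1))] at h2
    apply hfree (n + 1) (Nat.succ_pos n) k z
    push_cast at h2
    linarith

/-- an orientation preserving element with a fixed point has a lift with a fixed point -/
theorem exists_isL_fix (hf : IsL g f) {z : ℝ} (hz : g (Circle.exp z) = Circle.exp z) :
    ∃ f' : ℝ ≃o ℝ, IsL g f' ∧ f' z = z := by
  rw [← hf z] at hz
  obtain ⟨k, hk⟩ := Circle.exp_eq_exp.1 hz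
  refine ⟨TT ^ (-k) * f, ?_, ?_⟩
  · have := (isL_TT (-k)).mul hf
    rwa [one_mul] at this
  · rw [RelIso.mul_apply, tt_zpow, hk]
    push_cast
    ring

end Pool.Agent.H50.GSD
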