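import Mathlib
import Pool.Agent.H50.GSD.D1

/-!
# GD-2: lifts of real-analytic circle diffeomorphisms

PROOFS.
* `isL_an`: let `u` be the analytic lift of `g`; `f` and `u` are continuous lifts of `g`, so
  `f = u + m 2 pi` (`Pool.Agent.H50.GS.lifts_diff`); `deriv f = deriv u ≠ 0`, and `deriv f ≥ 0` as
  `f` is monotone.
* `an_c2`, `isL_c2`, `isL_isLift`: analytic functions are C² (`AnalyticOnNhd.contDiff` or
  `AnalyticOnNhd.contDiffOn` with `contDiffOn_univ`).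
* `exists_isL`: let `u` be a C² lift of `g`, `deriv u > 0`, and `w` a lift of `g⁻¹` which is the
  inverse function of `u` (`Pool.Agent.H50.GS.disc_inverse`); `u` is strictly monotone
  (`strictMono_of_deriv_pos`) and onto: `StrictMono.orderIsoOfSurjective`.
* `isL_isPos`: `isL_isLift`.
* `an_iso`: `u = f - id` is analytic on the line.  If `f t = t` frequently in `𝓝[≠] z` then `f t = t`
  for all `t` (`AnalyticOnNhd.eqOn_zero_of_preconnected_of_frequently_eq_zero` on `univ`), so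
  `f = 1`.  So `f t ≠ t` eventually in `𝓝[≠] z`.
* `an_iso_circle`: near `z` we have `|f t - t| < 2 pi` (continuity, `f z = z`), so
  `g (exp t) = exp t`, i.e. `exp (f t) = exp t`, gives `f t = t` (`Circle.exp_eq_exp`); use `an_iso`
  and `f ≠ 1` (if `f = 1` then `g = 1` by `isL_inj`).
-/

set_option autoImplicit false
open Set Filter Topology MeasureTheory

namespace Pool.Agent.H50.GSD

open Pool.Agent.H52.GS (TT)
open Pool.Agent.H50.GS

variable {G : Subgroup (Circle ≃ₜ Circle)} {g g' : Circle ≃ₜ Circle} {f f' : ℝ ≃o ℝ}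

theorem isL_an (hG : AnGroup G) (hg : g ∈ G) (hf : IsL g f) :
    AnalyticOnNhd ℝ (f : ℝ → ℝ) univ ∧ ∀ t, 0 < deriv (f : ℝ → ℝ) t := by
  obtain ⟨u, hu, hu', hue⟩ := hG g hg
  have huc : Continuous u := continuousOn_univ.1 hu.continuousOn
  obtain ⟨m, hm⟩ := lifts_diff f.continuous huc (fun t => (hf t).trans (hue t).symm)
  have hfu : (f : ℝ → ℝ) = fun t => u t + m * (2 * Real.pi) := funext hm
  refine ⟨?_, fun t => ?_⟩
  · rw [hfu]
    exact hu.add analyticOnNhd_const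
  · have h1 : deriv (f : ℝ → ℝ) t = deriv u t := by
      rw [hfu, deriv_add_const]
    have h2 : 0 ≤ deriv (f : ℝ → ℝ) t := f.monotone.deriv_nonneg
    rw [h1] at h2 ⊢
    exact lt_of_le_of_ne h2 (hu' t).symm

theorem an_c2 (hG : AnGroup G) : C2Group G := by
  intro g hg
  obtain ⟨u, hu, hu', hue⟩ := hG g hg
  exact ⟨u, hu.contDiff, hu', hue⟩

theorem isL_c2 (hG : AnGroup G) (hg : g ∈ G) (hf : IsL g f) : C2p f := by
  obtain ⟨h1, h2⟩ := isL_an hG hg hf
  exact ⟨h1.contDiff, h2⟩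

theorem isL_isLift (hG : AnGroup G) (hg : g ∈ G) (hf : IsL g f) :
    IsLift g (f : ℝ → ℝ) ∧ ∀ t, 0 < deriv (f : ℝ → ℝ) t := by
  obtain ⟨h1, h2⟩ := isL_an hG hg hf
  exact ⟨⟨h1.contDiff, fun t => (h2 t).ne', hf⟩, h2⟩

theorem exists_isL (hG : C2Group G) (hg : g ∈ G) (hp : IsPos g) : ∃ f : ℝ ≃o ℝ, IsL g f := by
  obtain ⟨u, hu, hpos⟩ := hp
  obtain ⟨w0, hw0⟩ := hG g⁻¹ (G.inv_mem hg)
  obtain ⟨w, -, huw, -⟩ := disc_inverse hu hw0
  exact ⟨StrictMono.orderIsoOfSurjective u (strictMono_of_deriv_pos hpos)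
    (fun t => ⟨w t, huw t⟩), fun t => hu.2.2 t⟩

theorem isL_isPos (hG : AnGroup G) (hg : g ∈ G) (hf : IsL g f) : IsPos g := by
  obtain ⟨h1, h2⟩ := isL_isLift hG hg hf
  exact ⟨_, h1, h2⟩

/-- fixed points of a nontrivial analytic lift are isolated -/
theorem an_iso (hf : AnalyticOnNhd ℝ (f : ℝ → ℝ) univ) (hf1 : f ≠ 1) (z : ℝ) :
    ∀ᶠ t in 𝓝[≠] z, f t ≠ t := by
  by_contra hc
  rw [Filter.not_eventually] at hc
  have h1 : AnalyticOnNhd ℝ (fun t => (f : ℝ → ℝ) t - t) univ := hf.sub analyticOnNhd_id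
  have h2 : ∃ᶠ t in 𝓝[≠] z, (fun t => (f : ℝ → ℝ) t - t) t = 0 :=
    hc.mono fun t ht => by
      rw [not_not] at ht
      exact sub_eq_zero.2 ht
  have h3 := h1.eqOn_zero_of_preconnected_of_frequently_eq_zero isPreconnected_univ
    (mem_univ z) h2
  apply hf1
  ext t
  exact sub_eq_zero.1 (h3 (mem_univ t))

theorem an_iso_circle (hG : AnGroup G) (hg : g ∈ G) (hf : IsL g f) (hg1 : g ≠ 1) {z : ℝ}
    (hz : f z = z) : ∀ᶠ t in 𝓝[≠] z, g (Circle.exp t) ≠ Circle.exp t := by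
  have hf1 : f ≠ 1 := by
    rintro rfl
    exact hg1 (isL_inj hf IsL.one)
  have h1 := an_iso (isL_an hG hg hf).1 hf1 z
  have h2 : ∀ᶠ t in 𝓝[≠] z, |f t - t| < 2 * Real.pi := by
    have h3 : Tendsto (fun t => |f t - t|) (𝓝 z) (𝓝 |f z - z|) :=
      ((f.continuous.sub continuous_id).abs).tendsto z
    rw [hz, sub_self, abs_zero] at h3
    exact (h3.eventually_lt_const Real.two_pi_pos).filter_mono nhdsWithin_le_nhds
  filter_upwards [h1, h2] with t h3 h4 h5
  rw [← hf t] at h5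
  obtain ⟨k, hk⟩ := Circle.exp_eq_exp.1 h5
  have hp := Real.pi_pos
  have h6 : f t - t = k * (2 * Real.pi) := by rw [hk]; ring
  rw [h6, abs_mul, abs_of_pos Real.two_pi_pos] at h4
  have h7 : |(k : ℝ)| < 1 := by
    by_contra hc
    push Not at hc
    nlinarith
  have h8 : |k| < 1 := by exact_mod_cast h7
  have h9 : k = 0 := Int.abs_lt_one_iff.1 h8
  apply h3
  rw [hk, h9]
  simp

end Pool.Agent.H50.GSD
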