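import Mathlib
import Pool.Agent.H50.GSD.D2

/-!
# GD-3: the orbits of the group of increasing lifts are dense in the line

Let `G` be a minimal group of C² circle diffeomorphisms; its subgroup of orientation preserving
elements has index at most 2 and is minimal by connectedness of the line.

PROOF of `Lf_dense`.  Let `K = closure {t | ∃ f ∈ Lf G, f x = t}`.  `K` is closed, nonempty and
`f '' K ⊆ K`, hence (apply `f⁻¹`) `f ⁻¹' K = K`, for every `f ∈ Lf G`; in particular
`t + k 2 pi ∈ K ↔ t ∈ K` (`TT_zpow_mem`, `tt_zpow`).  It suffices to show `K = univ` (then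
`Ioo a b` meets the orbit, `mem_closure_iff`).

`close_inv` (general tool): if `K` is closed, `t + 2 pi ∈ K ↔ t ∈ K`, and for every `g ∈ G` and
every lift `u` of `g` (`IsLift g u`) we have `u ⁻¹' K = K`, then `K = ∅` or `K = univ`.  Proof: let
`C = {c | ∃ t ∈ K, Circle.exp t = c}`.  Its complement is the image under `Circle.exp` of the open
set `Kᶜ` (as `K` is periodic, `Circle.exp_eq_exp`), `Circle.exp` is an open map
(`isLocalHomeomorph_circleExp.isOpenMap`, used in `GS/Trans.lean`) and onto, so `C` is closed;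
`⇑g ⁻¹' C = C` for `g ∈ G` (use a lift `u` of `g` and the periodicity); `Minimal G` gives `C = ∅`
or `C = univ`, so `K = ∅` or `K = univ`.

Case 1: every `g ∈ G` satisfies `IsPos g`.  Let `u` be a lift of `g ∈ G`; by `exists_isL` there is
`f : ℝ ≃o ℝ` with `IsL g f`, and `f`, `u` are both continuous lifts of `g`: `u = f + m 2 pi`
(`lifts_diff`).  So `u ⁻¹' K = K`, and `close_inv` gives `K = univ`.

Case 2: some `ρ ∈ G` does not satisfy `IsPos ρ`; let `r` be a C² lift of `ρ` and `w` the lift of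
`ρ⁻¹` which is the inverse function of `r` (`disc_inverse`).  `deriv r` is continuous without zeros
and not everywhere positive, so it is everywhere negative (intermediate value theorem).  Let
`K' = r ⁻¹' K` (closed).
(α) For every lift `v` of an element `h ∈ G` with `deriv v > 0` everywhere, `v ⁻¹' K = K` (as in
case 1).
(β) For every lift `v` of an element `h ∈ G` with `deriv v < 0` everywhere, `v ⁻¹' K = K'` and
`v ⁻¹' K' = K`: indeed `v ∘ w` and `r ∘ v` are lifts (`lifts_comp`) with positive derivative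
(product of two negative numbers; `deriv w = 1 / deriv r < 0`), `v = (v ∘ w) ∘ r` gives
`v ⁻¹' K = r ⁻¹' ((v ∘ w) ⁻¹' K) = r ⁻¹' K = K'`, and `v ⁻¹' K' = (r ∘ v) ⁻¹' K = K`.
(γ) For `v` with positive derivative also `v ⁻¹' K' = (r ∘ v) ⁻¹' K = K'` by (β) applied to the
lift `r ∘ v`, which has negative derivative.
Every lift of an element of `G` has derivative everywhere positive or everywhere negative.  So
`K ∪ K'` and `K ∩ K'` are closed, periodic (`TT` is of type (α)) and invariant under all lifts: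
`close_inv` gives `K ∪ K' = univ` (it is not empty) and `K ∩ K' = ∅` or `K ∩ K' = univ`.  In the
second case `K = univ`.  In the first case `ℝ = K ∪ K'` is a disjoint union of two closed sets, `K`
is clopen and nonempty, so `K = univ` (`isClopen_iff`, the line is preconnected).
-/

set_option autoImplicit false
open Set Filter Topology MeasureTheory

namespace Pool.Agent.H50.GSD

open Pool.Agent.H52.GS (TT)
open Pool.Agent.H50.GS

variable {G : Subgroup (Circle ≃ₜ Circle)} {g g' : Circle ≃ₜ Circle} {f f' : ℝ ≃o ℝ}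

theorem d3_per_int {K : Set ℝ} (hper : ∀ t, t + 2 * Real.pi ∈ K ↔ t ∈ K) (k : ℤ) (t : ℝ) :
    t + k * (2 * Real.pi) ∈ K ↔ t ∈ K := by
  induction k using Int.induction_on with
  | zero => simp
  | succ n ih =>
    have h1 := hper (t + (n : ℝ) * (2 * Real.pi))
    have h2 : t + (((n : ℤ) + 1 : ℤ) : ℝ) * (2 * Real.pi) =
        t + (n : ℝ) * (2 * Real.pi) + 2 * Real.pi := by
      push_cast
      ring
    rw [h2, h1]
    exact ih
  | pred n ih =>
    have h1 := hper (t + ((-(n : ℤ) - 1 : ℤ) : ℝ) * (2 * Real.pi))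
    have h2 : t + ((-(n : ℤ) - 1 : ℤ) : ℝ) * (2 * Real.pi) + 2 * Real.pi =
        t + ((-(n : ℤ) : ℤ) : ℝ) * (2 * Real.pi) := by
      push_cast
      ring
    rw [← h1, h2]
    exact ih

theorem d3_sign {g : Circle ≃ₜ Circle} {u : ℝ → ℝ} (hu : IsLift g u) :
    (∀ t, 0 < deriv u t) ∨ ∀ t, deriv u t < 0 := by
  have hc : Continuous (deriv u) := hu.1.continuous_deriv (by norm_num)
  by_contra h
  push Not at h
  obtain ⟨⟨s, hs⟩, t, ht⟩ := h
  have h0 : (0 : ℝ) ∈ range (deriv u) := mem_range_of_exists_le_of_exists_ge hc ⟨s, hs⟩ ⟨t, ht⟩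
  obtain ⟨z, hz⟩ := h0
  exact hu.2.1 z hz

theorem d3_trans : IsLift 1 (fun t : ℝ => t + 2 * Real.pi) := by
  refine ⟨contDiff_id.add contDiff_const, fun t => ?_, fun t => ?_⟩
  · have h : HasDerivAt (fun t : ℝ => t + 2 * Real.pi) 1 t := (hasDerivAt_id t).add_const _
    rw [h.deriv]
    exact one_ne_zero
  · exact Circle.exp_eq_exp.2 ⟨1, by push_cast; ring⟩

theorem close_inv (hC : C2Group G) (hm : Minimal G) {K : Set ℝ} (hK : IsClosed K)
    (hper : ∀ t, t + 2 * Real.pi ∈ K ↔ t ∈ K)
    (hinv : ∀ g ∈ G, ∀ u : ℝ → ℝ, IsLift g u → u ⁻¹' K = K) : K = ∅ ∨ K = univ := by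
  have hint := d3_per_int hper
  have hmem : ∀ t : ℝ, Circle.exp t ∈ ⇑Circle.exp '' K ↔ t ∈ K := by
    intro t
    constructor
    · rintro ⟨s, hs, hst⟩
      obtain ⟨m, hm'⟩ := Circle.exp_eq_exp.1 hst
      rw [hm'] at hs
      exact (hint m t).1 hs
    · intro h
      exact ⟨t, h, rfl⟩
  have hsurj : ∀ z : Circle, ∃ t : ℝ, Circle.exp t = z := fun z => ⟨Complex.arg z, Circle.exp_arg z⟩
  have hcompl : (⇑Circle.exp '' K)ᶜ = ⇑Circle.exp '' Kᶜ := by
    ext z
    obtain ⟨t, rfl⟩ := hsurj z
    rw [mem_compl_iff, hmem t]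
    constructor
    · intro h
      exact ⟨t, h, rfl⟩
    · rintro ⟨s, hs, hst⟩ h
      obtain ⟨m, hm'⟩ := Circle.exp_eq_exp.1 hst
      rw [hm'] at hs
      exact hs ((hint m t).2 h)
  have hclosed : IsClosed (⇑Circle.exp '' K) := by
    rw [← isOpen_compl_iff, hcompl]
    exact isLocalHomeomorph_circleExp.isOpenMap _ hK.isOpen_compl
  have hCinv : ∀ g ∈ G, ⇑g ⁻¹' (⇑Circle.exp '' K) = ⇑Circle.exp '' K := by
    intro g hg
    obtain ⟨u, hu⟩ := hC g hg
    ext z
    obtain ⟨t, rfl⟩ := hsurj z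
    rw [mem_preimage, ← hu.2.2 t, hmem, hmem]
    have h1 := hinv g hg u hu
    constructor
    · intro h
      rw [← h1]
      exact h
    · intro h
      rw [← h1] at h
      exact h
  rcases hm _ hclosed hCinv with h | h
  · left
    exact image_eq_empty.1 h
  · right
    ext t
    rw [← hmem t, h]
    exact ⟨fun _ => mem_univ _, fun _ => mem_univ _⟩

theorem Lf_dense (hC : C2Group G) (hm : Minimal G) (x : ℝ) {a b : ℝ} (hab : a < b) :
    ∃ f ∈ Lf G, a < f x ∧ f x < b := by
  obtain ⟨O, hO⟩ : ∃ O : Set ℝ, O = {t | ∃ f ∈ Lf G, f x = t} := ⟨_, rfl⟩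
  have hxO : x ∈ O := by
    rw [hO]
    exact ⟨1, (Lf G).one_mem, rfl⟩
  -- invariance under the increasing lifts
  have hOinv : ∀ f ∈ Lf G, (f : ℝ → ℝ) ⁻¹' O = O := by
    intro f hf
    ext t
    rw [mem_preimage, hO]
    constructor
    · rintro ⟨h, hh, hht⟩
      refine ⟨f⁻¹ * h, (Lf G).mul_mem ((Lf G).inv_mem hf) hh, ?_⟩
      rw [RelIso.mul_apply, hht]
      exact RelIso.inv_apply_self f t
    · rintro ⟨h, hh, hht⟩
      refine ⟨f * h, (Lf G).mul_mem hf hh, ?_⟩
      rw [RelIso.mul_apply, hht]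
  have hKinv : ∀ f ∈ Lf G, (f : ℝ → ℝ) ⁻¹' closure O = closure O := by
    intro f hf
    have h1 := f.toHomeomorph.preimage_closure O
    have h2 : (f.toHomeomorph : ℝ → ℝ) = (f : ℝ → ℝ) := OrderIso.coe_toHomeomorph f
    rw [h2, hOinv f hf] at h1
    exact h1
  have hper : ∀ t, t + 2 * Real.pi ∈ closure O ↔ t ∈ closure O := by
    intro t
    have h1 := hKinv TT TT_mem
    have h2 : t ∈ (TT : ℝ → ℝ) ⁻¹' closure O ↔ t ∈ closure O := by rw [h1]
    exact h2
  have hint := d3_per_int hper
  have hne : (closure O).Nonempty := ⟨x, subset_closure hxO⟩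
  -- positive lifts
  have hpos : ∀ g ∈ G, ∀ u : ℝ → ℝ, IsLift g u → (∀ t, 0 < deriv u t) →
      u ⁻¹' closure O = closure O := by
    intro g hg u hu hu'
    obtain ⟨f, hf⟩ := exists_isL hC hg ⟨u, hu, hu'⟩
    obtain ⟨m, hm'⟩ := lifts_diff hu.1.continuous f.continuous (fun t => by rw [hu.2.2, hf t])
    have h1 := hKinv f ⟨g, hg, hf⟩
    ext t
    rw [mem_preimage, hm' t, hint m (f t)]
    have h2 : t ∈ (f : ℝ → ℝ) ⁻¹' closure O ↔ t ∈ closure O := by rw [h1]
    exact h2
  -- it suffices that the closure is everything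
  suffices hall : closure O = univ by
    obtain ⟨z, hz, hzO⟩ := (dense_iff_closure_eq.2 hall).inter_open_nonempty _
      isOpen_Ioo (nonempty_Ioo.2 hab)
    rw [hO] at hzO
    obtain ⟨f, hf, hfz⟩ := hzO
    exact ⟨f, hf, by rw [hfz]; exact hz.1, by rw [hfz]; exact hz.2⟩
  by_cases hneg : ∃ ρ ∈ G, ∃ r : ℝ → ℝ, IsLift ρ r ∧ ∀ t, deriv r t < 0
  · obtain ⟨ρ, hρ, r, hr, hr'⟩ := hneg
    obtain ⟨w0, hw0⟩ := hC _ (G.inv_mem hρ)
    obtain ⟨w, hw, hrw, hwr⟩ := disc_inverse hr hw0
    have hw' : ∀ t, deriv w t < 0 := by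
      rcases d3_sign hw with h | h
      · exfalso
        have h1 := (lifts_comp hr hw).2 0
        have h2 : r ∘ w = id := funext hrw
        rw [h2, deriv_id] at h1
        have h3 := mul_pos (neg_pos.2 (hr' (w 0))) (h 0)
        linarith
      · exact h
    -- negative lifts
    have hβ : ∀ h ∈ G, ∀ v : ℝ → ℝ, IsLift h v → (∀ t, deriv v t < 0) →
        (∀ t, v t ∈ closure O ↔ r t ∈ closure O) ∧ ∀ t, r (v t) ∈ closure O ↔ t ∈ closure O := by
      intro h hh v hv hv'
      have h1 := lifts_comp hv hw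
      have h2 := hpos _ (G.mul_mem hh (G.inv_mem hρ)) _ h1.1 (fun t => by
        rw [h1.2 t]
        exact mul_pos_of_neg_of_neg (hv' _) (hw' _))
      have h3 := lifts_comp hr hv
      have h4 := hpos _ (G.mul_mem hρ hh) _ h3.1 (fun t => by
        rw [h3.2 t]
        exact mul_pos_of_neg_of_neg (hr' _) (hv' _))
      refine ⟨fun t => ?_, fun t => ?_⟩
      · have h5 : r t ∈ (v ∘ w) ⁻¹' closure O ↔ r t ∈ closure O := by rw [h2]
        rw [mem_preimage, Function.comp_apply, hwr] at h5
        exact h5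
      · have h5 : t ∈ (r ∘ v) ⁻¹' closure O ↔ t ∈ closure O := by rw [h4]
        exact h5
    have hγ : ∀ h ∈ G, ∀ v : ℝ → ℝ, IsLift h v → (∀ t, 0 < deriv v t) →
        (∀ t, v t ∈ closure O ↔ t ∈ closure O) ∧ ∀ t, r (v t) ∈ closure O ↔ r t ∈ closure O := by
      intro h hh v hv hv'
      have h3 := lifts_comp hr hv
      have h4 := (hβ _ (G.mul_mem hρ hh) _ h3.1 (fun t => by
        rw [h3.2 t]
        have := mul_pos (neg_pos.2 (hr' (v t))) (hv' t)
        linarith)).1
      refine ⟨fun t => ?_, fun t => h4 t⟩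
      have h5 : t ∈ v ⁻¹' closure O ↔ t ∈ closure O := by rw [hpos h hh v hv hv']
      exact h5
    have hcl : IsClosed (r ⁻¹' closure O) := isClosed_closure.preimage hr.1.continuous
    have hU : ∀ g ∈ G, ∀ v : ℝ → ℝ, IsLift g v →
        v ⁻¹' (closure O ∪ r ⁻¹' closure O) = closure O ∪ r ⁻¹' closure O := by
      intro g hg v hv
      ext t
      rw [mem_preimage, mem_union, mem_union, mem_preimage, mem_preimage]
      rcases d3_sign hv with h | h
      · rw [(hγ g hg v hv h).1 t, (hγ g hg v hv h).2 t]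
      · rw [(hβ g hg v hv h).1 t, (hβ g hg v hv h).2 t]
        exact or_comm
    have hI : ∀ g ∈ G, ∀ v : ℝ → ℝ, IsLift g v →
        v ⁻¹' (closure O ∩ r ⁻¹' closure O) = closure O ∩ r ⁻¹' closure O := by
      intro g hg v hv
      ext t
      rw [mem_preimage, mem_inter_iff, mem_inter_iff, mem_preimage, mem_preimage]
      rcases d3_sign hv with h | h
      · rw [(hγ g hg v hv h).1 t, (hγ g hg v hv h).2 t]
      · rw [(hβ g hg v hv h).1 t, (hβ g hg v hv h).2 t]
        exact and_comm
    have hperU : ∀ t, t + 2 * Real.pi ∈ closure O ∪ r ⁻¹' closure O ↔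
        t ∈ closure O ∪ r ⁻¹' closure O := by
      intro t
      have h1 : t ∈ (fun t : ℝ => t + 2 * Real.pi) ⁻¹' (closure O ∪ r ⁻¹' closure O) ↔
          t ∈ closure O ∪ r ⁻¹' closure O := by rw [hU 1 G.one_mem _ d3_trans]
      exact h1
    have hperI : ∀ t, t + 2 * Real.pi ∈ closure O ∩ r ⁻¹' closure O ↔
        t ∈ closure O ∩ r ⁻¹' closure O := by
      intro t
      have h1 : t ∈ (fun t : ℝ => t + 2 * Real.pi) ⁻¹' (closure O ∩ r ⁻¹' closure O) ↔
          t ∈ closure O ∩ r ⁻¹' closure O := by rw [hI 1 G.one_mem _ d3_trans]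
      exact h1
    have hUn : closure O ∪ r ⁻¹' closure O = univ := by
      rcases close_inv hC hm (isClosed_closure.union hcl) hperU hU with h | h
      · exfalso
        rw [union_empty_iff] at h
        rw [h.1] at hne
        exact not_nonempty_empty hne
      · exact h
    rcases close_inv hC hm (isClosed_closure.inter hcl) hperI hI with h | h
    · have hc : (closure O)ᶜ = r ⁻¹' closure O := by
        ext t
        rw [mem_compl_iff]
        constructor
        · intro ht
          have h1 : t ∈ closure O ∪ r ⁻¹' closure O := by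
            rw [hUn]
            exact mem_univ _
          exact h1.resolve_left ht
        · intro ht ht'
          have h1 : t ∈ closure O ∩ r ⁻¹' closure O := ⟨ht', ht⟩
          rw [h] at h1
          exact h1
      have hclop : IsClopen (closure O) := by
        refine ⟨isClosed_closure, ?_⟩
        rw [← isClosed_compl_iff, hc]
        exact hcl
      rcases isClopen_iff.1 hclop with h1 | h1
      · rw [h1] at hne
        exact absurd hne not_nonempty_empty
      · exact h1
    · exact eq_univ_of_univ_subset (h ▸ inter_subset_left)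
  · have hinv : ∀ g ∈ G, ∀ u : ℝ → ℝ, IsLift g u → u ⁻¹' closure O = closure O := by
      intro g hg u hu
      rcases d3_sign hu with h | h
      · exact hpos g hg u hu h
      · exact absurd ⟨g, hg, u, hu, h⟩ hneg
    rcases close_inv hC hm isClosed_closure hper hinv with h | h
    · rw [h] at hne
      exact absurd hne not_nonempty_empty
    · exact h

end Pool.Agent.H50.GSD
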