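import Mathlib
import Pool.Agent.H50.GSD.D2

/-!
# GD-4: countability, torsion and generators of the group of increasing lifts

PROOFS.
* `Lf_cnt`: a finitely generated group is countable (`Group.FG`/`Subgroup.FG`: e.g. `G` is the
  closure of a finite set, the image of a free group on a finite type, or
  `Subgroup.closure_countable`-type lemma).  `Lf G` is contained in the union over the countably
  many `g ∈ G` of the sets `{f | IsL g f}`, and each of these is countable: it is empty or, by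
  `isL_unique`, contained in the range of `k : ℤ ↦ TT ^ k * f0`.
* `Lf_tor`: take the same `Q`.  Let `IsL g f`, `f ^ q = TT ^ k`, `q > 0`.  Then `g ^ q = 1`
  (`isL_pow`, `isL_TT`, `isL_inj`), so `g ^ Q = 1`, `IsL 1 (f ^ Q)`, and `isL_one`.
* `Lf_gen`.  Let `P : Subgroup G` be the subgroup of those `g ∈ G` which have an increasing lift
  (`∃ f, IsL g f`; closed under products and inverses by `IsL.mul`, `IsL.inv`).  It has finite
  index: if `g, h ∈ G` do not belong to `P`, then their C² lifts `u, v` have derivative everywhere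
  negative (the derivative is continuous without zeros, not everywhere positive by `exists_isL`),
  so `u ∘ v` is a lift of `g * h` with positive derivative (`Pool.Agent.H50.GS.lifts_comp`),
  `g * h ∈ P` (`exists_isL`); so `P` has index 1 or 2 (`Subgroup.index_eq_two_iff` or a direct
  argument: two elements outside `P` are in the same coset; `Subgroup.FiniteIndex`).  By Schreier's
  lemma (`Subgroup.fg_of_index_ne_zero`, instance of `Group.FG`) `P` is finitely generated: let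
  `A` be a finite subset of `P` with closure `P`.  For `g ∈ A` choose a lift `l g`, and let
  `S0 = {l g | g ∈ A}`, `S = {1} ∪ S0 ∪ {s⁻¹ | s ∈ S0}`: finite, symmetric, contains `1`, contained
  in `Lf G`.  Claim: for `g ∈ P` there are `n` and `f ∈ BB S n` with `IsL g f` (induction on
  `Subgroup.closure`, with `BB_mul`).  If now `f' ∈ Lf G` is any lift of an element `g` (then
  `g ∈ P`), `f' = TT ^ k * f` (`isL_unique`) and `BB_TT`.
* `BB_mul`: `f ∈ BB S n`, `f' ∈ BB S m`, `S ⊆ Lf G` imply `f * f' ∈ BB S (n + m)`; induction on `n`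
  (`BB S 0 = {TT ^ k}`, `BB_TT`; `BB S (n+1) = S * BB S n`).
* `BB_TT`: `TT ^ k * f ∈ BB S n` for `f ∈ BB S n`: induction on `n`, `TT ^ k` commutes with the
  elements of `S` (`per_comm`, `isL_per`).
* `BB_Lf`: induction.
* For `f ∈ BB S n`, `s ∈ S`: `s * f ∈ BB S (n + 1)` by definition; `s ∈ BB S 1`.
-/

set_option autoImplicit false
open Set Filter Topology MeasureTheory

namespace Pool.Agent.H50.GSD

open Pool.Agent.H52.GS (TT BB)
open Pool.Agent.H50.GS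

variable {G : Subgroup (Circle ≃ₜ Circle)} {g g' : Circle ≃ₜ Circle} {f f' : ℝ ≃o ℝ}

theorem Lf_cnt (hG : G.FG) : (Lf G : Set (ℝ ≃o ℝ)).Countable := by
  classical
  have hfg : Group.FG G := (Group.fg_iff_subgroup_fg G).2 hG
  obtain ⟨α, hα, φ, hφ⟩ := Group.fg_iff_exists_freeGroup_hom_surjective_finite.1 hfg
  have : Countable α := Finite.to_countable
  have : Countable (FreeGroup α) :=
    Function.Surjective.countable (f := fun l : List (α × Bool) => FreeGroup.mk l)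
      (fun x => ⟨x.toWord, FreeGroup.mk_toWord⟩)
  have : Countable G := hφ.countable
  have h1 : (Lf G : Set (ℝ ≃o ℝ)) = ⋃ g : G, {f | IsL g.1 f} := by
    ext f
    simp only [mem_iUnion, mem_ofPred_eq, SetLike.mem_coe, mem_Lf]
    constructor
    · rintro ⟨g, hg, hf⟩; exact ⟨⟨g, hg⟩, hf⟩
    · rintro ⟨g, hf⟩; exact ⟨g.1, g.2, hf⟩
  rw [h1]
  refine countable_iUnion fun g => ?_
  by_cases h : ∃ f0, IsL g.1 f0
  · obtain ⟨f0, hf0⟩ := h
    refine (countable_range (fun k : ℤ => TT ^ k * f0)).mono ?_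
    intro f hf
    obtain ⟨k, hk⟩ := isL_unique hf0 hf
    exact ⟨k, hk.symm⟩
  · have : {f | IsL g.1 f} = ∅ := by
      ext f
      simp only [mem_ofPred_eq, mem_empty_iff_false, iff_false]
      exact fun hf => h ⟨f, hf⟩
    rw [this]
    exact countable_empty

theorem Lf_tor (hG : BddTorsion G) : ∃ Q : ℕ, 0 < Q ∧ ∀ f ∈ Lf G,
    (∃ q : ℕ, 0 < q ∧ ∃ k : ℤ, f ^ q = TT ^ k) → ∃ k : ℤ, f ^ Q = TT ^ k := by
  obtain ⟨Q, hQ, h⟩ := hG
  refine ⟨Q, hQ, ?_⟩
  rintro f ⟨g, hg, hf⟩ ⟨q, hq, k, hk⟩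
  have h1 : g ^ q = 1 := by
    have h2 := isL_pow hf q
    rw [hk] at h2
    exact isL_inj h2 (isL_TT k)
  have h3 := h g hg ⟨q, hq, h1⟩
  have h4 := isL_pow hf Q
  rw [h3] at h4
  exact isL_one h4

theorem BB_Lf {S : Set (ℝ ≃o ℝ)} (hS : S ⊆ Lf G) {n : ℕ} (hf : f ∈ BB S n) : f ∈ Lf G := by
  induction n generalizing f with
  | zero =>
    obtain ⟨k, rfl⟩ := hf
    exact TT_zpow_mem k
  | succ n ih =>
    obtain ⟨s, hs, b, hb, rfl⟩ := hf
    exact (Lf G).mul_mem (hS hs) (ih hb)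

theorem BB_TT {S : Set (ℝ ≃o ℝ)} (hS : S ⊆ Lf G) {n : ℕ} (hf : f ∈ BB S n) (k : ℤ) :
    TT ^ k * f ∈ BB S n := by
  induction n generalizing f with
  | zero =>
    obtain ⟨l, rfl⟩ := hf
    exact ⟨k + l, by rw [zpow_add]⟩
  | succ n ih =>
    obtain ⟨s, hs, b, hb, rfl⟩ := hf
    refine ⟨s, hs, TT ^ k * b, ih hb, ?_⟩
    obtain ⟨g, -, hg⟩ := hS hs
    rw [← mul_assoc, ← mul_assoc, per_comm (isL_per hg) k]

theorem BB_mul {S : Set (ℝ ≃o ℝ)} (hS : S ⊆ Lf G) {n m : ℕ} (hf : f ∈ BB S n)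
    (hf' : f' ∈ BB S m) : f * f' ∈ BB S (n + m) := by
  induction n generalizing f with
  | zero =>
    obtain ⟨k, rfl⟩ := hf
    rw [zero_add]
    exact BB_TT hS hf' k
  | succ n ih =>
    obtain ⟨s, hs, b, hb, rfl⟩ := hf
    rw [show n + 1 + m = (n + m) + 1 by ring]
    exact ⟨s, hs, b * f', ih hb, mul_assoc _ _ _⟩

/-- the subgroup of the elements which have an increasing lift -/
def d4P (G : Subgroup (Circle ≃ₜ Circle)) : Subgroup G where
  carrier := {g | ∃ f, IsL g.1 f}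
  mul_mem' := by
    rintro g h ⟨f, hf⟩ ⟨k, hk⟩
    exact ⟨f * k, hf.mul hk⟩
  one_mem' := ⟨1, IsL.one⟩
  inv_mem' := by
    rintro g ⟨f, hf⟩
    exact ⟨f⁻¹, hf.inv⟩

theorem d4_neg (hC : C2Group G) (hg : g ∈ G) (h : ¬ ∃ f, IsL g f) :
    ∃ u, IsLift g u ∧ ∀ t, deriv u t < 0 := by
  obtain ⟨u, hu⟩ := hC g hg
  refine ⟨u, hu, ?_⟩
  have hc : Continuous (deriv u) := hu.1.continuous_deriv (by norm_num)
  have h1 : ¬ ∀ t, 0 < deriv u t := fun hp => h (exists_isL hC hg ⟨u, hu, hp⟩)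
  push Not at h1
  obtain ⟨t0, ht0⟩ := h1
  intro t
  by_contra h2
  push Not at h2
  obtain ⟨s, hs⟩ : ∃ s, deriv u s = 0 :=
    mem_range_of_exists_le_of_exists_ge hc ⟨t0, ht0⟩ ⟨t, h2⟩
  exact hu.2.1 s hs

theorem d4_two (hC : C2Group G) (hg : g ∈ G) (hg' : g' ∈ G) (h : ¬ ∃ f, IsL g f)
    (h' : ¬ ∃ f, IsL g' f) : ∃ f, IsL (g * g') f := by
  obtain ⟨u, hu, hu'⟩ := d4_neg hC hg h
  obtain ⟨v, hv, hv'⟩ := d4_neg hC hg' h'
  obtain ⟨h1, h2⟩ := lifts_comp hu hv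
  refine exists_isL hC (G.mul_mem hg hg') ⟨_, h1, fun t => ?_⟩
  rw [h2]
  exact mul_pos_of_neg_of_neg (hu' _) (hv' _)

theorem d4_fin (hC : C2Group G) : (d4P G).FiniteIndex := by
  by_cases h : ∃ a : G, a ∉ d4P G
  · obtain ⟨a, ha⟩ := h
    have h2 : (d4P G).index = 2 := by
      rw [Subgroup.index_eq_two_iff_exists_notMem_and]
      refine ⟨a, ha, fun b => ?_⟩
      by_cases hb : b ∈ d4P G
      · exact Or.inr hb
      · exact Or.inl (d4_two hC b.2 a.2 hb ha)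
    exact ⟨by rw [h2]; norm_num⟩
  · push Not at h
    have h1 : d4P G = ⊤ := by
      ext a
      simp [h a]
    rw [h1]
    infer_instance

theorem Lf_gen (hC : C2Group G) (hG : G.FG) : ∃ S : Set (ℝ ≃o ℝ), S.Finite ∧ S ⊆ Lf G ∧
    (1 : ℝ ≃o ℝ) ∈ S ∧ (∀ s ∈ S, s⁻¹ ∈ S) ∧ ∀ f ∈ Lf G, ∃ n, f ∈ BB S n := by
  have hfg : Group.FG G := (Group.fg_iff_subgroup_fg G).2 hG
  have := d4_fin hC
  have hP : (d4P G).FG := (Group.fg_iff_subgroup_fg _).1 inferInstance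
  obtain ⟨A, hA⟩ := hP
  have hAP : ∀ g ∈ A, ∃ f, IsL (g : G).1 f := fun g hg => by
    have : g ∈ d4P G := by rw [← hA]; exact Subgroup.subset_closure hg
    exact this
  choose! l hl using hAP
  set S0 : Set (ℝ ≃o ℝ) := l '' (A : Set G) with hS0
  have hS0f : S0.Finite := A.finite_toSet.image l
  have hS0L : S0 ⊆ Lf G := by
    rintro _ ⟨g, hg, rfl⟩
    exact ⟨g.1, g.2, hl g hg⟩
  set S : Set (ℝ ≃o ℝ) := {1} ∪ S0 ∪ (fun s => s⁻¹) '' S0 with hS
  have hSL : S ⊆ Lf G := by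
    rintro s ((hs | hs) | ⟨s', hs, rfl⟩)
    · rw [mem_singleton_iff.1 hs]; exact (Lf G).one_mem
    · exact hS0L hs
    · exact (Lf G).inv_mem (hS0L hs)
  have h1S : (1 : ℝ ≃o ℝ) ∈ S := Or.inl (Or.inl rfl)
  have hB1 : ∀ s ∈ S, s ∈ BB S 1 := fun s hs =>
    ⟨s, hs, 1, ⟨0, by rw [zpow_zero]⟩, (mul_one _).symm⟩
  have hinv : ∀ s ∈ S, s⁻¹ ∈ S := by
    rintro s ((hs | hs) | ⟨s', hs, rfl⟩)
    · rw [mem_singleton_iff.1 hs, inv_one]; exact h1S
    · exact Or.inr ⟨s, hs, rfl⟩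
    · simp only [inv_inv]; exact Or.inl (Or.inr hs)
  have key : ∀ g : G, g ∈ d4P G → ∃ n, ∃ f ∈ BB S n, IsL g.1 f := by
    intro g hg
    rw [← hA] at hg
    induction hg using Subgroup.closure_induction'' with
    | mem x hx => exact ⟨1, l x, hB1 _ (Or.inl (Or.inr ⟨x, hx, rfl⟩)), hl x hx⟩
    | inv_mem x hx =>
      exact ⟨1, (l x)⁻¹, hB1 _ (Or.inr ⟨l x, ⟨x, hx, rfl⟩, rfl⟩), (hl x hx).inv⟩
    | one => exact ⟨0, 1, ⟨0, by rw [zpow_zero]⟩, IsL.one⟩
    | mul x y _ _ ihx ihy =>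
      obtain ⟨n, f, hf, hf'⟩ := ihx
      obtain ⟨m, k, hk, hk'⟩ := ihy
      exact ⟨n + m, f * k, BB_mul hSL hf hk, hf'.mul hk'⟩
  refine ⟨S, ((finite_singleton _).union hS0f).union (hS0f.image _), hSL, h1S, hinv, ?_⟩
  rintro f ⟨g, hg, hf⟩
  obtain ⟨n, k, hk, hk'⟩ := key ⟨g, hg⟩ ⟨f, hf⟩
  obtain ⟨j, hj⟩ := isL_unique hk' hf
  exact ⟨n, by rw [hj]; exact BB_TT hSL hk j⟩

end Pool.Agent.H50.GSD
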