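import Mathlib
import Pool.Agent.H50.GSD.D2
import Pool.Agent.H50.GSD.D3
import Pool.Agent.H50.GSD.D4

/-!
# GD-16: some nontrivial lift has a fixed point, finitely generated case without torsion hypothesis

PROOF.  `Γ = Lf G`.  Suppose that no `f ∈ Γ`, `f ≠ 1`, has a fixed point.
(1) Every `f ∈ Γ` satisfies `f ^ q = TT ^ k` for some `q > 0` and some integer `k`: by `hrat`
`(f ^ q) z = z + k 2 pi`, so `TT ^ (-k) * f ^ q ∈ Γ` fixes `z`, hence is `1`.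
(2) `d16_eq`: if `f, g ∈ Γ` and `f ^ q = g ^ q`, `q > 0`, then `f = g`.  Otherwise `g⁻¹ * f ≠ 1` has no
fixed point, so by continuity (intermediate value theorem) `g x < f x` for all `x` or `f x < g x`
for all `x`; then `(g ^ q) x < (f ^ q) x` for all `x` (induction), or the reverse, a contradiction.
(3) `Γ` is commutative: let `f, h ∈ Γ`, `f ^ q = TT ^ k`.  Then
`(h f h⁻¹) ^ q = h f^q h⁻¹ = h TT^k h⁻¹ = TT ^ k = f ^ q` (`per_comm`), so `h f h⁻¹ = f` by (2).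
(4) Let `S` be as in `Lf_gen`.  Claim: there is a finite set `E` of elements of `Γ` such that every
`f ∈ Γ` is `TT ^ k * e` with `e ∈ E`.  Proof: for `s ∈ S` let `q s > 0` with
`s ^ (q s) ∈ {TT ^ k}`; `Q = ∏ s ∈ S, q s` satisfies `s ^ Q ∈ {TT ^ k}` for all `s ∈ S`, and as
`Γ` is commutative `f ^ Q ∈ {TT ^ k}` for every product `f` of elements of `S` and of powers of `TT`
(induction on `n` in `f ∈ BB S n`), so for all `f ∈ Γ`.
(5) Contradiction: by `Lf_dense` there are `f_0, ..., f_Q ∈ Γ` with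
`0 < f_0 0 < f_1 0 < ... < f_Q 0 < 2 pi`.  With `f_i ^ Q = TT ^ (k_i)`: since `f_i 0 < f_(i+1) 0`,
`f_i x < f_(i+1) x` for all `x` (as in (2)), `f_i ^ Q < f_(i+1) ^ Q` pointwise, so
`k_i < k_(i+1)`; moreover `k_0 > 0` and `k_Q < Q` (`f_Q x < x + 2 pi` for all `x`, as
`TT * f_Q⁻¹ ∈ Γ` has no fixed point, so `(f_Q ^ Q) x < x + Q 2 pi`).  So `0 < k_0 < ... < k_Q < Q`:
`Q + 1` different integers in `(0, Q)`, impossible.  (Formally: construct by induction on `n` an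
element `f ∈ Γ` with `0 < f 0 < 2 pi` and `f ^ Q = TT ^ k`, `n < k`: from `f` get `f'` with
`f 0 < f' 0 < 2 pi` by `Lf_dense`, and `k' > k`; then take `n = Q`.)
So only `f ^ Q ∈ {TT ^ k}` for all `f ∈ Γ` is needed in (4).
-/

set_option autoImplicit false
open Set Filter Topology MeasureTheory

namespace Pool.Agent.H50.GSD

open Pool.Agent.H52.GS (TT BB)
open Pool.Agent.H50.GS

theorem d16_lt {Γ : Subgroup (ℝ ≃o ℝ)} (hno : ∀ f ∈ Γ, f ≠ 1 → ∀ z : ℝ, f z ≠ z)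
    {f g : ℝ ≃o ℝ} (hf : f ∈ Γ) (hg : g ∈ Γ) {x0 : ℝ} (h0 : f x0 < g x0) (x : ℝ) : f x < g x := by
  have hmem : g⁻¹ * f ∈ Γ := Γ.mul_mem (Γ.inv_mem hg) hf
  have hlt : ∀ y : ℝ, (g⁻¹ * f) y < y ↔ f y < g y := by
    intro y
    have h1 : g ((g⁻¹ * f) y) = f y := by
      rw [RelIso.mul_apply, RelIso.apply_inv_self]
    rw [← h1]
    exact g.lt_iff_lt.symm
  have hne : g⁻¹ * f ≠ 1 := by
    intro h
    have h1 := (hlt x0).2 h0
    rw [h] at h1
    exact lt_irrefl _ h1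
  have hfix := hno _ hmem hne
  rw [← hlt]
  by_contra hc
  have h1 : x < (g⁻¹ * f) x := lt_of_le_of_ne (not_lt.1 hc) (hfix x).symm
  have h2 : (g⁻¹ * f) x0 < x0 := (hlt x0).2 h0
  have hcont : Continuous fun t : ℝ => (g⁻¹ * f) t - t := (g⁻¹ * f).continuous.sub continuous_id
  have h3 : (0 : ℝ) ∈ range fun t : ℝ => (g⁻¹ * f) t - t :=
    mem_range_of_exists_le_of_exists_ge hcont ⟨x0, by show (g⁻¹ * f) x0 - x0 ≤ 0; linarith⟩
      ⟨x, by show 0 ≤ (g⁻¹ * f) x - x; linarith⟩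
  obtain ⟨t, ht⟩ := h3
  have ht' : (g⁻¹ * f) t - t = 0 := ht
  exact hfix t (by linarith)

theorem d16_pow {f g : ℝ ≃o ℝ} (h : ∀ x, f x < g x) {n : ℕ} (hn : 0 < n) (x : ℝ) :
    (f ^ n) x < (g ^ n) x := by
  induction n, hn using Nat.le_induction generalizing x with
  | base => simpa using h x
  | succ n hn ih =>
    rw [pow_succ', pow_succ', RelIso.mul_apply, RelIso.mul_apply]
    exact (h _).trans (g.strictMono (ih x))

theorem d16_eq {Γ : Subgroup (ℝ ≃o ℝ)} (hno : ∀ f ∈ Γ, f ≠ 1 → ∀ z : ℝ, f z ≠ z)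
    {f g : ℝ ≃o ℝ} (hf : f ∈ Γ) (hg : g ∈ Γ) {q : ℕ} (hq : 0 < q) (h : f ^ q = g ^ q) : f = g := by
  by_contra hne
  have h1 : ∃ x, f x ≠ g x := by
    by_contra hc
    push Not at hc
    exact hne (RelIso.ext hc)
  obtain ⟨x, hx⟩ := h1
  rcases lt_or_gt_of_ne hx with hx | hx
  · have := d16_pow (d16_lt hno hf hg hx) hq 0
    rw [h] at this
    exact lt_irrefl _ this
  · have := d16_pow (d16_lt hno hg hf hx) hq 0
    rw [h] at this
    exact lt_irrefl _ this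

theorem exists_fix_fg {G : Subgroup (Circle ≃ₜ Circle)} (hC : C2Group G) (hm : Minimal G)
    (hfg : G.FG)
    (hrat : ∀ f ∈ Lf G, ∃ q : ℕ, 0 < q ∧ ∃ k : ℤ, ∃ z : ℝ, (f ^ q) z = z + k * (2 * Real.pi)) :
    ∃ f ∈ Lf G, f ≠ 1 ∧ ∃ z : ℝ, f z = z := by
  by_contra hcon
  have hno : ∀ f ∈ Lf G, f ≠ 1 → ∀ z : ℝ, f z ≠ z := by
    intro f hf hf1 z hz
    exact hcon ⟨f, hf, hf1, z, hz⟩
  have hper : ∀ f ∈ Lf G, Per f := by
    rintro f ⟨g, -, hf⟩
    exact isL_per hf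
  -- (1)
  have h1 : ∀ f ∈ Lf G, ∃ q : ℕ, 0 < q ∧ ∃ k : ℤ, f ^ q = TT ^ k := by
    intro f hf
    obtain ⟨q, hq, k, z, hz⟩ := hrat f hf
    refine ⟨q, hq, k, ?_⟩
    by_contra hne
    have hmem : TT ^ (-k) * f ^ q ∈ Lf G :=
      (Lf G).mul_mem (TT_zpow_mem _) ((Lf G).pow_mem hf q)
    have hne1 : TT ^ (-k) * f ^ q ≠ 1 := by
      intro h
      apply hne
      have h2 : TT ^ k * (TT ^ (-k) * f ^ q) = TT ^ k * 1 := by rw [h]
      rw [← mul_assoc, ← zpow_add, add_neg_cancel, zpow_zero, one_mul, mul_one] at h2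
      exact h2
    refine hno _ hmem hne1 z ?_
    rw [RelIso.mul_apply, hz, tt_zpow]
    push_cast
    ring
  -- (3)
  have h3 : ∀ f ∈ Lf G, ∀ h ∈ Lf G, h * f = f * h := by
    intro f hf h hh
    obtain ⟨q, hq, k, hk⟩ := h1 f hf
    have h4 : (h * f * h⁻¹) ^ q = f ^ q := by
      rw [conj_pow, hk, per_comm (hper h hh) k, mul_assoc, mul_inv_cancel, mul_one]
    have h5 := d16_eq hno ((Lf G).mul_mem ((Lf G).mul_mem hh hf) ((Lf G).inv_mem hh)) hf hq h4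
    exact mul_inv_eq_iff_eq_mul.1 h5
  -- (4)
  have h4 : ∃ Q : ℕ, 0 < Q ∧ ∀ f ∈ Lf G, ∃ k : ℤ, f ^ Q = TT ^ k := by
    obtain ⟨S, hSf, hSL, -, -, hgen⟩ := Lf_gen hC hfg
    choose! q hq hqk using h1
    refine ⟨∏ s ∈ hSf.toFinset, q s, Finset.prod_pos fun s hs =>
      hq s (hSL (hSf.mem_toFinset.1 hs)), ?_⟩
    intro f hf
    obtain ⟨n, hn⟩ := hgen f hf
    clear hf
    induction n generalizing f with
    | zero =>
      obtain ⟨k, rfl⟩ := hn
      exact ⟨k * (∏ s ∈ hSf.toFinset, q s : ℕ), by rw [zpow_mul, zpow_natCast]⟩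
    | succ n ih =>
      obtain ⟨s, hs, b, hb, rfl⟩ := hn
      obtain ⟨k, hk⟩ := ih b hb
      obtain ⟨l, hl⟩ := hqk s (hSL hs)
      have hd : q s ∣ ∏ s ∈ hSf.toFinset, q s :=
        Finset.dvd_prod_of_mem q (hSf.mem_toFinset.2 hs)
      obtain ⟨m, hm'⟩ := hd
      have hcomm : Commute s b := h3 b (BB_Lf hSL hb) s (hSL hs)
      refine ⟨l * m + k, ?_⟩
      rw [hcomm.mul_pow, hk, hm', pow_mul, hl, zpow_add, zpow_mul, zpow_natCast]
  obtain ⟨Q, hQ, hQk⟩ := h4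
  have hT0 : (TT : ℝ ≃o ℝ) 0 = 2 * Real.pi := by rw [tt_apply, zero_add]
  have hp := Real.two_pi_pos
  -- (5)
  have h5 : ∀ n : ℕ, ∃ f ∈ Lf G, 0 < f 0 ∧ f 0 < 2 * Real.pi ∧
      ∃ k : ℤ, f ^ Q = TT ^ k ∧ (n : ℤ) < k := by
    intro n
    induction n with
    | zero =>
      obtain ⟨f, hf, hf0, hf1⟩ := Lf_dense hC hm 0 hp
      obtain ⟨k, hk⟩ := hQk f hf
      refine ⟨f, hf, hf0, hf1, k, hk, ?_⟩
      have h6 := d16_pow (d16_lt hno (Lf G).one_mem hf (x0 := 0) hf0) hQ 0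
      rw [one_pow, hk, tt_zpow] at h6
      have h7 : (0 : ℝ) < 0 + k * (2 * Real.pi) := h6
      have h8 : (0 : ℝ) < k := by
        by_contra hc
        push Not at hc
        nlinarith
      exact_mod_cast h8
    | succ n ih =>
      obtain ⟨f, hf, hf0, hf1, k, hk, hnk⟩ := ih
      obtain ⟨f', hf', hf0', hf1'⟩ := Lf_dense hC hm 0 hf1
      obtain ⟨k', hk'⟩ := hQk f' hf'
      refine ⟨f', hf', hf0.trans hf0', hf1', k', hk', ?_⟩
      have h6 := d16_pow (d16_lt hno hf hf' (x0 := 0) hf0') hQ 0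
      rw [hk, hk', tt_zpow, tt_zpow] at h6
      have h8 : (k : ℝ) < k' := by
        by_contra hc
        push Not at hc
        nlinarith
      have h9 : k < k' := by exact_mod_cast h8
      push_cast
      omega
  obtain ⟨f, hf, hf0, hf1, k, hk, hnk⟩ := h5 Q
  have h6 := d16_pow (d16_lt hno hf TT_mem (x0 := 0) (by rw [hT0]; exact hf1)) hQ 0
  rw [hk, ← zpow_natCast, tt_zpow, tt_zpow] at h6
  have h8 : (k : ℝ) < Q := by
    by_contra hc
    push Not at hc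
    push_cast at h6
    nlinarith
  have h9 : k < Q := by exact_mod_cast h8
  omega

end Pool.Agent.H50.GSD
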