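import Mathlib
import Pool.Agent.H50.GSD.D1

/-!
# GD-K5: Denjoy distortion and the core of Denjoy's argument

`C2p f`: `f` is C² with positive derivative; `Per f`: `f (x + 2 pi) = f x + 2 pi`.  Derivatives of
powers are derivatives of the function `((f ^ n : ℝ ≃o ℝ) : ℝ → ℝ)`; note
`(f ^ (n+1)) x = f ((f ^ n) x)` (`pow_succ'`, `RelIso.mul_apply`).

PROOFS.
* `deriv_pow_succ`, `c2p_pow`: chain rule, induction.
* `deriv_pow_per`: `(f ^ n) (x + m 2 pi) = (f ^ n) x + m 2 pi` (`per_pow`, `per_int`), differentiate.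
* `dist_bd`: the function `t ↦ log (deriv f t)` is C¹ and `2 pi`-periodic, its derivative is
  continuous and periodic, so bounded by some `C ≥ 0`, and it is `C`-Lipschitz
  (`Convex.norm_image_sub_le_of_norm_deriv_le` on `univ`).  By induction on `n`
  `log (deriv (f ^ n) s) = ∑ l < n, log (deriv f ((f ^ l) s))`, and `(f ^ l) s`, `(f ^ l) t` both lie
  in `[(f ^ l) u, (f ^ l) v]`.
* `dj_core`.  Let `C` be as in `dist_bd` and let `k, m, u, v` be as in `hk`; `g = (f⁻¹) ^ k`.  By the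
  mean value theorem there is `ξ ∈ (s, t)` with `(f^k) t - (f^k) s = deriv (f^k) ξ (t - s)`, and
  `η ∈ (g s, g t)` with `t - s = (f^k) (g t) - (f^k) (g s) = deriv (f^k) η (g t - g s)`.  The points
  `ξ` and `η + m 2 pi` belong to `[u, v]` and `deriv (f^k) (η + m 2 pi) = deriv (f^k) η`, so
  `log (deriv (f^k) ξ) ≥ log (deriv (f^k) η) - C B` (`B ≥ 0` follows from `hp 0`), hence
  `((f^k) t - (f^k) s) * (g t - g s) ≥ exp (-(C B)) * (t - s)^2`.
  By `hp` the series of the positive numbers `(f^i) t - (f^i) s` converges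
  (`summable_of_sum_range_le`), so these numbers tend to `0`; likewise for `f⁻¹` by `hm`.  So for
  large `N` and `k ≥ N` the left side is smaller than the right side, a contradiction.
-/

set_option autoImplicit false
open Set Filter Topology MeasureTheory

namespace Pool.Agent.H50.GSD

open Pool.Agent.H52.GS (TT)

variable {f : ℝ ≃o ℝ}

private theorem k5_coe (n : ℕ) : ((f ^ (n + 1) : ℝ ≃o ℝ) : ℝ → ℝ) =
    (f : ℝ → ℝ) ∘ ((f ^ n : ℝ ≃o ℝ) : ℝ → ℝ) := by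
  funext x
  rw [pow_succ']
  rfl

theorem c2p_pow (hc : C2p f) (n : ℕ) : C2p (f ^ n) := by
  induction n with
  | zero =>
    have h : ((f ^ 0 : ℝ ≃o ℝ) : ℝ → ℝ) = id := by
      funext x
      rw [pow_zero]
      rfl
    refine ⟨?_, fun t => ?_⟩
    · rw [h]
      exact contDiff_id
    · rw [h, deriv_id]
      exact one_pos
  | succ n ih =>
    refine ⟨?_, fun t => ?_⟩
    · rw [k5_coe]
      exact hc.1.comp ih.1
    · rw [k5_coe, deriv_comp t (hc.1.differentiable (by norm_num) _)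
        (ih.1.differentiable (by norm_num) _)]
      exact mul_pos (hc.2 _) (ih.2 _)

theorem deriv_pow_succ (hc : C2p f) (n : ℕ) (t : ℝ) :
    deriv ((f ^ (n + 1) : ℝ ≃o ℝ) : ℝ → ℝ) t =
      deriv (f : ℝ → ℝ) ((f ^ n) t) * deriv ((f ^ n : ℝ ≃o ℝ) : ℝ → ℝ) t := by
  rw [k5_coe, deriv_comp t (hc.1.differentiable (by norm_num) _)
    ((c2p_pow hc n).1.differentiable (by norm_num) _)]

theorem deriv_pow_per (hper : Per f) (n : ℕ) (m : ℤ) (t : ℝ) :
    deriv ((f ^ n : ℝ ≃o ℝ) : ℝ → ℝ) (t + m * (2 * Real.pi)) =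
      deriv ((f ^ n : ℝ ≃o ℝ) : ℝ → ℝ) t := by
  have h1 : (fun x : ℝ => (f ^ n : ℝ ≃o ℝ) (x + m * (2 * Real.pi))) =
      fun x : ℝ => (f ^ n : ℝ ≃o ℝ) x + m * (2 * Real.pi) := by
    funext x
    exact per_int (per_pow hper n) m x
  have h2 := congrArg (fun F => deriv F t) h1
  simp only [deriv_add_const] at h2
  rw [← h2]
  exact (deriv_comp_add_const (f := ((f ^ n : ℝ ≃o ℝ) : ℝ → ℝ)) (m * (2 * Real.pi)) t).symm

theorem dist_bd (hper : Per f) (hc : C2p f) : ∃ C : ℝ, 0 ≤ C ∧ ∀ (n : ℕ) (u v s t : ℝ),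
    s ∈ Icc u v → t ∈ Icc u v →
    |Real.log (deriv ((f ^ n : ℝ ≃o ℝ) : ℝ → ℝ) s) -
      Real.log (deriv ((f ^ n : ℝ ≃o ℝ) : ℝ → ℝ) t)| ≤
      C * ∑ l ∈ Finset.range n, ((f ^ l) v - (f ^ l) u) := by
  set Lg : ℝ → ℝ := fun t => Real.log (deriv (f : ℝ → ℝ) t) with hLg
  have h1 : ContDiff ℝ 1 (deriv (f : ℝ → ℝ)) := by
    have h2 : ContDiff ℝ (1 + 1) (f : ℝ → ℝ) := by
      have : (1 : WithTop ℕ∞) + 1 = 2 := by norm_num
      rw [this]
      exact hc.1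
    exact (contDiff_succ_iff_deriv.1 h2).2.2
  have hL1 : ContDiff ℝ 1 Lg := h1.log fun t => (hc.2 t).ne'
  have hLper : Function.Periodic Lg (2 * Real.pi) := by
    intro t
    have h3 := deriv_pow_per hper 1 1 t
    rw [pow_one, Int.cast_one, one_mul] at h3
    simp only [hLg]
    rw [h3]
  have hLc : Continuous (deriv Lg) := hL1.continuous_deriv (by norm_num)
  have hLp : Function.Periodic (deriv Lg) (2 * Real.pi) := by
    intro t
    have h4 : (fun x => Lg (x + 2 * Real.pi)) = Lg := funext hLper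
    have h5 : deriv (fun x => Lg (x + 2 * Real.pi)) t = deriv Lg t :=
      congrArg (fun F => deriv F t) h4
    rw [← h5]
    exact (deriv_comp_add_const (f := Lg) (2 * Real.pi) t).symm
  obtain ⟨C, hC⟩ := (hLp.isBounded_of_continuous Real.two_pi_pos.ne' hLc).exists_norm_le
  have hC' : ∀ t, ‖deriv Lg t‖ ≤ C := fun t => hC _ ⟨t, rfl⟩
  have hC0 : 0 ≤ C := (norm_nonneg _).trans (hC' 0)
  have hLip : ∀ x y : ℝ, |Lg x - Lg y| ≤ C * |x - y| := by
    intro x y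
    have h6 := Convex.norm_image_sub_le_of_norm_deriv_le (f := Lg) (s := univ) (C := C)
      (fun z _ => (hL1.differentiable (by norm_num)) z) (fun z _ => hC' z) convex_univ
      (mem_univ y) (mem_univ x)
    simpa [Real.norm_eq_abs] using h6
  refine ⟨C, hC0, ?_⟩
  intro n u v s t hs ht
  induction n with
  | zero =>
    have h : ((f ^ 0 : ℝ ≃o ℝ) : ℝ → ℝ) = id := by
      funext x
      rw [pow_zero]
      rfl
    rw [h]
    simp
  | succ n ih =>
    rw [deriv_pow_succ hc, deriv_pow_succ hc, Real.log_mul (hc.2 _).ne' ((c2p_pow hc n).2 _).ne',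
      Real.log_mul (hc.2 _).ne' ((c2p_pow hc n).2 _).ne', Finset.sum_range_succ, mul_add]
    have h7 := hLip ((f ^ n) s) ((f ^ n) t)
    have h8 : |(f ^ n) s - (f ^ n) t| ≤ (f ^ n) v - (f ^ n) u := by
      have m1 := (f ^ n).monotone hs.1
      have m2 := (f ^ n).monotone hs.2
      have m3 := (f ^ n).monotone ht.1
      have m4 := (f ^ n).monotone ht.2
      rw [abs_le]
      constructor <;> linarith
    have h9 := mul_le_mul_of_nonneg_left h8 hC0
    simp only [hLg] at h7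
    set a1 := Real.log (deriv (f : ℝ → ℝ) ((f ^ n) s))
    set a2 := Real.log (deriv (f : ℝ → ℝ) ((f ^ n) t))
    set b1 := Real.log (deriv ((f ^ n : ℝ ≃o ℝ) : ℝ → ℝ) s)
    set b2 := Real.log (deriv ((f ^ n : ℝ ≃o ℝ) : ℝ → ℝ) t)
    have h10 : a1 + b1 - (a2 + b2) = (a1 - a2) + (b1 - b2) := by ring
    rw [h10]
    exact (abs_add_le _ _).trans (by linarith)

private theorem k5_tendsto (g : ℝ ≃o ℝ) {s t B : ℝ} (hst : s < t)
    (hp : ∀ n : ℕ, ∑ i ∈ Finset.range n, ((g ^ i) t - (g ^ i) s) ≤ B) :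
    Tendsto (fun i : ℕ => (g ^ i) t - (g ^ i) s) atTop (𝓝 0) := by
  have h0 : ∀ i : ℕ, 0 ≤ (g ^ i) t - (g ^ i) s := fun i =>
    sub_nonneg.2 ((g ^ i).monotone hst.le)
  exact (summable_of_sum_range_le h0 hp).tendsto_atTop_zero

theorem dj_core (hper : Per f) (hc : C2p f) {s t B : ℝ} (hst : s < t)
    (hp : ∀ n : ℕ, ∑ i ∈ Finset.range n, ((f ^ i) t - (f ^ i) s) ≤ B)
    (hm : ∀ n : ℕ, ∑ i ∈ Finset.range n, (((f⁻¹ : ℝ ≃o ℝ) ^ i) t - ((f⁻¹ : ℝ ≃o ℝ) ^ i) s) ≤ B)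
    (hk : ∀ N : ℕ, ∃ k ≥ N, ∃ (m : ℤ) (u v : ℝ), u ≤ s ∧ t ≤ v ∧
      u ≤ ((f⁻¹ : ℝ ≃o ℝ) ^ k) s + m * (2 * Real.pi) ∧
      ((f⁻¹ : ℝ ≃o ℝ) ^ k) t + m * (2 * Real.pi) ≤ v ∧
      ∑ l ∈ Finset.range k, ((f ^ l) v - (f ^ l) u) ≤ B) : False := by
  obtain ⟨C, hC0, hC⟩ := dist_bd hper hc
  have t1 := k5_tendsto f hst hp
  have t2 := k5_tendsto f⁻¹ hst hm
  have t3 := t1.mul t2
  rw [mul_zero] at t3
  have hpos : 0 < Real.exp (-(C * B)) * (t - s) ^ 2 :=
    mul_pos (Real.exp_pos _) (pow_pos (sub_pos.2 hst) 2)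
  obtain ⟨N, hN⟩ := eventually_atTop.1 (t3.eventually (gt_mem_nhds hpos))
  obtain ⟨k, hkN, m, u, v, hu, hv, hu', hv', hsum⟩ := hk N
  have hlt := hN k hkN
  set g : ℝ ≃o ℝ := (f⁻¹ : ℝ ≃o ℝ) ^ k with hg
  have hfg : ∀ x, (f ^ k) (g x) = x := by
    intro x
    have : f ^ k * g = 1 := by rw [hg, inv_pow, mul_inv_cancel]
    have h1 := congrArg (fun e : ℝ ≃o ℝ => e x) this
    exact h1
  have hC2 := c2p_pow hc k
  have hdiff : Differentiable ℝ ((f ^ k : ℝ ≃o ℝ) : ℝ → ℝ) := hC2.1.differentiable (by norm_num)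
  obtain ⟨ξ, hξ, hξ'⟩ := exists_deriv_eq_slope ((f ^ k : ℝ ≃o ℝ) : ℝ → ℝ) hst
    hdiff.continuous.continuousOn hdiff.differentiableOn
  have hgst : g s < g t := g.strictMono hst
  obtain ⟨η, hη, hη'⟩ := exists_deriv_eq_slope ((f ^ k : ℝ ≃o ℝ) : ℝ → ℝ) hgst
    hdiff.continuous.continuousOn hdiff.differentiableOn
  rw [hfg, hfg] at hη'
  have hηper := deriv_pow_per hper k m η
  have mem1 : ξ ∈ Icc u v := ⟨hu.trans hξ.1.le, hξ.2.le.trans hv⟩
  have mem2 : η + m * (2 * Real.pi) ∈ Icc u v :=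
    ⟨hu'.trans (by linarith [hη.1]), le_trans (by linarith [hη.2]) hv'⟩
  have hd := hC k u v ξ (η + m * (2 * Real.pi)) mem1 mem2
  rw [hηper] at hd
  have hd2 : C * ∑ l ∈ Finset.range k, ((f ^ l) v - (f ^ l) u) ≤ C * B :=
    mul_le_mul_of_nonneg_left hsum hC0
  set p := deriv ((f ^ k : ℝ ≃o ℝ) : ℝ → ℝ) ξ with hpdef
  set q := deriv ((f ^ k : ℝ ≃o ℝ) : ℝ → ℝ) η with hqdef
  have hp0 : 0 < p := hC2.2 ξ
  have hq0 : 0 < q := hC2.2 η
  have hlog : Real.log q - C * B ≤ Real.log p := by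
    have := neg_le_of_abs_le (hd.trans hd2)
    linarith
  have hratio : Real.exp (-(C * B)) * q ≤ p := by
    have h2 := Real.exp_le_exp.2 hlog
    rw [Real.exp_log hp0, sub_eq_add_neg, Real.exp_add, Real.exp_log hq0, mul_comm] at h2
    exact h2
  have hA : (f ^ k) t - (f ^ k) s = p * (t - s) := by
    rw [hξ']
    field_simp [(sub_pos.2 hst).ne']
  have hgpos : 0 < g t - g s := sub_pos.2 hgst
  have hB : t - s = q * (g t - g s) := by
    rw [hη']
    field_simp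
  have hfin : Real.exp (-(C * B)) * (t - s) ^ 2 ≤ ((f ^ k) t - (f ^ k) s) * (g t - g s) := by
    rw [hA]
    have h3 : Real.exp (-(C * B)) * (t - s) ^ 2 =
        (Real.exp (-(C * B)) * q) * ((t - s) * (g t - g s)) := by
      rw [pow_two]
      nth_rewrite 2 [hB]
      ring
    rw [h3]
    have h4 : p * (t - s) * (g t - g s) = p * ((t - s) * (g t - g s)) := by ring
    rw [h4]
    exact mul_le_mul_of_nonneg_right hratio (mul_nonneg (sub_nonneg.2 hst.le) hgpos.le)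
  exact absurd hlt (not_lt.2 hfin)

end Pool.Agent.H50.GSD
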