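import Mathlib
import Pool.Agent.H50.GSD.D2
import Pool.Agent.H50.GSD.D3
import Pool.Agent.H50.GS.Sum

/-!
# GD-11: existence of a hyperbolic fixed point

PROOF.  Let `f ∈ Lf G`, `f ≠ 1`, `f z = z`.  By `an_iso` there is `δ > 0` with `f t ≠ t` for
`0 < |t - z| ≤ δ`; by continuity `f t - t` has constant sign on `(z, z + δ]`.  Replacing `f` by
`f⁻¹` we may assume `f t < t` for `t ∈ Ioc z (z + δ)` (if `t < f t` there then `f⁻¹ t < t` for
`t ∈ Ioc z (z + δ)`: `t < f t` and monotonicity).  `Pool.Agent.H50.GS.iter_facts` (in `GS/Sum.lean`,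
with `p = z`, `a = z + δ/2`) gives: for every `ε > 0` there is `K` such that for `k ≥ K`:
`deriv (f^[k]) t < ε` for `t ∈ Icc a (z + δ)`, `z < f^[k] t < z + ε` for `t ∈ Icc a (z + δ)`
(`Ioc z (z + δ)`).  Note `f^[k] = ((f ^ k : ℝ ≃o ℝ) : ℝ → ℝ)` (`Function.iterate` and `pow_succ`;
e.g. by induction).
By `Lf_dense` there is `h ∈ Lf G` with `a < h z < z + δ`.  `h` is C² with positive derivative
(`isL_c2`).  By continuity of `h` at `z` there is `ε1 > 0` with `a < h t < z + δ` for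
`t ∈ (z - ε1, z + ε1)`, and let `M ≥ 1` bound `deriv h` on `[z - 1, z + 1]`.  Take
`ε = min ε1 (min 1 (1/(2 M)))` and `k = K(ε)`, `φ = h * f ^ k ∈ Lf G`.  For `t ∈ J = Icc a (z + δ)`:
`φ t ∈ (a, z + δ)` and `0 < deriv φ t = deriv h ((f^k) t) * deriv (f^k) t ≤ M ε < 1`.  By the
intermediate value theorem for `φ t - t` (positive at `a`, negative at `z + δ`) `φ` has a fixed
point `p ∈ J`, and `deriv φ p < 1`, so `deriv φ p ≠ 1`.
-/

set_option autoImplicit false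
open Set Filter Topology MeasureTheory

namespace Pool.Agent.H50.GSD

open Pool.Agent.H52.GS (TT)
open Pool.Agent.H50.GS

private theorem d11_iter (f : ℝ ≃o ℝ) (k : ℕ) (t : ℝ) : (f ^ k) t = (f : ℝ → ℝ)^[k] t := by
  induction k with
  | zero => simp
  | succ k ih => rw [pow_succ', RelIso.mul_apply, ih, Function.iterate_succ_apply']

private theorem d11_side {f : ℝ ≃o ℝ} {z : ℝ} (h : ∀ᶠ t in 𝓝[≠] z, f t ≠ t) :
    ∃ δ : ℝ, 0 < δ ∧ ((∀ t ∈ Ioc z (z + δ), f t < t) ∨ (∀ t ∈ Ioc z (z + δ), t < f t)) := by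
  rw [eventually_nhdsWithin_iff, Metric.eventually_nhds_iff] at h
  obtain ⟨δ, hδ, hd⟩ := h
  refine ⟨δ / 2, by linarith, ?_⟩
  have hne : ∀ t ∈ Ioc z (z + δ / 2), f t ≠ t := by
    intro t ht
    apply hd
    · rw [Real.dist_eq, abs_of_pos (by linarith [ht.1])]
      linarith [ht.2]
    · exact ht.1.ne'
  by_contra hc
  push Not at hc
  obtain ⟨⟨a, ha, ha'⟩, ⟨b, hb, hb'⟩⟩ := hc
  have hpc : IsPreconnected (Ioc z (z + δ / 2)) := isPreconnected_Ioc
  have := hpc.intermediate_value₂ hb ha (f := (f : ℝ → ℝ)) (g := fun t => t)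
    f.continuous.continuousOn continuousOn_id hb' ha'
  obtain ⟨t, ht, ht'⟩ := this
  exact hne t ht ht'

theorem exists_hyp {G : Subgroup (Circle ≃ₜ Circle)} (hG : AnGroup G) (hm : Minimal G)
    (hfix : ∃ f ∈ Lf G, f ≠ 1 ∧ ∃ z : ℝ, f z = z) :
    ∃ f ∈ Lf G, ∃ p : ℝ, f p = p ∧ deriv (f : ℝ → ℝ) p ≠ 1 := by
  have hc2 : ∀ f ∈ Lf G, C2p f := by
    rintro f ⟨g, hg, hf⟩
    exact isL_c2 hG hg hf
  -- the contraction
  obtain ⟨f, hf, z, δ, hδ, hz, hcon⟩ : ∃ f ∈ Lf G, ∃ z δ : ℝ, 0 < δ ∧ f z = z ∧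
      ∀ t ∈ Ioc z (z + δ), f t < t := by
    obtain ⟨f, hf, hf1, z, hz⟩ := hfix
    have han : AnalyticOnNhd ℝ (f : ℝ → ℝ) univ := by
      obtain ⟨g, hg, hl⟩ := hf
      exact (isL_an hG hg hl).1
    obtain ⟨δ, hδ, h | h⟩ := d11_side (an_iso han hf1 z)
    · exact ⟨f, hf, z, δ, hδ, hz, h⟩
    · refine ⟨f⁻¹, (Lf G).inv_mem hf, z, δ, hδ, ?_, ?_⟩
      · have := RelIso.inv_apply_self f z
        rwa [hz] at this
      · intro t ht
        have h1 := (f⁻¹ : ℝ ≃o ℝ).strictMono (h t ht)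
        rwa [RelIso.inv_apply_self] at h1
  obtain ⟨hfc, hfp⟩ := hc2 f hf
  have ha : z + δ / 2 ∈ Ioo z (z + δ) := ⟨by linarith, by linarith⟩
  obtain ⟨-, hder, hit, hrange, hpos, hcd⟩ := iter_facts hδ hfc hfp hz hcon ha
  obtain ⟨h, hh, hh1, hh2⟩ := Lf_dense (an_c2 hG) hm z (show z + δ / 2 < z + δ by linarith)
  obtain ⟨hhc, hhp⟩ := hc2 h hh
  -- continuity of `h`
  have hcont : ∀ᶠ t in 𝓝 z, z + δ / 2 < h t ∧ h t < z + δ := by
    have h1 := h.continuous.continuousAt.tendsto (x := z)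
    exact (h1.eventually (lt_mem_nhds hh1)).and (h1.eventually (gt_mem_nhds hh2))
  rw [Metric.eventually_nhds_iff] at hcont
  obtain ⟨ε1, hε1, hcont⟩ := hcont
  have hdc : Continuous (deriv (h : ℝ → ℝ)) := hhc.continuous_deriv (by norm_num)
  obtain ⟨M, hM⟩ := isCompact_Icc.exists_bound_of_continuousOn (s := Icc (z - 1) (z + 1))
    hdc.continuousOn
  have hM0 : 0 ≤ M := (norm_nonneg _).trans (hM z ⟨by linarith, by linarith⟩)
  set ε := min ε1 (min 1 (1 / (2 * (M + 1)))) with hε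
  have hε0 : 0 < ε := by
    rw [hε]
    have : 0 < 1 / (2 * (M + 1)) := by positivity
    exact lt_min hε1 (lt_min one_pos this)
  have hεa : ε ≤ ε1 := min_le_left _ _
  have hεb : ε ≤ 1 := (min_le_right _ _).trans (min_le_left _ _)
  have hεc : ε ≤ 1 / (2 * (M + 1)) := (min_le_right _ _).trans (min_le_right _ _)
  obtain ⟨K1, hK1⟩ := hder ε hε0
  obtain ⟨K2, hK2⟩ := hit ε hε0
  set k := max K1 K2 with hk
  have hsub : ∀ t ∈ Icc (z + δ / 2) (z + δ), t ∈ Ioc z (z + δ) := fun t ht =>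
    ⟨by linarith [ht.1], ht.2⟩
  have hst : ∀ t ∈ Icc (z + δ / 2) (z + δ), z < (f : ℝ → ℝ)^[k] t ∧
      (f : ℝ → ℝ)^[k] t < z + ε := fun t ht =>
    ⟨(hrange k t (hsub t ht)).1, hK2 k (le_max_right _ _) t (hsub t ht)⟩
  set φ : ℝ ≃o ℝ := h * f ^ k with hφ
  have hφm : φ ∈ Lf G := (Lf G).mul_mem hh ((Lf G).pow_mem hf k)
  have hφe : (φ : ℝ → ℝ) = (h : ℝ → ℝ) ∘ (f : ℝ → ℝ)^[k] := by
    funext t
    rw [hφ, RelIso.mul_apply, d11_iter]
    rfl
  have hφr : ∀ t ∈ Icc (z + δ / 2) (z + δ), z + δ / 2 < φ t ∧ φ t < z + δ := by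
    intro t ht
    rw [hφe]
    apply hcont
    have := hst t ht
    rw [Real.dist_eq, abs_of_pos (by linarith [this.1])]
    linarith [this.2]
  have hφd : ∀ t ∈ Icc (z + δ / 2) (z + δ), deriv (φ : ℝ → ℝ) t < 1 := by
    intro t ht
    have h1 : deriv (φ : ℝ → ℝ) t =
        deriv (h : ℝ → ℝ) ((f : ℝ → ℝ)^[k] t) * deriv ((f : ℝ → ℝ)^[k]) t := by
      rw [hφe]
      exact deriv_comp t ((hhc.differentiable (by norm_num)) _)
        (((hcd k).differentiable (by norm_num)) t)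
    have h2 := hst t ht
    have h3 := hM ((f : ℝ → ℝ)^[k] t) ⟨by linarith [h2.1], by linarith [h2.2]⟩
    rw [Real.norm_eq_abs, abs_of_pos (hhp _)] at h3
    have h4 := hK1 k (le_max_left _ _) t ht
    have h5 := hpos k t
    rw [h1]
    calc deriv (h : ℝ → ℝ) ((f : ℝ → ℝ)^[k] t) * deriv ((f : ℝ → ℝ)^[k]) t
        ≤ M * (1 / (2 * (M + 1))) :=
          mul_le_mul h3 (h4.le.trans hεc) h5.le hM0
      _ < 1 := by
          rw [mul_one_div, div_lt_one (by positivity)]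
          linarith
  -- the fixed point
  have hivt := intermediate_value_Icc' (show z + δ / 2 ≤ z + δ by linarith)
    (f := fun t : ℝ => φ t - t) (φ.continuous.sub continuous_id).continuousOn
  have h0 : (0 : ℝ) ∈ Icc (φ (z + δ) - (z + δ)) (φ (z + δ / 2) - (z + δ / 2)) := by
    have h1 := hφr (z + δ) ⟨by linarith, le_rfl⟩
    have h2 := hφr (z + δ / 2) ⟨le_rfl, by linarith⟩
    exact ⟨by linarith [h1.2], by linarith [h2.1]⟩
  obtain ⟨p, hp, hp0⟩ := hivt h0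
  exact ⟨φ, hφm, p, by simp only at hp0; linarith, (hφd p hp).ne⟩

end Pool.Agent.H50.GSD
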