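import Mathlib
import Pool.Agent.H50.GSD.D2
import Pool.Agent.H50.GSD.D3

/-!
# GD-12: the action is not equicontinuous, so every interval can be expanded to a definite size

PROOF.  `Γ = Lf G`.  Suppose not: for every `c > 0` there are `x < y` with `g y - g x < c` for all
`g ∈ Γ`.
(1) Equicontinuity: for every `c > 0` there is `δ > 0` such that `g t - g s < c` for all `g ∈ Γ` and
all `s ≤ t` with `t - s < δ`.  Indeed let `x < y` be as above for `c`.  By `Lf_dense` for every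
`s ∈ ℝ` there is `h ∈ Γ` with `x < h s < y`: the open intervals `Ioo (h⁻¹ x) (h⁻¹ y)`, `h ∈ Γ`, cover
the compact set `[0, 2 pi + 1]`; by the Lebesgue number lemma (`lebesgue_number_lemma_of_metric`)
there is `δ ∈ (0, 1)` such that every ball of radius `δ` around a point of `[0, 2 pi + 1]` is
contained in one of them.  If `0 ≤ s ≤ 2 pi`, `s ≤ t < s + δ` then `s, t ∈ Ioo (h⁻¹ x) (h⁻¹ y)`, and
for `g ∈ Γ`: `g t - g s ≤ (g h⁻¹) y - (g h⁻¹) x < c`.  General `s`: subtract a multiple of `2 pi`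
(`isL_per`, `per_int`).
(2) Let `f ∈ Γ`, `f ≠ 1`, `f z = z`.  By `an_iso` (or as `f ≠ 1`) there is a point `w` with
`f w ≠ w`; let us find a contradiction to (1).  The set `Fix f` is closed and contains
`z + m 2 pi`, `m ∈ ℤ`; let `p < w < p'` be the endpoints of the component of the complement
containing `w` (`p = sSup {t ∈ Fix f | t ≤ w}`, `p' = sInf {t ∈ Fix f | w ≤ t}`; both are fixed
points).  Replacing `f` by `f⁻¹` we may assume `w < f w`, so `t < f t` for `t ∈ (p, p')`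
(intermediate value theorem).  Let `c = (p' - p)/2` and `δ` as in (1), `y0 = p + min δ (p' - p) / 2`.
The sequence `(f ^ n) y0` is increasing, bounded by `p'`, and converges to a fixed point in
`(p, p']`, i.e. to `p'`.  But `(f ^ n) p = p` and `y0 - p < δ`, so `(f ^ n) y0 - p < c` for all `n`,
hence `p' - p ≤ c`, a contradiction.
-/

set_option autoImplicit false
open Set Filter Topology MeasureTheory

namespace Pool.Agent.H50.GSD

open Pool.Agent.H52.GS (TT)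
open Pool.Agent.H50.GS

theorem d12_equi {G : Subgroup (Circle ≃ₜ Circle)} (hC : C2Group G) (hm : Minimal G) {c : ℝ}
    {x y : ℝ} (hxy : x < y) (hg : ∀ g ∈ Lf G, g y - g x < c) :
    ∃ δ : ℝ, 0 < δ ∧ ∀ g ∈ Lf G, ∀ s t : ℝ, s ≤ t → t - s < δ → g t - g s < c := by
  have hpi : 0 < 2 * Real.pi := by positivity
  obtain ⟨δ, hδ, hcov⟩ := lebesgue_number_lemma_of_metric (s := Icc (0 : ℝ) (2 * Real.pi))
    (c := fun h : Lf G => Ioo ((h.1⁻¹ : ℝ ≃o ℝ) x) ((h.1⁻¹ : ℝ ≃o ℝ) y)) isCompact_Icc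
    (fun _ => isOpen_Ioo) (by
      intro s _
      obtain ⟨h, hh, h1, h2⟩ := Lf_dense hC hm s hxy
      refine mem_iUnion.mpr ⟨⟨h, hh⟩, ?_, ?_⟩
      · have : (h⁻¹ : ℝ ≃o ℝ) x < (h⁻¹ : ℝ ≃o ℝ) (h s) := (h⁻¹ : ℝ ≃o ℝ).strictMono h1
        rwa [RelIso.inv_apply_self] at this
      · have : (h⁻¹ : ℝ ≃o ℝ) (h s) < (h⁻¹ : ℝ ≃o ℝ) y := (h⁻¹ : ℝ ≃o ℝ).strictMono h2
        rwa [RelIso.inv_apply_self] at this)
  have key : ∀ g ∈ Lf G, ∀ s t : ℝ, 0 ≤ s → s ≤ 2 * Real.pi → s ≤ t → t - s < δ →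
      g t - g s < c := by
    intro g hgG s t h0 h1 hst hts
    obtain ⟨⟨h, hh⟩, hsub⟩ := hcov s ⟨h0, h1⟩
    have hs : s ∈ Ioo ((h⁻¹ : ℝ ≃o ℝ) x) ((h⁻¹ : ℝ ≃o ℝ) y) := hsub (Metric.mem_ball_self hδ)
    have ht : t ∈ Ioo ((h⁻¹ : ℝ ≃o ℝ) x) ((h⁻¹ : ℝ ≃o ℝ) y) := by
      apply hsub
      rw [Metric.mem_ball, Real.dist_eq, abs_of_nonneg (by linarith)]
      exact hts
    have h2 := hg (g * h⁻¹) ((Lf G).mul_mem hgG ((Lf G).inv_mem hh))
    rw [RelIso.mul_apply, RelIso.mul_apply] at h2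
    have h3 := g.strictMono ht.2
    have h4 := g.strictMono hs.1
    linarith
  refine ⟨δ, hδ, fun g hgG s t hst hts => ?_⟩
  obtain ⟨g0, -, hgL⟩ := id hgG
  have hper := isL_per hgL
  set k : ℤ := ⌊s / (2 * Real.pi)⌋ with hk
  have h1 : (k : ℝ) * (2 * Real.pi) ≤ s := by
    rw [← le_div_iff₀ hpi]
    exact Int.floor_le _
  have h2 : s < ((k : ℝ) + 1) * (2 * Real.pi) := by
    rw [← div_lt_iff₀ hpi]
    exact Int.lt_floor_add_one _
  have h3 := key g hgG (s + ((-k : ℤ) : ℝ) * (2 * Real.pi)) (t + ((-k : ℤ) : ℝ) * (2 * Real.pi))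
    (by push_cast; linarith) (by push_cast; linarith) (by linarith) (by linarith)
  rw [per_int hper, per_int hper] at h3
  linarith

theorem d12_main {G : Subgroup (Circle ≃ₜ Circle)} {f : ℝ ≃o ℝ} (hf : f ∈ Lf G) {p p' : ℝ}
    (hpp : p < p') (hp : f p = p) (hp' : f p' = p') (hlt : ∀ t ∈ Ioo p p', t < f t)
    (heq : ∀ c : ℝ, 0 < c → ∃ δ : ℝ, 0 < δ ∧ ∀ g ∈ Lf G, ∀ s t : ℝ, s ≤ t → t - s < δ →
      g t - g s < c) : False := by
  obtain ⟨δ, hδ, hδ2⟩ := heq ((p' - p) / 2) (by linarith)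
  set y0 : ℝ := p + min δ (p' - p) / 2 with hy0
  have hmin : 0 < min δ (p' - p) := lt_min hδ (by linarith)
  have hm1 : min δ (p' - p) ≤ δ := min_le_left _ _
  have hm2 : min δ (p' - p) ≤ p' - p := min_le_right _ _
  have h1 : p < y0 := by linarith
  have h2 : y0 < p' := by linarith
  have h3 : y0 - p < δ := by linarith
  have hsucc : ∀ (n : ℕ) (t : ℝ), (f ^ (n + 1)) t = f ((f ^ n) t) := fun n t => by
    rw [pow_succ', RelIso.mul_apply]
  have hfp : ∀ n : ℕ, (f ^ n) p = p := by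
    intro n
    induction n with
    | zero => rw [pow_zero]; rfl
    | succ n ih => rw [hsucc, ih, hp]
  have hfp' : ∀ n : ℕ, (f ^ n) p' = p' := by
    intro n
    induction n with
    | zero => rw [pow_zero]; rfl
    | succ n ih => rw [hsucc, ih, hp']
  have hlt1 : ∀ n : ℕ, p < (f ^ n) y0 := fun n => by
    have := (f ^ n).strictMono h1
    rwa [hfp] at this
  have hlt2 : ∀ n : ℕ, (f ^ n) y0 < p' := fun n => by
    have := (f ^ n).strictMono h2
    rwa [hfp'] at this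
  have hmono : Monotone (fun n : ℕ => (f ^ n) y0) := by
    refine monotone_nat_of_le_succ fun n => ?_
    rw [hsucc]
    exact (hlt _ ⟨hlt1 n, hlt2 n⟩).le
  have hbdd : BddAbove (range fun n : ℕ => (f ^ n) y0) :=
    ⟨p', by rintro _ ⟨n, rfl⟩; exact (hlt2 n).le⟩
  have ht := tendsto_atTop_ciSup hmono hbdd
  set Lm := ⨆ n : ℕ, (f ^ n) y0 with hL
  have ht1 : Tendsto (fun n : ℕ => (f ^ (n + 1)) y0) atTop (𝓝 Lm) :=
    ht.comp (tendsto_add_atTop_nat 1)
  have ht2 : Tendsto (fun n : ℕ => (f ^ (n + 1)) y0) atTop (𝓝 (f Lm)) := by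
    have h4 := (f.continuous.tendsto Lm).comp ht
    refine h4.congr fun n => ?_
    rw [hsucc]
    rfl
  have h5 : f Lm = Lm := tendsto_nhds_unique ht2 ht1
  have h6 : y0 ≤ Lm := by
    have := le_ciSup hbdd 0
    simpa using this
  have h7 : Lm ≤ p' := ciSup_le fun n => (hlt2 n).le
  have h8 : Lm = p' := by
    by_contra h9
    have h10 := hlt Lm ⟨by linarith, lt_of_le_of_ne h7 h9⟩
    rw [h5] at h10
    exact lt_irrefl _ h10
  have h11 : Lm ≤ p + (p' - p) / 2 := by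
    refine ciSup_le fun n => ?_
    have h12 := hδ2 (f ^ n) ((Lf G).pow_mem hf n) p y0 h1.le h3
    rw [hfp] at h12
    linarith
  linarith

theorem d12_ends {G : Subgroup (Circle ≃ₜ Circle)} {f : ℝ ≃o ℝ} (hf : f ∈ Lf G) {z w : ℝ}
    (hz : f z = z) (hw : f w ≠ w) : ∃ p p' : ℝ, p < w ∧ w < p' ∧ f p = p ∧ f p' = p' ∧
      ∀ t ∈ Ioo p p', f t ≠ t := by
  have hpi : 0 < 2 * Real.pi := by positivity
  obtain ⟨g0, -, hgL⟩ := id hf
  have hper := isL_per hgL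
  have hcl : IsClosed {t : ℝ | f t = t} := isClosed_eq f.continuous continuous_id
  have hfix : ∀ k : ℤ, f (z + k * (2 * Real.pi)) = z + k * (2 * Real.pi) := fun k => by
    rw [per_int hper, hz]
  set A : Set ℝ := {t : ℝ | f t = t} ∩ Iic w with hA
  set B : Set ℝ := {t : ℝ | f t = t} ∩ Ici w with hB
  have hAc : IsClosed A := hcl.inter isClosed_Iic
  have hBc : IsClosed B := hcl.inter isClosed_Ici
  have hAne : A.Nonempty := by
    refine ⟨z + (⌊(w - z) / (2 * Real.pi)⌋ : ℤ) * (2 * Real.pi), hfix _, ?_⟩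
    have : ((⌊(w - z) / (2 * Real.pi)⌋ : ℤ) : ℝ) * (2 * Real.pi) ≤ w - z := by
      rw [← le_div_iff₀ hpi]
      exact Int.floor_le _
    rw [mem_Iic]
    linarith
  have hBne : B.Nonempty := by
    refine ⟨z + (⌈(w - z) / (2 * Real.pi)⌉ : ℤ) * (2 * Real.pi), hfix _, ?_⟩
    have : w - z ≤ ((⌈(w - z) / (2 * Real.pi)⌉ : ℤ) : ℝ) * (2 * Real.pi) := by
      rw [← div_le_iff₀ hpi]
      exact Int.le_ceil _
    rw [mem_Ici]
    linarith
  have hAb : BddAbove A := ⟨w, fun t ht => ht.2⟩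
  have hBb : BddBelow B := ⟨w, fun t ht => ht.2⟩
  have hpA := hAc.csSup_mem hAne hAb
  have hpB := hBc.csInf_mem hBne hBb
  have hne : ∀ t, f t = t → t ≠ w := fun t ht h => hw (h ▸ ht)
  refine ⟨sSup A, sInf B, lt_of_le_of_ne hpA.2 (hne _ hpA.1),
    lt_of_le_of_ne hpB.2 (Ne.symm (hne _ hpB.1)), hpA.1, hpB.1, ?_⟩
  intro t ht h
  rcases le_total t w with h1 | h1
  · exact absurd (le_csSup hAb ⟨h, h1⟩) (not_le.mpr ht.1)
  · exact absurd (csInf_le hBb ⟨h, h1⟩) (not_le.mpr ht.2)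

theorem d12_sign {f : ℝ ≃o ℝ} {p p' w : ℝ} (h1 : p < w) (h2 : w < p')
    (hne : ∀ t ∈ Ioo p p', f t ≠ t) (hw : w < f w) : ∀ t ∈ Ioo p p', t < f t := by
  intro t ht
  by_contra hlt
  obtain ⟨s, hs, hs'⟩ := isPreconnected_Ioo.intermediate_value₂ (a := t) (b := w) ht ⟨h1, h2⟩
    f.continuous.continuousOn continuousOn_id (not_lt.mp hlt) hw.le
  exact hne s hs hs'

theorem Lf_expd {G : Subgroup (Circle ≃ₜ Circle)} (hC : C2Group G) (hm : Minimal G)
    (hfix : ∃ f ∈ Lf G, f ≠ 1 ∧ ∃ z : ℝ, f z = z) :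
    ∃ c0 : ℝ, 0 < c0 ∧ ∀ x y : ℝ, x < y → ∃ g ∈ Lf G, c0 ≤ g y - g x := by
  by_contra hcon
  push Not at hcon
  have heq : ∀ c : ℝ, 0 < c → ∃ δ : ℝ, 0 < δ ∧ ∀ g ∈ Lf G, ∀ s t : ℝ, s ≤ t → t - s < δ →
      g t - g s < c := by
    intro c hc
    obtain ⟨x, y, hxy, hg⟩ := hcon c hc
    exact d12_equi hC hm hxy hg
  obtain ⟨f, hf, hf1, z, hz⟩ := hfix
  obtain ⟨w, hw⟩ : ∃ w, f w ≠ w := by
    by_contra h
    push Not at h
    exact hf1 (RelIso.ext h)
  obtain ⟨p, p', h1, h2, h3, h4, h5⟩ := d12_ends hf hz hw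
  have hinv : ∀ t, (f⁻¹ : ℝ ≃o ℝ) t = t ↔ f t = t := by
    intro t
    constructor
    · intro h
      have := congrArg f h
      rw [RelIso.apply_inv_self] at this
      exact this.symm
    · intro h
      have := congrArg (f⁻¹ : ℝ ≃o ℝ) h
      rw [RelIso.inv_apply_self] at this
      exact this.symm
  rcases lt_or_gt_of_ne hw with h | h
  · have h' : w < (f⁻¹ : ℝ ≃o ℝ) w := by
      have := (f⁻¹ : ℝ ≃o ℝ).strictMono h
      rwa [RelIso.inv_apply_self] at this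
    exact d12_main ((Lf G).inv_mem hf) (h1.trans h2) ((hinv p).mpr h3) ((hinv p').mpr h4)
      (d12_sign h1 h2 (fun t ht h6 => h5 t ht ((hinv t).mp h6)) h') heq
  · exact d12_main hf (h1.trans h2) h3 h4 (d12_sign h1 h2 h5 h) heq

end Pool.Agent.H50.GSD
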