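import Mathlib
import Pool.Agent.H50.GSD.D1
import Pool.Agent.H50.GS.Trans

/-!
# GD-17: an invariant set which is neither null nor conull in any interval
-/

set_option autoImplicit false
open Set Filter Topology MeasureTheory

namespace Pool.Agent.H50.GSD

open Pool.Agent.H52.GS (TT BB)
open Pool.Agent.H50.GS

theorem inv_set {G : Subgroup (Circle ≃ₜ Circle)} (hC : C2Group G) (hm : Minimal G)
    (hne : ¬ LebErgodic G) : ∃ A : Set ℝ, MeasurableSet A ∧ (∀ f ∈ Lf G, ∀ x, f x ∈ A ↔ x ∈ A) ∧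
      ∀ x y : ℝ, x < y → volume (A ∩ Ioo x y) ≠ 0 ∧ volume (Ioo x y \ A) ≠ 0 := by
  unfold LebErgodic at hne
  push Not at hne
  obtain ⟨A, hA, hinv, h1, h2⟩ := hne
  have hinvc : ∀ g ∈ G, ⇑g ⁻¹' Aᶜ = Aᶜ := fun g hg => by rw [preimage_compl, hinv g hg]
  refine ⟨⇑Circle.exp ⁻¹' A, hA, ?_, fun x y hxy => ⟨fun h => ?_, fun h => ?_⟩⟩
  · rintro f ⟨g, hg, hgf⟩ x
    show Circle.exp (f x) ∈ A ↔ Circle.exp x ∈ A
    rw [hgf x]
    have := hinv g hg
    constructor
    · intro h
      rw [← this]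
      exact h
    · intro h
      rw [← this] at h
      exact h
  · rw [inter_comm] at h
    exact h1 (null_of_null_on hC hm hinv hxy h)
  · apply h2
    apply null_of_null_on hC hm hinvc hxy
    rw [preimage_compl, ← diff_eq]
    exact h

end Pool.Agent.H50.GSD
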