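import Mathlib
import Pool.Agent.H50.GSD.D2
import Pool.Agent.H50.GSD.D3
import Pool.Agent.H50.GSD.D4

/-!
# GD-10: some nontrivial lift has a fixed point

PROOF.  `Γ = Lf G`.  Suppose that no `f ∈ Γ`, `f ≠ 1`, has a fixed point.
(1) Every `f ∈ Γ` satisfies `f ^ Q = TT ^ k` for some integer `k` (`Q` from `Lf_tor`): by `hrat`
`(f ^ q) z = z + k 2 pi`, so `TT ^ (-k) * f ^ q ∈ Γ` fixes `z`, hence is `1`, `f ^ q = TT ^ k`, and
`Lf_tor` applies.
(2) Trichotomy: for `f ∈ Γ` either `f = 1`, or `y < f y` for all `y`, or `f y < y` for all `y`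
(if `f ≠ 1` there is no fixed point; `f - id` is continuous, intermediate value theorem).
(3) If `f ∈ Γ` and `y < f y` for all `y`, then `y + 2 pi ≤ (f ^ Q) y`: by (1) `f ^ Q = TT ^ k` and
`y < (f ^ Q) y` (`Q > 0`) gives `k ≥ 1`.
(4) For every `f ∈ Γ` with `y < f y` for all `y` there is `h ∈ Γ` with `y < h y` and
`h (h y) ≤ f y` for all `y`.  Indeed by `Lf_dense` there is `g ∈ Γ` with `0 < g 0 < f 0`, so by (2)
`y < g y` for all `y`, and `g y < f y` for all `y` (apply (2) to `g⁻¹ * f`, `(g⁻¹ f) 0 > 0`).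
Apply (2) to `f⁻¹ * (g * g)`: either `g (g y) ≤ f y` for all `y`: take `h = g`.  Or `f y < g (g y)` for
all `y`: take `h = g⁻¹ * f`; `y < h y` as `g y < f y`, `h y < g y` for all `y` (apply `g⁻¹` to
`f y < g (g y)`), so `h (h y) < g (h y) = f y`.
(5) Start with `f0 ∈ Γ`, `0 < f0 0 < 2 pi` (`Lf_dense`); by (2) `y < f0 y` for all `y`.  By induction
on `n` (4) gives `h ∈ Γ`, `y < h y`, `(h ^ (2 ^ n)) y ≤ f0 y` for all `y`
(`(h ^ 2) y ≤ f y` for all `y` implies `(h ^ (2 m)) y ≤ (f ^ m) y`).  Take `n` with `Q ≤ 2 ^ n`: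
`(h ^ Q) 0 ≤ (h ^ (2 ^ n)) 0 ≤ f0 0 < 2 pi`, in contradiction to (3).
-/

set_option autoImplicit false
open Set Filter Topology MeasureTheory

namespace Pool.Agent.H50.GSD

open Pool.Agent.H52.GS (TT)
open Pool.Agent.H50.GS

private theorem d10_tri {f : ℝ ≃o ℝ} (h : ∀ z, f z ≠ z) :
    (∀ y, y < f y) ∨ (∀ y, f y < y) := by
  by_contra hc
  push Not at hc
  obtain ⟨⟨a, ha⟩, ⟨b, hb⟩⟩ := hc
  have hcont : Continuous fun t : ℝ => f t - t := f.continuous.sub continuous_id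
  have := mem_range_of_exists_le_of_exists_ge (c := (0 : ℝ)) hcont
    ⟨a, by linarith⟩ ⟨b, by linarith⟩
  obtain ⟨t, ht⟩ := this
  exact h t (by simp only at ht; linarith)

private theorem d10_pow_lt {f : ℝ ≃o ℝ} (h : ∀ y, y < f y) (n : ℕ) (y : ℝ) :
    y ≤ (f ^ n) y ∧ (0 < n → y < (f ^ n) y) := by
  induction n with
  | zero => simp
  | succ n ih =>
    rw [pow_succ', RelIso.mul_apply]
    exact ⟨(ih.1.trans (h _).le), fun _ => lt_of_le_of_lt ih.1 (h _)⟩

private theorem d10_pow_mono {f : ℝ ≃o ℝ} (h : ∀ y, y < f y) {n m : ℕ} (hnm : n ≤ m) (y : ℝ) :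
    (f ^ n) y ≤ (f ^ m) y := by
  obtain ⟨k, rfl⟩ := Nat.exists_eq_add_of_le' hnm
  rw [pow_add, RelIso.mul_apply]
  exact (d10_pow_lt h k _).1

private theorem d10_pow_le {f g : ℝ ≃o ℝ} (h : ∀ y, f y ≤ g y) (n : ℕ) (y : ℝ) :
    (f ^ n) y ≤ (g ^ n) y := by
  induction n with
  | zero => simp
  | succ n ih =>
    rw [pow_succ', pow_succ', RelIso.mul_apply, RelIso.mul_apply]
    exact (f.monotone ih).trans (h _)

theorem exists_fix {G : Subgroup (Circle ≃ₜ Circle)} (hC : C2Group G) (hm : Minimal G)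
    (htor : BddTorsion G)
    (hrat : ∀ f ∈ Lf G, ∃ q : ℕ, 0 < q ∧ ∃ k : ℤ, ∃ z : ℝ, (f ^ q) z = z + k * (2 * Real.pi)) :
    ∃ f ∈ Lf G, f ≠ 1 ∧ ∃ z : ℝ, f z = z := by
  by_contra hno
  push Not at hno
  obtain ⟨Q, hQ, hQt⟩ := Lf_tor htor
  have hpi : 0 < 2 * Real.pi := by positivity
  -- (1)
  have h1 : ∀ f ∈ Lf G, ∃ k : ℤ, f ^ Q = TT ^ k := by
    intro f hf
    apply hQt f hf
    obtain ⟨q, hq, k, z, hz⟩ := hrat f hf
    refine ⟨q, hq, k, ?_⟩
    have hmem : TT ^ (-k) * f ^ q ∈ Lf G := (Lf G).mul_mem (TT_zpow_mem _) ((Lf G).pow_mem hf q)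
    have hfix : (TT ^ (-k) * f ^ q) z = z := by
      rw [RelIso.mul_apply, tt_zpow, hz]
      push_cast
      ring
    have hone : TT ^ (-k) * f ^ q = 1 := by
      by_contra hne
      exact hno _ hmem hne z hfix
    rw [zpow_neg] at hone
    exact (inv_mul_eq_one.1 hone).symm
  -- (2)
  have h2 : ∀ f ∈ Lf G, f = 1 ∨ (∀ y, y < f y) ∨ (∀ y, f y < y) := by
    intro f hf
    by_cases hf1 : f = 1
    · exact Or.inl hf1
    · exact Or.inr (d10_tri fun z => hno f hf hf1 z)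
  have h2' : ∀ f ∈ Lf G, ∀ x, x < f x → ∀ y, y < f y := by
    intro f hf x hx
    rcases h2 f hf with h | h | h
    · rw [h] at hx
      exact absurd hx (lt_irrefl x)
    · exact h
    · exact absurd hx (h x).not_gt
  -- (3)
  have h3 : ∀ f ∈ Lf G, (∀ y, y < f y) → ∀ y, y + 2 * Real.pi ≤ (f ^ Q) y := by
    intro f hf hup y
    obtain ⟨k, hk⟩ := h1 f hf
    have hy := (d10_pow_lt hup Q y).2 hQ
    rw [hk, tt_zpow] at hy ⊢
    have hk0 : (0 : ℝ) < (k : ℝ) := by
      by_contra hk0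
      push Not at hk0
      nlinarith
    have hk1 : (1 : ℝ) ≤ (k : ℝ) := by
      have : (0 : ℤ) < k := by exact_mod_cast hk0
      exact_mod_cast this
    nlinarith
  -- (4)
  have h4 : ∀ f ∈ Lf G, (∀ y, y < f y) → ∃ h ∈ Lf G, (∀ y, y < h y) ∧ ∀ y, h (h y) ≤ f y := by
    intro f hf hup
    obtain ⟨g, hg, hg0, hgf⟩ := Lf_dense hC hm 0 (hup 0)
    have hgup := h2' g hg 0 hg0
    have hlt : ∀ y, g y < f y := by
      have hmem : g⁻¹ * f ∈ Lf G := (Lf G).mul_mem ((Lf G).inv_mem hg) hf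
      have h0 : (0 : ℝ) < (g⁻¹ * f) 0 := by
        rw [RelIso.mul_apply]
        have := (g⁻¹ : ℝ ≃o ℝ).strictMono hgf
        rwa [RelIso.inv_apply_self] at this
      intro y
      have hy := h2' _ hmem 0 h0 y
      rw [RelIso.mul_apply] at hy
      have := g.strictMono hy
      rwa [RelIso.apply_inv_self] at this
    have hmem : f⁻¹ * (g * g) ∈ Lf G :=
      (Lf G).mul_mem ((Lf G).inv_mem hf) ((Lf G).mul_mem hg hg)
    have hcase : (∀ y, g (g y) ≤ f y) ∨ (∀ y, f y < g (g y)) := by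
      rcases h2 _ hmem with h | h | h
      · left
        intro y
        have : f⁻¹ * (g * g) = 1 := h
        have h5 : g * g = f := by rw [inv_mul_eq_one] at this; exact this.symm
        have h6 : g (g y) = (g * g) y := rfl
        rw [h6, h5]
      · right
        intro y
        have hy := f.strictMono (h y)
        rw [RelIso.mul_apply, RelIso.apply_inv_self, RelIso.mul_apply] at hy
        exact hy
      · left
        intro y
        have hy := f.strictMono (h y)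
        rw [RelIso.mul_apply, RelIso.apply_inv_self, RelIso.mul_apply] at hy
        exact hy.le
    rcases hcase with h | h
    · exact ⟨g, hg, hgup, h⟩
    · refine ⟨g⁻¹ * f, (Lf G).mul_mem ((Lf G).inv_mem hg) hf, ?_, ?_⟩
      · intro y
        rw [RelIso.mul_apply]
        have := (g⁻¹ : ℝ ≃o ℝ).strictMono (hlt y)
        rwa [RelIso.inv_apply_self] at this
      · intro y
        have hh : ∀ y, (g⁻¹ * f) y < g y := by
          intro y
          rw [RelIso.mul_apply]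
          have := (g⁻¹ : ℝ ≃o ℝ).strictMono (h y)
          rwa [RelIso.inv_apply_self] at this
        have h5 := hh ((g⁻¹ * f) y)
        have h6 : g ((g⁻¹ * f) y) = f y := by
          rw [RelIso.mul_apply, RelIso.apply_inv_self]
        rw [h6] at h5
        exact h5.le
  -- (5)
  obtain ⟨f0, hf0, hf00, hf01⟩ := Lf_dense hC hm 0 hpi
  have hup0 := h2' f0 hf0 0 hf00
  have h5 : ∀ n : ℕ, ∃ h ∈ Lf G, (∀ y, y < h y) ∧ ∀ y, (h ^ (2 ^ n)) y ≤ f0 y := by
    intro n
    induction n with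
    | zero => exact ⟨f0, hf0, hup0, fun y => by simp⟩
    | succ n ih =>
      obtain ⟨h, hh, hhup, hhle⟩ := ih
      obtain ⟨k, hk, hkup, hkle⟩ := h4 h hh hhup
      refine ⟨k, hk, hkup, fun y => ?_⟩
      have e : k ^ (2 ^ (n + 1)) = (k * k) ^ (2 ^ n) := by
        rw [← pow_two, ← pow_mul]
        congr 1
        ring
      rw [e]
      exact (d10_pow_le (f := k * k) (g := h) hkle _ y).trans (hhle y)
  obtain ⟨h, hh, hhup, hhle⟩ := h5 Q
  have h6 := h3 h hh hhup 0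
  have h7 := d10_pow_mono hhup (Nat.lt_two_pow_self (n := Q)).le 0
  have h8 := hhle 0
  linarith

end Pool.Agent.H50.GSD
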