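import Mathlib
import Pool.Agent.H50.GSD.D2
import Pool.Agent.H50.GSD.D3
import Pool.Agent.H50.GS.GlobB

/-!
# GD-13: almost every point is thin (conical points are null)

`Uni w x r` (`H52/GS/Def.lean`): `w` extends to a univalent function on `D(x,r)`.  The hypothesis
`koe` is Koebe's distortion theorem.

PROOF.  As `G` is not ergodic there is an invariant `A ⊆ Circle` with measurable preimage
`A' = exp⁻¹ A`, such that neither `A'` nor `B' = exp⁻¹ (Aᶜ) = A'ᶜ` is null.  It suffices to show the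
claim for almost every `x ∈ A'` and (symmetrically, `Aᶜ` is invariant too) for almost every
`x ∈ B'`: lemma `thin_half`.

PROOF of `thin_half`.  Let `x ∈ A'` be such that
`volume (A'ᶜ ∩ closedBall x r) / volume (closedBall x r) → 0` as `r → 0+` (almost every `x ∈ A'`,
`Besicovitch.ae_tendsto_measure_inter_div_of_measurableSet` for `A'ᶜ`).  Suppose the claim fails at `x`:
there is `ε > 0` such that for all `n` there are `0 < r < 1/(n+1)` and `w ∈ Γ = Lf G` with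
`Uni w x r`, `ε < w'(x) r`.  Decreasing `r` (`Uni` is monotone in `r`) to `r' = ε / w'(x) ≤ r` we have
`w'(x) r' = ε` (`w'(x) > 0`, `isL_an`).  Multiplying `w` by a power of `TT` we have
`w x ∈ [0, 2 pi)` (`TT ^ k * w ∈ Γ`; it is again univalent with the same derivative: the extension
is `F + k 2 pi`).  So there are `w n ∈ Γ`, `r n → 0+`, with `Uni (w n) x (r n)`,
`(w n)'(x) r n = ε`, `w n x ∈ [0, 2 pi)`; passing to a subsequence (`tendsto_subseq_of_bounded`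
or `IsCompact.tendsto_subseq` for `Icc 0 (2 pi)`) `w n x → y∞`.  Let `C ≥ 1` be Koebe's constant.  For
`|y - x| ≤ r n / 2`: `ε/(C r n) ≤ (w n)'(y) ≤ C ε/(r n)`.  So (mean value theorem) the image of
`I n = [x - r n/2, x + r n/2]` contains `[w n x - ε/(2C), w n x + ε/(2C)]` (intermediate values), which
contains `J = [y∞ - ε/(4C), y∞ + ε/(4C)]` for large `n`.  By invariance
`A'ᶜ ∩ J ⊆ (w n) '' (A'ᶜ ∩ I n)`, so
`volume (A'ᶜ ∩ J) ≤ (C ε/(r n)) * volume (A'ᶜ ∩ closedBall x (r n / 2)) → 0` (volume of the image: as in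
`K7.lean`, `MeasureTheory.lintegral_image_eq_lintegral_abs_deriv_mul`, or a Lipschitz estimate).
So `volume (A'ᶜ ∩ J) = 0`, and `Pool.Agent.H50.GS.null_of_null_on` (in `GS/Trans.lean`, for the
invariant set `Aᶜ`) gives `volume (exp⁻¹ Aᶜ) = 0`, a contradiction.
-/

set_option autoImplicit false
open Set Filter Topology MeasureTheory

namespace Pool.Agent.H50.GSD

open Pool.Agent.H52.GS (TT Uni Ext)
open Pool.Agent.H50.GS

theorem d13_uni_mono {w : ℝ → ℝ} {x r r' : ℝ} (h : Uni w x r) (hr : r' ≤ r) : Uni w x r' := by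
  obtain ⟨F, ⟨hF, hE⟩, hI⟩ := h
  exact ⟨F, ⟨hF.mono (Metric.ball_subset_ball hr), fun y hy => hE y (lt_of_lt_of_le hy hr)⟩,
    hI.mono (Metric.ball_subset_ball hr)⟩

theorem d13_exp_per (k : ℤ) (t : ℝ) :
    Circle.exp (t + k * (2 * Real.pi)) = Circle.exp t := Circle.exp_eq_exp.2 ⟨k, rfl⟩

/-- an invariant set which is not null has a definite measure in all intervals of a given length -/
theorem d13_lower {G : Subgroup (Circle ≃ₜ Circle)} (hC : C2Group G) (hm : Minimal G)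
    {B : Set Circle} (hinv : ∀ g ∈ G, ⇑g ⁻¹' B = B)
    (hnull : volume (⇑Circle.exp ⁻¹' B) ≠ 0) {ρ : ℝ} (hρ : 0 < ρ) :
    ∃ m : ENNReal, 0 < m ∧ ∀ y : ℝ,
      m ≤ volume (⇑Circle.exp ⁻¹' B ∩ Icc (y - ρ) (y + ρ)) := by
  have hp : 0 < 2 * Real.pi := Real.two_pi_pos
  obtain ⟨N, hN⟩ := exists_nat_ge (2 * Real.pi / ρ)
  have hk : ∀ k : ℕ, 0 < volume (⇑Circle.exp ⁻¹' B ∩ Ioo ((k : ℝ) * ρ) (((k : ℝ) + 1) * ρ)) := by
    intro k
    rw [pos_iff_ne_zero]
    intro h0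
    rw [inter_comm] at h0
    exact hnull (null_of_null_on hC hm hinv (by nlinarith) h0)
  obtain ⟨k0, -, hk0⟩ := Finset.exists_min_image (Finset.range (N + 1))
    (fun k : ℕ => volume (⇑Circle.exp ⁻¹' B ∩ Ioo ((k : ℝ) * ρ) (((k : ℝ) + 1) * ρ)))
    ⟨0, Finset.mem_range.2 (Nat.succ_pos N)⟩
  refine ⟨_, hk k0, fun y => ?_⟩
  obtain ⟨c, hc⟩ : ∃ c : ℤ, c = ⌊y / (2 * Real.pi)⌋ := ⟨_, rfl⟩
  obtain ⟨y', hy'⟩ : ∃ y' : ℝ, y' = y - c * (2 * Real.pi) := ⟨_, rfl⟩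
  have h1 : (c : ℝ) * (2 * Real.pi) ≤ y := by
    rw [hc, ← le_div_iff₀ hp]
    exact Int.floor_le _
  have h2 : y < ((c : ℝ) + 1) * (2 * Real.pi) := by
    rw [hc, ← div_lt_iff₀ hp]
    exact Int.lt_floor_add_one _
  have h3 : 0 ≤ y' := by linarith
  have h4 : y' < 2 * Real.pi := by linarith
  obtain ⟨k, hkdef⟩ : ∃ k : ℕ, k = ⌊y' / ρ⌋₊ := ⟨_, rfl⟩
  have h5 : (k : ℝ) * ρ ≤ y' := by
    rw [hkdef, ← le_div_iff₀ hρ]
    exact Nat.floor_le (div_nonneg h3 hρ.le)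
  have h6 : y' < ((k : ℝ) + 1) * ρ := by
    rw [hkdef, ← div_lt_iff₀ hρ]
    exact Nat.lt_floor_add_one _
  have h7 : k ∈ Finset.range (N + 1) := by
    rw [Finset.mem_range, Nat.lt_succ_iff]
    have h8 : (k : ℝ) ≤ N := by
      have h9 : (k : ℝ) ≤ y' / ρ := by rwa [le_div_iff₀ hρ]
      have h10 : y' / ρ ≤ 2 * Real.pi / ρ := by gcongr
      linarith
    exact_mod_cast h8
  refine (hk0 k h7).trans ?_
  have h11 : ⇑Circle.exp ⁻¹' B ∩ Ioo ((k : ℝ) * ρ) (((k : ℝ) + 1) * ρ) ⊆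
      (fun t : ℝ => t + c * (2 * Real.pi)) ⁻¹'
        (⇑Circle.exp ⁻¹' B ∩ Icc (y - ρ) (y + ρ)) := by
    rintro t ⟨ht, ht1, ht2⟩
    refine ⟨?_, ?_, ?_⟩
    · change Circle.exp (t + c * (2 * Real.pi)) ∈ B
      rw [d13_exp_per]
      exact ht
    · change y - ρ ≤ t + c * (2 * Real.pi)
      nlinarith
    · change t + c * (2 * Real.pi) ≤ y + ρ
      nlinarith
  refine (measure_mono h11).trans ?_
  rw [measure_preimage_add_right]

/-- the distortion estimate: the image of an interval around `x` -/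
theorem d13_image {w : ℝ ≃o ℝ} (hd : ∀ t, DifferentiableAt ℝ (w : ℝ → ℝ) t)
    (hpos : ∀ t, 0 < deriv (w : ℝ → ℝ) t) {E : Set ℝ} (hE : MeasurableSet E)
    (hinv : ∀ t, w t ∈ E ↔ t ∈ E) {C x s D : ℝ} (hC : 1 ≤ C) (hs : 0 < s)
    (hD : D = deriv (w : ℝ → ℝ) x)
    (hk : ∀ y : ℝ, |y - x| ≤ s → D / C ≤ deriv (w : ℝ → ℝ) y ∧ deriv (w : ℝ → ℝ) y ≤ C * D) :
    volume (E ∩ Icc (w x - D / C * s) (w x + D / C * s)) ≤
      ENNReal.ofReal (C * D) * volume (E ∩ Metric.closedBall x s) := by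
  have hC0 : 0 < C := by linarith
  have hD0 : 0 < D := hD ▸ hpos x
  have hright : w x + D / C * s ≤ w (x + s) := by
    obtain ⟨ξ, hξ, hξ'⟩ := exists_deriv_eq_slope (w : ℝ → ℝ) (show x < x + s by linarith)
      w.continuous.continuousOn (fun y _ => (hd y).differentiableWithinAt)
    have h1 := (hk ξ (by rw [abs_le]; constructor <;> linarith [hξ.1, hξ.2])).1
    rw [hξ', le_div_iff₀ (by linarith)] at h1
    have h2 : x + s - x = s := by ring
    rw [h2] at h1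
    linarith
  have hleft : w (x - s) ≤ w x - D / C * s := by
    obtain ⟨ξ, hξ, hξ'⟩ := exists_deriv_eq_slope (w : ℝ → ℝ) (show x - s < x by linarith)
      w.continuous.continuousOn (fun y _ => (hd y).differentiableWithinAt)
    have h1 := (hk ξ (by rw [abs_le]; constructor <;> linarith [hξ.1, hξ.2])).1
    rw [hξ', le_div_iff₀ (by linarith)] at h1
    have h2 : x - (x - s) = s := by ring
    rw [h2] at h1
    linarith
  have hsub : E ∩ Icc (w x - D / C * s) (w x + D / C * s) ⊆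
      (w : ℝ → ℝ) '' (E ∩ Metric.closedBall x s) := by
    rintro z ⟨hz, hz1, hz2⟩
    obtain ⟨t, rfl⟩ := w.surjective z
    refine ⟨t, ⟨(hinv t).1 hz, ?_⟩, rfl⟩
    have h3 : x - s ≤ t := w.le_iff_le.1 (hleft.trans hz1)
    have h4 : t ≤ x + s := w.le_iff_le.1 (hz2.trans hright)
    rw [Metric.mem_closedBall, Real.dist_eq, abs_le]
    constructor <;> linarith
  refine (measure_mono hsub).trans ?_
  have hE' : MeasurableSet (E ∩ Metric.closedBall x s) :=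
    hE.inter Metric.isClosed_closedBall.measurableSet
  have h1 := lintegral_image_eq_lintegral_abs_deriv_mul hE'
    (fun t _ => (hd t).hasDerivAt.hasDerivWithinAt) (w.injective.injOn) (fun _ => 1)
  rw [setLIntegral_one] at h1
  rw [h1, ← setLIntegral_const]
  refine setLIntegral_mono' hE' fun t ht => ?_
  rw [mul_one]
  refine ENNReal.ofReal_le_ofReal ?_
  rw [abs_of_pos (hpos t)]
  have h2 := ht.2
  rw [Metric.mem_closedBall, Real.dist_eq] at h2
  exact (hk t h2).2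

theorem thin_half {G : Subgroup (Circle ≃ₜ Circle)} (hG : AnGroup G) (hm : Minimal G)
    (koe : ∃ C : ℝ, 1 ≤ C ∧ ∀ w ∈ Lf G, ∀ x r : ℝ, 0 < r → Uni w x r → ∀ y : ℝ,
      |y - x| ≤ r / 2 → deriv (w : ℝ → ℝ) x / C ≤ deriv (w : ℝ → ℝ) y ∧
        deriv (w : ℝ → ℝ) y ≤ C * deriv (w : ℝ → ℝ) x)
    {A : Set Circle} (hA : MeasurableSet (⇑Circle.exp ⁻¹' A)) (hinv : ∀ g ∈ G, ⇑g ⁻¹' A = A)
    (hnull : volume (⇑Circle.exp ⁻¹' Aᶜ) ≠ 0) :
    ∀ᵐ x : ℝ, x ∈ ⇑Circle.exp ⁻¹' A → ∀ ε > 0, ∃ r0 > 0, ∀ r : ℝ, 0 < r → r ≤ r0 →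
      ∀ w ∈ Lf G, Uni w x r → deriv (w : ℝ → ℝ) x * r ≤ ε := by
  obtain ⟨C, hC1, hC⟩ := koe
  have hC0 : 0 < C := by linarith
  have hC2 : C2Group G := an_c2 hG
  obtain ⟨E, hEdef⟩ : ∃ E : Set ℝ, E = ⇑Circle.exp ⁻¹' Aᶜ := ⟨_, rfl⟩
  have hE : MeasurableSet E := by
    rw [hEdef, preimage_compl]
    exact hA.compl
  have hinv' : ∀ g ∈ G, ⇑g ⁻¹' Aᶜ = Aᶜ := fun g hg => by rw [preimage_compl, hinv g hg]
  filter_upwards [Besicovitch.ae_tendsto_measure_inter_div_of_measurableSet volume hE] with x hx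
  intro hxA ε hε
  have hxE : x ∉ E := by
    rw [hEdef, preimage_compl]
    exact fun h => h hxA
  rw [indicator_of_notMem hxE] at hx
  obtain ⟨ρ, hρdef⟩ : ∃ ρ : ℝ, ρ = ε / (2 * C) := ⟨_, rfl⟩
  have hρ : 0 < ρ := by rw [hρdef]; positivity
  obtain ⟨m, hm0, hmle⟩ := d13_lower hC2 hm hinv' hnull hρ
  rw [← hEdef] at hmle
  -- small density
  have hK : 0 < ENNReal.ofReal (C * ε) := ENNReal.ofReal_pos.2 (by positivity)
  have hKt : ENNReal.ofReal (C * ε) ≠ ⊤ := ENNReal.ofReal_ne_top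
  have hq : 0 < m / ENNReal.ofReal (C * ε) := ENNReal.div_pos hm0.ne' hKt
  have hev := hx.eventually (gt_mem_nhds hq)
  rw [eventually_nhdsWithin_iff, Metric.eventually_nhds_iff] at hev
  obtain ⟨δ, hδ, hev⟩ := hev
  refine ⟨δ, hδ, fun r hr hrδ w hw hU => ?_⟩
  by_contra hcon
  push Not at hcon
  obtain ⟨g, hg, hgw⟩ := id hw
  obtain ⟨han, hpos⟩ := isL_an hG hg hgw
  obtain ⟨D, hD⟩ : ∃ D : ℝ, D = deriv (w : ℝ → ℝ) x := ⟨_, rfl⟩
  have hD0 : 0 < D := hD ▸ hpos x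
  rw [← hD] at hcon
  obtain ⟨s, hs⟩ : ∃ s : ℝ, s = ε / D / 2 := ⟨_, rfl⟩
  have hs0 : 0 < s := by rw [hs]; positivity
  have hsD : D * (2 * s) = ε := by rw [hs]; field_simp
  have hsr : 2 * s < r := by
    by_contra h
    push Not at h
    have := mul_le_mul_of_nonneg_left h hD0.le
    linarith
  have hkk := hC w hw x (2 * s) (by linarith) (d13_uni_mono hU hsr.le)
  have hinvE : ∀ t, w t ∈ E ↔ t ∈ E := by
    intro t
    rw [hEdef, mem_preimage, mem_preimage, hgw t]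
    have h1 := hinv' g hg
    constructor
    · intro h
      rw [← h1]
      exact h
    · intro h
      rw [← h1] at h
      exact h
  have himg := d13_image (fun t => (han t (mem_univ t)).differentiableAt) hpos hE hinvE hC1 hs0 hD
    (fun y hy => by
      rw [hD]
      exact hkk y (by linarith))
  have h1 : D / C * s = ρ := by
    rw [hρdef, ← hsD]
    field_simp
  rw [h1] at himg
  have h2 := (hmle (w x)).trans himg
  have h3 := hev (y := s) (by rw [Real.dist_eq, sub_zero, abs_of_pos hs0]; linarith) hs0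
  have hvol : volume (Metric.closedBall x s) = ENNReal.ofReal (2 * s) := Real.volume_closedBall x s
  rw [hvol] at h3
  have hs2 : ENNReal.ofReal (2 * s) ≠ 0 := (ENNReal.ofReal_pos.2 (by linarith)).ne'
  have hs3 : ENNReal.ofReal (2 * s) ≠ ⊤ := ENNReal.ofReal_ne_top
  have h4 : volume (E ∩ Metric.closedBall x s) <
      m / ENNReal.ofReal (C * ε) * ENNReal.ofReal (2 * s) := by
    rwa [ENNReal.div_lt_iff (Or.inl hs2) (Or.inl hs3)] at h3
  have hCD0 : ENNReal.ofReal (C * D) ≠ 0 := (ENNReal.ofReal_pos.2 (by positivity)).ne'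
  have hCDt : ENNReal.ofReal (C * D) ≠ ⊤ := ENNReal.ofReal_ne_top
  have h5 : ENNReal.ofReal (C * D) * volume (E ∩ Metric.closedBall x s) <
      ENNReal.ofReal (C * D) * (m / ENNReal.ofReal (C * ε) * ENNReal.ofReal (2 * s)) :=
    (ENNReal.mul_lt_mul_iff_right hCD0 hCDt).2 h4
  have h6 : ENNReal.ofReal (C * D) * (m / ENNReal.ofReal (C * ε) * ENNReal.ofReal (2 * s)) = m := by
    have h7 : ENNReal.ofReal (C * D) * ENNReal.ofReal (2 * s) = ENNReal.ofReal (C * ε) := by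
      rw [← ENNReal.ofReal_mul (by positivity), ← hsD]
      congr 1
      ring
    calc ENNReal.ofReal (C * D) * (m / ENNReal.ofReal (C * ε) * ENNReal.ofReal (2 * s))
        = (ENNReal.ofReal (C * D) * ENNReal.ofReal (2 * s)) * (m / ENNReal.ofReal (C * ε)) := by
          ring
      _ = m := by
          rw [h7]
          exact ENNReal.mul_div_cancel hK.ne' hKt
  rw [h6] at h5
  exact absurd h2 (not_le.2 h5)

theorem Lf_thin {G : Subgroup (Circle ≃ₜ Circle)} (hG : AnGroup G) (hm : Minimal G)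
    (hne : ¬ LebErgodic G)
    (koe : ∃ C : ℝ, 1 ≤ C ∧ ∀ w ∈ Lf G, ∀ x r : ℝ, 0 < r → Uni w x r → ∀ y : ℝ,
      |y - x| ≤ r / 2 → deriv (w : ℝ → ℝ) x / C ≤ deriv (w : ℝ → ℝ) y ∧
        deriv (w : ℝ → ℝ) y ≤ C * deriv (w : ℝ → ℝ) x) :
    ∀ᵐ x : ℝ, ∀ ε > 0, ∃ r0 > 0, ∀ r : ℝ, 0 < r → r ≤ r0 → ∀ w ∈ Lf G, Uni w x r →
      deriv (w : ℝ → ℝ) x * r ≤ ε := by
  unfold LebErgodic at hne
  push Not at hne
  obtain ⟨A, hA, hinv, h1, h2⟩ := hne
  have hA' : MeasurableSet (⇑Circle.exp ⁻¹' Aᶜ) := by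
    rw [preimage_compl]
    exact hA.compl
  have hinv' : ∀ g ∈ G, ⇑g ⁻¹' Aᶜ = Aᶜ := fun g hg => by rw [preimage_compl, hinv g hg]
  have h1' : volume (⇑Circle.exp ⁻¹' Aᶜᶜ) ≠ 0 := by rwa [compl_compl]
  filter_upwards [thin_half hG hm koe hA hinv h2, thin_half hG hm koe hA' hinv' h1'] with x hx hx'
  by_cases hxA : x ∈ ⇑Circle.exp ⁻¹' A
  · exact hx hxA
  · exact hx' (by rw [preimage_compl]; exact hxA)

end Pool.Agent.H50.GSD
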