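import Mathlib
import Pool.Agent.H52.GS.Def

/-!
# GD-5: a real-analytic function extends holomorphically near each point

`Ext f F x r` (`H52/GS/Def.lean`): `F` is holomorphic on the disc `D(x,r)` and `F y = f y` for real
`y`, `|y - x| < r`.

PROOF of `loc_ext`.  Let `p : FormalMultilinearSeries ℝ ℝ ℝ` be the power series of `u` at `x`
(`HasFPowerSeriesAt`, `HasFPowerSeriesOnBall u p x r0`, `r0 > 0`), `a n = p.coeff n`.  Take a real
`ρ` with `0 < ρ < r0` (`ρ ≤ 1` if `r0 = ⊤`).  Then `|a n| ρ^n ≤ C` for some `C`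
(`FormalMultilinearSeries.norm_mul_pow_le_of_lt_radius`, or `le_mul_pow_of_radius_pos`...; note
`‖p n‖ = ‖p.coeff n‖`, `FormalMultilinearSeries.norm_apply_eq_norm_coef`).  Let
`F z = ∑' n, (a n : ℂ) * (z - x)^n`.  On the disc `D(x, ρ)` the series converges absolutely
(comparison with the geometric series `C (|z - x|/ρ)^n`) and `F` is holomorphic: either
`FormalMultilinearSeries.ofScalars ℂ (fun n => (a n : ℂ))` has radius of convergence at least `ρ`
(`FormalMultilinearSeries.le_radius_of_bound`) and `HasFPowerSeriesOnBall` gives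
`DifferentiableOn`, or `differentiableOn_tsum_of_summable_norm` on the discs `D(x, ρ')`, `ρ' < ρ`.
For real `y` with `|y - x| < ρ`: `u y = ∑' n, a n * (y - x)^n` (`HasFPowerSeriesOnBall.hasSum`,
`FormalMultilinearSeries.apply_eq_pow_smul_coeff`), and `Complex.ofReal_tsum`.
-/

set_option autoImplicit false
open Set Filter Topology MeasureTheory Metric

namespace Pool.Agent.H50.GSD

open Pool.Agent.H52.GS (TT Ext)

theorem loc_ext {u : ℝ → ℝ} {x : ℝ} (h : AnalyticAt ℝ u x) :
    ∃ r > 0, ∃ F : ℂ → ℂ, Ext u F x r := by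
  obtain ⟨p, r0, hp⟩ := h
  obtain ⟨ρ, hρ0, hρ1⟩ := ENNReal.lt_iff_exists_nnreal_btwn.1 hp.r_pos
  have hρ : 0 < ρ := by exact_mod_cast hρ0
  have hρr : (ρ : ENNReal) < p.radius := hρ1.trans_le hp.r_le
  obtain ⟨C, hC0, hC⟩ := p.norm_mul_pow_le_of_lt_radius hρr
  set q : FormalMultilinearSeries ℂ ℂ ℂ :=
    FormalMultilinearSeries.ofScalars ℂ (fun n => ((p.coeff n : ℝ) : ℂ)) with hqdef
  have hq : (ρ : ENNReal) ≤ q.radius := by
    refine q.le_radius_of_bound C fun n => ?_
    have h1 : ‖q n‖ = ‖p n‖ := by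
      rw [FormalMultilinearSeries.norm_apply_eq_norm_coef,
        FormalMultilinearSeries.norm_apply_eq_norm_coef, hqdef,
        FormalMultilinearSeries.coeff_ofScalars, Complex.norm_real]
    rw [h1]
    exact hC n
  have hq0 : 0 < q.radius := lt_of_lt_of_le hρ0 hq
  have hqb : HasFPowerSeriesOnBall q.sum q 0 q.radius := q.hasFPowerSeriesOnBall hq0
  have hball : ∀ z : ℂ, z ∈ ball (0 : ℂ) ρ → z ∈ Metric.eball (0 : ℂ) q.radius := by
    intro z hz
    rw [mem_ball_zero_iff] at hz
    rw [Metric.mem_eball, edist_zero_right]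
    refine lt_of_lt_of_le ?_ hq
    rw [enorm_eq_nnnorm]
    exact_mod_cast hz
  refine ⟨ρ, by exact_mod_cast hρ, fun z => q.sum (z - x), ?_, ?_⟩
  · have h1 : DifferentiableOn ℂ q.sum (Metric.eball 0 q.radius) := hqb.differentiableOn
    refine h1.comp (differentiableOn_id.sub_const _) ?_
    intro z hz
    apply hball
    rw [mem_ball, dist_eq_norm] at hz
    rw [mem_ball_zero_iff]
    exact hz
  · intro y hy
    have h1 : y - x ∈ Metric.eball (0 : ℝ) r0 := by
      rw [Metric.mem_eball, edist_zero_right]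
      refine lt_of_lt_of_le ?_ hρ1.le
      rw [enorm_eq_nnnorm]
      have : ‖y - x‖ < ρ := by rw [Real.norm_eq_abs]; exact hy
      exact_mod_cast this
    have h2 := hp.hasSum h1
    rw [add_sub_cancel] at h2
    have h3 : HasSum (fun n => ((p n (fun _ => y - x) : ℝ) : ℂ)) ((u y : ℝ) : ℂ) :=
      Complex.hasSum_ofReal.2 h2
    have h4 : ((y - x : ℝ) : ℂ) ∈ ball (0 : ℂ) ρ := by
      rw [mem_ball_zero_iff, Complex.norm_real, Real.norm_eq_abs]
      exact hy
    have h5 := hqb.hasSum (hball _ h4)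
    rw [zero_add] at h5
    have h6 : (fun n => q n (fun _ => ((y - x : ℝ) : ℂ))) =
        fun n => ((p n (fun _ => y - x) : ℝ) : ℂ) := by
      funext n
      rw [FormalMultilinearSeries.apply_eq_pow_smul_coeff,
        FormalMultilinearSeries.apply_eq_pow_smul_coeff, hqdef,
        FormalMultilinearSeries.coeff_ofScalars, smul_eq_mul, smul_eq_mul]
      push_cast
      ring
    rw [h6] at h5
    change q.sum ((y : ℂ) - (x : ℂ)) = _
    rw [← Complex.ofReal_sub]
    exact h5.unique h3

end Pool.Agent.H50.GSD
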