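import Mathlib
import Pool.Agent.H50.GSD.D5

/-!
# GD-6: gluing local holomorphic extensions to a strip

`Ext f F x r` (`H52/GS/Def.lean`): `F` is holomorphic on the disc `D(x,r)` and `F y = f y` for real
`y`, `|y - x| < r`.

PROOF of `unif_ext`.  For `x ∈ [0, 2 pi]` let `r x > 0`, `F x` be as in `hu`.  The balls
`ball x (r x / 2)` cover the compact set `[0, 2 pi]`; take a finite subcover and let `ρ` be the
minimum of the `r x / 2` over it.  For `y ∈ [0, 2 pi]`, `y ∈ ball x (r x / 2)`, and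
`ball y ρ ⊆ ball x (r x)`: `Ext u (F x) y ρ`.  For general `y` let `k` be an integer with
`y - k 2 pi ∈ [0, 2 pi]`, `F` the extension for `y - k 2 pi`, and take
`z ↦ F (z - k 2 pi) + k 2 pi` (`hper` gives `u (t + k 2 pi) = u t + k 2 pi` for integers `k`).

PROOF of `ext_agree`.  The intersection `D(x,r) ∩ D(y,r)` is open and convex (so preconnected).  If
`z` belongs to it then so does the real point `z.re` (`|z.re - x| ≤ |z - x|`), and all real points
near `z.re`; there `F` and `F'` both agree with `u`.  So `F = F'` frequently in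
`𝓝[≠] (z.re : ℂ)` and the identity theorem
(`AnalyticOnNhd.eqOn_of_preconnected_of_frequently_eq`) gives `F = F'` on the intersection.

PROOF of `strip_ext`.  Choose `ρ` from `unif_ext` and for every real `x` an extension `E x` with
`Ext u (E x) x ρ`.  Let `σ = ρ` and `F z = E z.re z`.  For `z0` in the strip, `|z0.im| < ρ`, all `z`
near `z0` satisfy `z ∈ D(z.re, ρ) ∩ D(z0.re, ρ)` (open conditions `|z.im| < ρ`,
`|z - z0.re| < ρ`, which hold at `z0`), so `F z = E z.re z = E z0.re z` near `z0` by `ext_agree`: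
`F` is differentiable at `z0`.  For real `x`: `F x = E x x = u x`.
-/

set_option autoImplicit false
open Set Filter Topology MeasureTheory Metric

namespace Pool.Agent.H50.GSD

open Pool.Agent.H52.GS (TT Ext)

theorem unif_ext {u : ℝ → ℝ} (hu : ∀ x : ℝ, ∃ r > 0, ∃ F : ℂ → ℂ, Ext u F x r)
    (hper : ∀ x, u (x + 2 * Real.pi) = u x + 2 * Real.pi) :
    ∃ ρ > 0, ∀ x : ℝ, ∃ F : ℂ → ℂ, Ext u F x ρ := by
  choose r hr F hF using hu
  have hpi : 0 < 2 * Real.pi := by positivity
  have hcomp : IsCompact ((fun x : ℝ => (x : ℂ)) '' Icc (0 : ℝ) (2 * Real.pi)) :=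
    isCompact_Icc.image Complex.continuous_ofReal
  obtain ⟨δ, hδ, hleb⟩ := lebesgue_number_lemma_of_metric hcomp
    (c := fun x : ℝ => ball (x : ℂ) (r x)) (fun x => isOpen_ball) (by
      rintro _ ⟨x, _, rfl⟩
      exact mem_iUnion.2 ⟨x, mem_ball_self (hr x)⟩)
  refine ⟨δ, hδ, fun y => ?_⟩
  have hN : ∀ (n : ℕ) (t : ℝ), u (t + n * (2 * Real.pi)) = u t + n * (2 * Real.pi) := by
    intro n
    induction n with
    | zero => intro t; simp
    | succ n ih =>
      intro t
      have h1 : t + ((n + 1 : ℕ) : ℝ) * (2 * Real.pi) =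
          (t + n * (2 * Real.pi)) + 2 * Real.pi := by push_cast; ring
      rw [h1, hper, ih]
      push_cast
      ring
  have hZ : ∀ (k : ℤ) (t : ℝ), u (t + k * (2 * Real.pi)) = u t + k * (2 * Real.pi) := by
    intro k t
    obtain ⟨n, rfl | rfl⟩ := k.eq_nat_or_neg
    · have := hN n t
      push_cast
      exact this
    · have := hN n (t + ((-(n : ℤ) : ℤ) : ℝ) * (2 * Real.pi))
      push_cast at this ⊢
      have h2 : t + -(n : ℝ) * (2 * Real.pi) + n * (2 * Real.pi) = t := by ring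
      rw [h2] at this
      linarith
  set k : ℤ := ⌊y / (2 * Real.pi)⌋ with hk
  set y' : ℝ := y - k * (2 * Real.pi) with hy'
  have hy'mem : y' ∈ Icc (0 : ℝ) (2 * Real.pi) := by
    have h1 : (k : ℝ) ≤ y / (2 * Real.pi) := Int.floor_le _
    have h2 : y / (2 * Real.pi) < k + 1 := Int.lt_floor_add_one _
    rw [le_div_iff₀ hpi] at h1
    rw [div_lt_iff₀ hpi] at h2
    constructor
    · rw [hy']; linarith
    · rw [hy']; linarith
  obtain ⟨x, hx⟩ := hleb (y' : ℂ) ⟨y', hy'mem, rfl⟩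
  refine ⟨fun z => F x (z - k * (2 * Real.pi)) + k * (2 * Real.pi), ?_, ?_⟩
  · refine DifferentiableOn.add_const _ ?_
    refine (hF x).1.comp (differentiableOn_id.sub_const _) ?_
    intro z hz
    apply hx
    rw [mem_ball, dist_eq_norm] at hz ⊢
    have h3 : z - (k : ℂ) * (2 * Real.pi) - (y' : ℂ) = z - y := by
      rw [hy']; push_cast; ring
    change ‖z - (k : ℂ) * (2 * Real.pi) - (y' : ℂ)‖ < δ
    rw [h3]
    exact hz
  · intro t ht
    have h4 : ((t - k * (2 * Real.pi) : ℝ) : ℂ) ∈ ball (x : ℂ) (r x) := by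
      apply hx
      rw [mem_ball, dist_eq_norm, ← Complex.ofReal_sub, Complex.norm_real, Real.norm_eq_abs]
      have h5 : t - k * (2 * Real.pi) - y' = t - y := by rw [hy']; ring
      rw [h5]
      exact ht
    rw [mem_ball, dist_eq_norm, ← Complex.ofReal_sub, Complex.norm_real, Real.norm_eq_abs] at h4
    have h6 := (hF x).2 _ h4
    have h7 : u t = u (t - k * (2 * Real.pi)) + k * (2 * Real.pi) := by
      have := hZ k (t - k * (2 * Real.pi))
      rw [sub_add_cancel] at this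
      exact this
    change F x ((t : ℂ) - (k : ℂ) * (2 * Real.pi)) + (k : ℂ) * (2 * Real.pi) = _
    have h8 : (t : ℂ) - (k : ℂ) * (2 * Real.pi) = ((t - k * (2 * Real.pi) : ℝ) : ℂ) := by
      push_cast; ring
    rw [h8, h6, h7]
    push_cast
    ring

theorem ext_agree {u : ℝ → ℝ} {F F' : ℂ → ℂ} {x y r r' : ℝ} (h : Ext u F x r)
    (h' : Ext u F' y r') {z : ℂ} (hz : z ∈ ball (x : ℂ) r) (hz' : z ∈ ball (y : ℂ) r') :
    F z = F' z := by
  set S : Set ℂ := ball (x : ℂ) r ∩ ball (y : ℂ) r' with hS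
  have hSo : IsOpen S := isOpen_ball.inter isOpen_ball
  have hSc : Convex ℝ S := (convex_ball _ _).inter (convex_ball _ _)
  have hre : ∀ (c ρ : ℝ) (w : ℂ), w ∈ ball (c : ℂ) ρ → ((w.re : ℝ) : ℂ) ∈ ball (c : ℂ) ρ := by
    intro c ρ w hw
    rw [mem_ball, dist_eq_norm] at hw ⊢
    refine lt_of_le_of_lt ?_ hw
    rw [← Complex.ofReal_sub, Complex.norm_real, Real.norm_eq_abs]
    have := Complex.abs_re_le_norm (w - (c : ℂ))
    simpa using this
  have hz0 : ((z.re : ℝ) : ℂ) ∈ S := ⟨hre _ _ _ hz, hre _ _ _ hz'⟩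
  have hA : AnalyticOnNhd ℂ F S := (h.1.mono inter_subset_left).analyticOnNhd hSo
  have hA' : AnalyticOnNhd ℂ F' S := (h'.1.mono inter_subset_right).analyticOnNhd hSo
  have hfreq : ∃ᶠ w in 𝓝[≠] ((z.re : ℝ) : ℂ), F w = F' w := by
    have hev : ∀ᶠ t : ℝ in 𝓝[≠] z.re, F (t : ℂ) = F' (t : ℂ) := by
      have h1 : ∀ᶠ t : ℝ in 𝓝 z.re, (t : ℂ) ∈ S :=
        Complex.continuous_ofReal.continuousAt.eventually (hSo.mem_nhds hz0)
      filter_upwards [nhdsWithin_le_nhds h1] with t ht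
      have ht1 := ht.1
      have ht2 := ht.2
      rw [mem_ball, dist_eq_norm, ← Complex.ofReal_sub, Complex.norm_real,
        Real.norm_eq_abs] at ht1 ht2
      rw [h.2 t ht1, h'.2 t ht2]
    have htend : Tendsto (fun t : ℝ => (t : ℂ)) (𝓝[≠] z.re) (𝓝[≠] ((z.re : ℝ) : ℂ)) := by
      refine tendsto_nhdsWithin_iff.2 ⟨?_, ?_⟩
      · exact (Complex.continuous_ofReal.tendsto _).mono_left nhdsWithin_le_nhds
      · filter_upwards [self_mem_nhdsWithin] with t ht
        intro h2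
        exact ht (by simpa using h2)
    exact htend.frequently hev.frequently
  exact hA.eqOn_of_preconnected_of_frequently_eq hA' hSc.isPreconnected hz0 hfreq ⟨hz, hz'⟩

theorem strip_ext {u : ℝ → ℝ} (hu : AnalyticOnNhd ℝ u univ)
    (hper : ∀ x, u (x + 2 * Real.pi) = u x + 2 * Real.pi) :
    ∃ σ > 0, ∃ F : ℂ → ℂ, DifferentiableOn ℂ F {z : ℂ | |z.im| < σ} ∧
      ∀ x : ℝ, F (x : ℂ) = ((u x : ℝ) : ℂ) := by
  obtain ⟨ρ, hρ, hE⟩ := unif_ext (fun x => loc_ext (hu x (mem_univ x))) hper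
  choose E hE using hE
  refine ⟨ρ, hρ, fun z => E z.re z, ?_, ?_⟩
  · intro z0 hz0
    have hz0' : |z0.im| < ρ := hz0
    have hn : ∀ z : ℂ, |z.im| < ρ → z ∈ ball ((z.re : ℝ) : ℂ) ρ := by
      intro z hz
      rw [mem_ball, dist_eq_norm]
      have h1 : z - ((z.re : ℝ) : ℂ) = (z.im : ℂ) * Complex.I := by
        apply Complex.ext <;> simp
      rw [h1, norm_mul, Complex.norm_I, mul_one, Complex.norm_real, Real.norm_eq_abs]
      exact hz
    have h2 : DifferentiableAt ℂ (E z0.re) z0 :=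
      (hE z0.re).1.differentiableAt (isOpen_ball.mem_nhds (hn z0 hz0'))
    have h3 : (fun z : ℂ => E z.re z) =ᶠ[𝓝 z0] E z0.re := by
      have h4 : ∀ᶠ z : ℂ in 𝓝 z0, |z.im| < ρ :=
        (continuous_abs.comp Complex.continuous_im).continuousAt.eventually
          (isOpen_Iio.mem_nhds hz0')
      have h5 : ∀ᶠ z : ℂ in 𝓝 z0, z ∈ ball ((z0.re : ℝ) : ℂ) ρ :=
        isOpen_ball.mem_nhds (hn z0 hz0')
      filter_upwards [h4, h5] with z hz4 hz5
      exact ext_agree (hE z.re) (hE z0.re) (hn z hz4) hz5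
    exact (h3.differentiableAt_iff.2 h2).differentiableWithinAt
  · intro x
    have h6 := (hE x).2 x (by simpa using hρ)
    simpa using h6

end Pool.Agent.H50.GSD
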