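import Mathlib
import Pool.Agent.H50.GSD.D6
import Pool.Agent.H50.GSD.D1

/-!
# GD-7: the extension to a thin strip is injective

PROOF.  Let `σ0, F` be as in `strip_ext`, `S = {|im z| < σ0}` (open, convex).
(1) `F (z + 2 pi) = F z + 2 pi` on `S`: both sides are holomorphic on `S` and agree on the real
line (identity theorem).  So `deriv F (z + 2 pi) = deriv F z`, also for integer multiples.
(2) For real `x`: `deriv F x = (deriv u x : ℂ)`, because `F` restricted to the real line is `u`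
(`HasDerivAt.comp_ofReal`, `HasDerivAt.ofReal_comp`, uniqueness).  `deriv u` is continuous
(analytic) and positive, so it is at least `m > 0` on `[0, 2 pi]`, hence on the line (periodic).
(3) `deriv F` is continuous on `S` (holomorphic), so uniformly continuous on the compact set
`K = [0, 2 pi] × [-σ0/2, σ0/2]` (`[0,2 pi] ×ℂ [-σ0/2, σ0/2]`): there is `σ ∈ (0, σ0/2]` with
`‖deriv F z - deriv F z.re‖ < m` for `z ∈ K`, `|im z| < σ`; by (1) for all `z` with `|im z| < σ`.
So `0 < (deriv F z).re` there.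
(4) Injectivity on `{|im z| < σ}` (convex): let `F z = F w`, `z ≠ w`.  The function
`φ t = ((F (w + t (z - w))) / (z - w)).re`, `t ∈ [0,1]`, has derivative
`(deriv F (w + t (z - w))).re > 0`, so `φ 0 < φ 1` (`strictMonoOn_of_deriv_pos` or the mean value
theorem), but `F z = F w` gives `φ 0 = φ 1`.
-/

set_option autoImplicit false
open Set Filter Topology MeasureTheory Metric

namespace Pool.Agent.H50.GSD

open Pool.Agent.H52.GS (TT Ext)

/-- a holomorphic function with positive real part of the derivative on a convex open set is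
injective (Noshiro-Warschawski) -/
theorem inj_of_re_pos {U : Set ℂ} (hU : IsOpen U) (hc : Convex ℝ U) {F : ℂ → ℂ}
    (hF : DifferentiableOn ℂ F U) (hp : ∀ z ∈ U, 0 < (deriv F z).re) : InjOn F U := by
  intro z hz w hw hzw
  by_contra hne
  have hne' : z - w ≠ 0 := sub_ne_zero.2 hne
  have hseg : ∀ t : ℝ, t ∈ Icc (0:ℝ) 1 → w + (t:ℂ) * (z - w) ∈ U := by
    intro t ht
    have h1 := hc hw hz (a := 1 - t) (b := t) (by linarith [ht.2]) ht.1 (by ring)
    have h2 : (1 - t) • w + t • z = w + (t:ℂ) * (z - w) := by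
      simp only [Complex.real_smul]; push_cast; ring
    rwa [h2] at h1
  have hder : ∀ t : ℝ, t ∈ Icc (0:ℝ) 1 →
      HasDerivAt (fun s : ℝ => ((F (w + (s:ℂ) * (z - w))) / (z - w)).re)
        ((deriv F (w + (t:ℂ) * (z - w))).re) t := by
    intro t ht
    have h1 : HasDerivAt F (deriv F (w + (t:ℂ) * (z - w))) (w + (t:ℂ) * (z - w)) :=
      (hF.differentiableAt (hU.mem_nhds (hseg t ht))).hasDerivAt
    have h2 : HasDerivAt (fun s : ℂ => w + s * (z - w)) (z - w) (t:ℂ) := by
      simpa using ((hasDerivAt_id (t:ℂ)).mul_const (z - w)).const_add w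
    have h3 := h1.comp (t:ℂ) h2
    have h4 := (h3.div_const (z - w)).real_of_complex
    have h5 : deriv F (w + (t:ℂ) * (z - w)) * (z - w) / (z - w)
        = deriv F (w + (t:ℂ) * (z - w)) := by field_simp
    rw [h5] at h4
    exact h4
  have hmono : StrictMonoOn (fun s : ℝ => ((F (w + (s:ℂ) * (z - w))) / (z - w)).re)
      (Icc (0:ℝ) 1) := by
    apply strictMonoOn_of_deriv_pos (convex_Icc 0 1)
    · intro t ht
      exact (hder t ht).continuousAt.continuousWithinAt
    · intro t ht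
      have ht' : t ∈ Icc (0:ℝ) 1 := interior_subset ht
      rw [(hder t ht').deriv]
      exact hp _ (hseg t ht')
  have h01 := hmono (left_mem_Icc.2 zero_le_one) (right_mem_Icc.2 zero_le_one) zero_lt_one
  have e0 : w + ((0:ℝ):ℂ) * (z - w) = w := by push_cast; ring
  have e1 : w + ((1:ℝ):ℂ) * (z - w) = z := by push_cast; ring
  simp only [e0, e1] at h01
  rw [hzw] at h01
  exact lt_irrefl _ h01

theorem d7_isOpen (σ : ℝ) : IsOpen {z : ℂ | |z.im| < σ} :=
  isOpen_lt (continuous_abs.comp Complex.continuous_im) continuous_const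

theorem d7_convex (σ : ℝ) : Convex ℝ {z : ℂ | |z.im| < σ} := by
  intro z hz w hw a b ha hb hab
  simp only [mem_ofPred_eq] at hz hw ⊢
  rw [abs_lt] at hz hw ⊢
  have h1 : (a • z + b • w).im = a * z.im + b * w.im := by
    simp
  rw [h1]
  have hb' : b = 1 - a := by linarith
  subst hb'
  rcases eq_or_lt_of_le ha with ha0 | ha0
  · rw [← ha0]; constructor <;> linarith [hw.1, hw.2]
  · constructor
    · nlinarith [mul_lt_mul_of_pos_left hz.1 ha0, mul_le_mul_of_nonneg_left hw.1.le hb]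
    · nlinarith [mul_lt_mul_of_pos_left hz.2 ha0, mul_le_mul_of_nonneg_left hw.2.le hb]

theorem d7_ident {σ : ℝ} (hσ : 0 < σ) {F G : ℂ → ℂ}
    (hF : DifferentiableOn ℂ F {z : ℂ | |z.im| < σ})
    (hG : DifferentiableOn ℂ G {z : ℂ | |z.im| < σ}) (h : ∀ x : ℝ, F x = G x) :
    EqOn F G {z : ℂ | |z.im| < σ} := by
  have h0 : (0:ℂ) ∈ {z : ℂ | |z.im| < σ} := by simpa using hσ
  refine (hF.analyticOnNhd (d7_isOpen σ)).eqOn_of_preconnected_of_frequently_eq
    (hG.analyticOnNhd (d7_isOpen σ)) (d7_convex σ).isPreconnected h0 ?_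
  have ht : Tendsto (fun x : ℝ => (x:ℂ)) (𝓝[≠] 0) (𝓝[≠] 0) := by
    apply tendsto_nhdsWithin_of_tendsto_nhds_of_eventually_within
    · have h1 : Tendsto (fun x : ℝ => (x:ℂ)) (𝓝 0) (𝓝 ((0:ℝ):ℂ)) :=
        Complex.continuous_ofReal.tendsto 0
      rw [Complex.ofReal_zero] at h1
      exact h1.mono_left nhdsWithin_le_nhds
    · filter_upwards [self_mem_nhdsWithin] with x hx
      intro hx0
      exact hx (by simpa using hx0)
  apply ht.frequently
  exact (Eventually.of_forall fun x => h x).frequently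

theorem ext_strip {f : ℝ ≃o ℝ} (hper : Per f) (han : AnalyticOnNhd ℝ (f : ℝ → ℝ) univ)
    (hd : ∀ t, 0 < deriv (f : ℝ → ℝ) t) :
    ∃ σ > 0, ∃ F : ℂ → ℂ, DifferentiableOn ℂ F {z : ℂ | |z.im| < σ} ∧
      InjOn F {z : ℂ | |z.im| < σ} ∧ ∀ x : ℝ, F (x : ℂ) = ((f x : ℝ) : ℂ) := by
  obtain ⟨σ0, hσ0, F, hF, hFr⟩ := strip_ext han hper
  have hpi : 0 < 2 * Real.pi := by positivity
  -- periodicity
  have hperF : ∀ n : ℤ, ∀ z : ℂ, |z.im| < σ0 →
      F (z + ((n * (2 * Real.pi) : ℝ) : ℂ)) = F z + ((n * (2 * Real.pi) : ℝ) : ℂ) := by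
    intro n z hz
    have hG : DifferentiableOn ℂ (fun w => F (w + ((n * (2 * Real.pi) : ℝ) : ℂ)))
        {z : ℂ | |z.im| < σ0} := by
      apply hF.comp (differentiableOn_id.add_const _)
      intro w hw
      simp only [mem_ofPred_eq] at hw ⊢
      simpa using hw
    have hH : DifferentiableOn ℂ (fun w => F w + ((n * (2 * Real.pi) : ℝ) : ℂ))
        {z : ℂ | |z.im| < σ0} := hF.add_const _
    refine d7_ident hσ0 hG hH ?_ hz
    intro x
    rw [← Complex.ofReal_add, hFr, hFr, per_int hper n x, Complex.ofReal_add]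
  have hperD : ∀ n : ℤ, ∀ z : ℂ, |z.im| < σ0 →
      deriv F (z + ((n * (2 * Real.pi) : ℝ) : ℂ)) = deriv F z := by
    intro n z hz
    have h1 : (fun w => F (w + ((n * (2 * Real.pi) : ℝ) : ℂ))) =ᶠ[𝓝 z]
        (fun w => F w + ((n * (2 * Real.pi) : ℝ) : ℂ)) := by
      filter_upwards [(d7_isOpen σ0).mem_nhds hz] with w hw
      exact hperF n w hw
    have h2 := h1.deriv_eq
    rwa [deriv_comp_add_const, deriv_add_const] at h2
  -- derivative on the real line
  have hreal : ∀ x : ℝ, deriv F (x:ℂ) = ((deriv (f : ℝ → ℝ) x : ℝ) : ℂ) := by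
    intro x
    have hx : (x:ℂ) ∈ {z : ℂ | |z.im| < σ0} := by simpa using hσ0
    have h1 : HasDerivAt F (deriv F (x:ℂ)) (x:ℂ) :=
      (hF.differentiableAt ((d7_isOpen σ0).mem_nhds hx)).hasDerivAt
    have h2 := h1.comp_ofReal
    have h3 : HasDerivAt (fun y : ℝ => (((f : ℝ → ℝ) y : ℝ) : ℂ))
        ((deriv (f : ℝ → ℝ) x : ℝ) : ℂ) x :=
      ((han x (mem_univ x)).differentiableAt.hasDerivAt).ofReal_comp
    have h4 : (fun y : ℝ => F (y:ℂ)) = fun y : ℝ => (((f : ℝ → ℝ) y : ℝ) : ℂ) := funext hFr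
    rw [h4] at h2
    exact h2.unique h3
  have hcont : Continuous (deriv (f : ℝ → ℝ)) :=
    continuousOn_univ.1 han.deriv.continuousOn
  obtain ⟨x0, -, hx0⟩ := isCompact_Icc.exists_isMinOn (s := Icc (0:ℝ) (2 * Real.pi))
    ⟨0, left_mem_Icc.2 hpi.le⟩ hcont.continuousOn
  set m := deriv (f : ℝ → ℝ) x0 with hm
  have hmpos : 0 < m := hd x0
  have hmle : ∀ x ∈ Icc (0:ℝ) (2 * Real.pi), m ≤ deriv (f : ℝ → ℝ) x := fun x hx => hx0 hx
  -- uniform continuity
  have hDc : ContinuousOn (deriv F) {z : ℂ | |z.im| < σ0} :=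
    (hF.analyticOnNhd (d7_isOpen σ0)).deriv.continuousOn
  have hKc : IsCompact (Icc (0:ℝ) (2 * Real.pi) ×ℂ Icc (-(σ0 / 2)) (σ0 / 2)) :=
    isCompact_Icc.reProdIm isCompact_Icc
  have hKs : (Icc (0:ℝ) (2 * Real.pi) ×ℂ Icc (-(σ0 / 2)) (σ0 / 2)) ⊆ {z : ℂ | |z.im| < σ0} := by
    intro z hz
    rw [Complex.mem_reProdIm] at hz
    simp only [mem_ofPred_eq]
    have h1 : |z.im| ≤ σ0 / 2 := abs_le.2 hz.2
    linarith
  have huc := hKc.uniformContinuousOn_of_continuous (hDc.mono hKs)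
  rw [Metric.uniformContinuousOn_iff] at huc
  obtain ⟨δ, hδ, huc⟩ := huc m hmpos
  refine ⟨min (σ0 / 2) δ, lt_min (by linarith) hδ, F, ?_, ?_, hFr⟩
  · apply hF.mono
    intro z hz
    simp only [mem_ofPred_eq] at hz ⊢
    have := lt_of_lt_of_le hz (min_le_left _ _)
    linarith
  · have hsub : {z : ℂ | |z.im| < min (σ0 / 2) δ} ⊆ {z : ℂ | |z.im| < σ0} := by
      intro z hz
      simp only [mem_ofPred_eq] at hz ⊢
      have := lt_of_lt_of_le hz (min_le_left _ _)
      linarith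
    apply inj_of_re_pos (d7_isOpen _) (d7_convex _) (hF.mono hsub)
    have key : ∀ z : ℂ, |z.im| < min (σ0 / 2) δ → z.re ∈ Icc (0:ℝ) (2 * Real.pi) →
        0 < (deriv F z).re := by
      intro z hz hre
      have hz1 := lt_of_lt_of_le hz (min_le_left _ _)
      have hz2 := lt_of_lt_of_le hz (min_le_right _ _)
      have hzK : z ∈ (Icc (0:ℝ) (2 * Real.pi) ×ℂ Icc (-(σ0 / 2)) (σ0 / 2)) := by
        rw [Complex.mem_reProdIm]
        exact ⟨hre, abs_le.1 hz1.le⟩
      have hrK : ((z.re : ℝ) : ℂ) ∈ (Icc (0:ℝ) (2 * Real.pi) ×ℂ Icc (-(σ0 / 2)) (σ0 / 2)) := by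
        rw [Complex.mem_reProdIm]
        refine ⟨by simpa using hre, ?_⟩
        simp only [Complex.ofReal_im, mem_Icc]
        constructor <;> linarith
      have hdist : dist z ((z.re : ℝ) : ℂ) < δ := by
        rw [dist_eq_norm]
        have h1 : z - ((z.re : ℝ) : ℂ) = (z.im : ℂ) * Complex.I := by
          apply Complex.ext <;> simp
        rw [h1, norm_mul, Complex.norm_I, mul_one, Complex.norm_real, Real.norm_eq_abs]
        exact hz2
      have h1 := huc z hzK _ hrK hdist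
      rw [dist_eq_norm, hreal] at h1
      have h2 : |(deriv F z - ((deriv (f : ℝ → ℝ) z.re : ℝ) : ℂ)).re| < m :=
        lt_of_le_of_lt (Complex.abs_re_le_norm _) h1
      rw [Complex.sub_re, Complex.ofReal_re, abs_lt] at h2
      have h3 := hmle z.re hre
      linarith [h2.1]
    intro z hz
    simp only [mem_ofPred_eq] at hz
    set n : ℤ := ⌊z.re / (2 * Real.pi)⌋ with hn
    have hfl : (n:ℝ) * (2 * Real.pi) ≤ z.re := by
      have := Int.floor_le (z.re / (2 * Real.pi))
      rwa [le_div_iff₀ hpi] at this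
    have hfl2 : z.re < ((n:ℝ) + 1) * (2 * Real.pi) := by
      have := Int.lt_floor_add_one (z.re / (2 * Real.pi))
      rwa [div_lt_iff₀ hpi] at this
    have him : (z + (((-n : ℤ) * (2 * Real.pi) : ℝ) : ℂ)).im = z.im := by simp
    have hre : (z + (((-n : ℤ) * (2 * Real.pi) : ℝ) : ℂ)).re = z.re - n * (2 * Real.pi) := by
      rw [Complex.add_re, Complex.ofReal_re]; push_cast; ring
    have h1 := key (z + (((-n : ℤ) * (2 * Real.pi) : ℝ) : ℂ)) (by rw [him]; exact hz)
      (by rw [hre]; constructor <;> nlinarith)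
    rwa [hperD (-n) z (hsub hz)] at h1

end Pool.Agent.H50.GSD
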