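import Mathlib
import Pool.Agent.H50.GSD.D2
import Pool.Agent.H50.GS.Stab

/-!
# GD-8: stabilisers in the group of lifts are cyclic

PROOF.  Let `H : Subgroup (Circle ≃ₜ Circle)` consist of the `g ∈ G` which have a lift fixing `z`:
`∃ f, IsL g f ∧ f z = z` (a subgroup by `IsL.mul`, `IsL.inv`).  Apply
`Pool.Agent.H50.GS.stab hC hm z H`: `H ≤ G`; elements of `H` fix `exp z`; they satisfy `IsPos`
(`isL_isPos`); isolation `hiso` on the right of `z`: `an_iso_circle` (and `𝓝[>] z ≤ 𝓝[≠] z`,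
`nhdsWithin_mono`).  As `G` is not ergodic, there is `h0 ∈ H` such that every `h ∈ H` is a power
`h0 ^ k` (`k : ℤ`).  Let `s` be a lift of `h0` with `s z = z`.  If `f ∈ Lf G`, `IsL g f`,
`f z = z`, then `g ∈ H`, `g = h0 ^ k`, and `f` and `s ^ k` are both lifts of `g` fixing `z`
(`isL_zpow`; `(s ^ k) z = z` by integer induction or because the stabiliser is a subgroup), so
`f = s ^ k` by `isL_fix`.
-/

set_option autoImplicit false
open Set Filter Topology MeasureTheory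

namespace Pool.Agent.H50.GSD

open Pool.Agent.H52.GS (TT)
open Pool.Agent.H50.GS

variable {G : Subgroup (Circle ≃ₜ Circle)}

/-- the elements of `G` which have a lift fixing `z` -/
private def d8_H (G : Subgroup (Circle ≃ₜ Circle)) (z : ℝ) : Subgroup (Circle ≃ₜ Circle) where
  carrier := {g | g ∈ G ∧ ∃ f, IsL g f ∧ f z = z}
  mul_mem' := by
    rintro g h ⟨hg, f, hf, hfz⟩ ⟨hh, k, hk, hkz⟩
    refine ⟨G.mul_mem hg hh, f * k, hf.mul hk, ?_⟩
    change f (k z) = z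
    rw [hkz, hfz]
  one_mem' := ⟨G.one_mem, 1, IsL.one, rfl⟩
  inv_mem' := by
    rintro g ⟨hg, f, hf, hfz⟩
    refine ⟨G.inv_mem hg, f⁻¹, hf.inv, ?_⟩
    have h1 : (f⁻¹ : ℝ ≃o ℝ) (f z) = z := RelIso.inv_apply_self f z
    rw [hfz] at h1
    exact h1

/-- the stabiliser of `z` -/
private def d8_S (z : ℝ) : Subgroup (ℝ ≃o ℝ) where
  carrier := {f | f z = z}
  mul_mem' := by
    intro f k hf hk
    change f (k z) = z
    have hk' : k z = z := hk
    rw [hk']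
    exact hf
  one_mem' := rfl
  inv_mem' := by
    intro f hf
    have h1 : (f⁻¹ : ℝ ≃o ℝ) (f z) = z := RelIso.inv_apply_self f z
    have hf' : f z = z := hf
    rw [hf'] at h1
    exact h1

theorem Lf_stab (hG : AnGroup G) (hm : Minimal G) (hne : ¬ LebErgodic G) (z : ℝ) :
    ∃ s ∈ Lf G, s z = z ∧ ∀ f ∈ Lf G, f z = z → ∃ k : ℤ, f = s ^ k := by
  have h1 : LebErgodic G ∨ ∃ h0 ∈ d8_H G z, ∀ h ∈ d8_H G z, ∃ k : ℤ, h = h0 ^ k := by
    refine stab (an_c2 hG) hm z (d8_H G z) (fun g hg => hg.1) ?_ ?_ ?_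
    · rintro g ⟨-, f, hf, hfz⟩
      have h2 := hf z
      rw [hfz] at h2
      exact h2.symm
    · rintro g ⟨hg, f, hf, -⟩
      exact isL_isPos hG hg hf
    · rintro g ⟨hg, f, hf, hfz⟩ hg1
      exact (an_iso_circle hG hg hf hg1 hfz).filter_mono
        (nhdsWithin_mono z fun t (ht : z < t) => ht.ne')
  rcases h1 with h1 | h1
  · exact absurd h1 hne
  · obtain ⟨h0, ⟨hh0, s, hs, hsz⟩, h2⟩ := h1
    refine ⟨s, ⟨h0, hh0, hs⟩, hsz, ?_⟩
    rintro f ⟨g, hg, hf⟩ hfz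
    obtain ⟨k, hk⟩ := h2 g ⟨hg, f, hf, hfz⟩
    refine ⟨k, isL_fix hf ?_ hfz ?_⟩
    · rw [hk]
      exact isL_zpow hs k
    · exact (d8_S z).zpow_mem (show s ∈ d8_S z from hsz) k

end Pool.Agent.H50.GSD
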