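import Mathlib
import Pool.Agent.H50.GSD.D2
import Pool.Agent.H50.GS.Disc

/-!
# GD-9: local discreteness, holomorphic form

`NI f x R a` (`H52/GS/Def.lean`): `f` and `f⁻¹` extend holomorphically to `D(x,R)` and are
`a`-close to the identity there.

PROOF of `ni_real`.  Let `F` be the extension, `H z = F z - z`, `‖H z‖ ≤ a` on `D(x,R)`.  For
`|y - x| ≤ R/2` the Cauchy estimates on circles of radius `R/4` around `y` (contained in
`D(x,R)`; `Complex.norm_deriv_le_of_forall_mem_sphere_norm_le` for `H`; for the second derivative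
apply the same estimate once more, to `deriv H` on the disc of radius `R/8`, or
`Complex.norm_iteratedDeriv_le_of_forall_mem_sphere_norm_le`) give `‖H' y‖ ≤ 8 a / R`,
`‖H'' y‖ ≤ 100 a / R^2`.  Restricting to the real line: `f y - y = H y` for real `y` near, so
`deriv f y - 1 = H' y` and `deriv (deriv f) y = H'' y` as real numbers.

PROOF of `Lf_ld`.  Suppose not.  For `n : ℕ` let `ε n = min 1 (R ^ 2) / (n + 1)` (or any positive
sequence tending to 0): there is `f n ∈ Lf G`, `f n ≠ 1`, `NI (f n) x R (ε n)`.  Let `g n ∈ G` with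
`IsL (g n) (f n)`.  For `n` large `g n ≠ 1`: otherwise `f n = TT ^ k` (`isL_one`), and
`|f n x - x| ≤ ε n < 2 pi` gives `k = 0`, `f n = 1`.  So after a shift of the index `g n ≠ 1` for
all `n`.  Apply `Pool.Agent.H50.GS.disc` with `U n = f n` on `(x - R/2, x + R/2)`: `f n` is C²
(`isL_c2`), the uniform convergence of `f n`, `deriv (f n)` and the bound of the second derivative
(by `M = 100 * sup ε n / R ^ 2`) are `ni_real`.  The hyperbolic fixed point: `hhyp` gives
`f0 ∈ Lf G`, `IsL g0 f0`, `f0 p = p`, `deriv f0 p ≠ 1`, and `FixLift p g0 f0` by `isL_isLift`.  The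
isolation hypothesis: for `g ∈ G`, `IsPos g`, `g (exp p) = exp p`, `g ≠ 1`: `exists_isL`,
`exists_isL_fix`, `an_iso_circle` and `𝓝[>] p ≤ 𝓝[≠] p`.  So `G` would be ergodic.
-/

set_option autoImplicit false
open Set Filter Topology MeasureTheory Metric

namespace Pool.Agent.H50.GSD

open Pool.Agent.H52.GS (TT NI Ext)
open Pool.Agent.H50.GS

variable {G : Subgroup (Circle ≃ₜ Circle)}

theorem ni_real {f : ℝ ≃o ℝ} (hf : ContDiff ℝ 2 (f : ℝ → ℝ)) {x R a : ℝ} (hR : 0 < R)
    (h : NI f x R a) {y : ℝ} (hy : |y - x| ≤ R / 2) :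
    |f y - y| ≤ a ∧ |deriv (f : ℝ → ℝ) y - 1| ≤ 8 * a / R ∧
      |deriv (deriv (f : ℝ → ℝ)) y| ≤ 100 * a / R ^ 2 := by
  obtain ⟨F, F', ⟨hF, hFf⟩, -, hb⟩ := h
  have hball : ∀ w : ℝ, |w - x| < R → (w : ℂ) ∈ ball (x : ℂ) R := by
    intro w hw
    rw [mem_ball, Complex.dist_eq, ← Complex.ofReal_sub, Complex.norm_real]
    exact hw
  have hyR : |y - x| < R := by linarith
  have ha : 0 ≤ a := (norm_nonneg _).trans (hb _ (hball y hyR)).1
  -- the derivatives on the line
  have hd1 : ∀ w : ℝ, |w - x| < R → deriv (f : ℝ → ℝ) w = (deriv F (w : ℂ)).re := by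
    intro w hw
    have h1 : HasDerivAt F (deriv F (w : ℂ)) (w : ℂ) :=
      (hF.differentiableAt (isOpen_ball.mem_nhds (hball w hw))).hasDerivAt
    have h2 := h1.real_of_complex
    have h3 : (f : ℝ → ℝ) =ᶠ[𝓝 w] fun t : ℝ => (F t).re := by
      have h4 : {t : ℝ | |t - x| < R} ∈ 𝓝 w := by
        have h5 : IsOpen {t : ℝ | |t - x| < R} := isOpen_lt (by fun_prop) continuous_const
        exact h5.mem_nhds (show w ∈ {t : ℝ | |t - x| < R} from hw)
      filter_upwards [h4] with t ht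
      rw [hFf t ht, Complex.ofReal_re]
    rw [h3.deriv_eq, h2.deriv]
  have hF' : DifferentiableOn ℂ (deriv F) (ball (x : ℂ) R) := hF.deriv isOpen_ball
  have hd2 : deriv (deriv (f : ℝ → ℝ)) y = (deriv (deriv F) (y : ℂ)).re := by
    have h1 : HasDerivAt (deriv F) (deriv (deriv F) (y : ℂ)) (y : ℂ) :=
      (hF'.differentiableAt (isOpen_ball.mem_nhds (hball y hyR))).hasDerivAt
    have h2 := h1.real_of_complex
    have h3 : deriv (f : ℝ → ℝ) =ᶠ[𝓝 y] fun t : ℝ => (deriv F t).re := by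
      have h4 : {t : ℝ | |t - x| < R} ∈ 𝓝 y := by
        have h5 : IsOpen {t : ℝ | |t - x| < R} := isOpen_lt (by fun_prop) continuous_const
        exact h5.mem_nhds (show y ∈ {t : ℝ | |t - x| < R} from hyR)
      filter_upwards [h4] with t ht
      exact hd1 t ht
    rw [h3.deriv_eq, h2.deriv]
  -- the Cauchy estimates
  set H : ℂ → ℂ := fun z => F z - z with hH
  have hHd : DifferentiableOn ℂ H (ball (x : ℂ) R) := hF.sub differentiableOn_id
  have hsub : closedBall (y : ℂ) (R / 4) ⊆ ball (x : ℂ) R := by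
    intro z hz
    rw [mem_closedBall] at hz
    rw [mem_ball]
    have h1 : dist (y : ℂ) (x : ℂ) ≤ R / 2 := by
      rw [Complex.dist_eq, ← Complex.ofReal_sub, Complex.norm_real]
      exact hy
    have := dist_triangle z (y : ℂ) (x : ℂ)
    linarith
  have hR4 : 0 < R / 4 := by linarith
  have hcl : DiffContOnCl ℂ H (ball (y : ℂ) (R / 4)) := hHd.diffContOnCl_ball hsub
  have hC : ∀ z ∈ sphere (y : ℂ) (R / 4), ‖H z‖ ≤ a := fun z hz =>
    (hb z (hsub (sphere_subset_closedBall hz))).1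
  have e1 := Complex.norm_iteratedDeriv_le_of_forall_mem_sphere_norm_le 1 hR4 hcl hC
  have e2 := Complex.norm_iteratedDeriv_le_of_forall_mem_sphere_norm_le 2 hR4 hcl hC
  have hHder : ∀ w ∈ ball (x : ℂ) R, deriv H w = deriv F w - 1 := by
    intro w hw
    have h1 : HasDerivAt F (deriv F w) w :=
      (hF.differentiableAt (isOpen_ball.mem_nhds hw)).hasDerivAt
    exact (h1.sub (hasDerivAt_id w)).deriv
  have hH2 : deriv (deriv H) (y : ℂ) = deriv (deriv F) (y : ℂ) := by
    have h3 : deriv H =ᶠ[𝓝 (y : ℂ)] fun w => deriv F w - 1 := by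
      filter_upwards [isOpen_ball.mem_nhds (hball y hyR)] with w hw
      exact hHder w hw
    rw [h3.deriv_eq, deriv_sub_const]
  rw [iteratedDeriv_one, hHder _ (hball y hyR)] at e1
  rw [iteratedDeriv_succ, iteratedDeriv_one, hH2] at e2
  refine ⟨?_, ?_, ?_⟩
  · have h1 := (hb _ (hball y hyR)).1
    rw [hFf y hyR, ← Complex.ofReal_sub, Complex.norm_real] at h1
    exact h1
  · rw [hd1 y hyR]
    have h1 : (deriv F (y : ℂ)).re - 1 = (deriv F (y : ℂ) - 1).re := by simp
    rw [h1]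
    refine (Complex.abs_re_le_norm _).trans (e1.trans ?_)
    rw [div_le_div_iff₀ (by positivity) hR]
    simp
    nlinarith [mul_nonneg ha hR.le]
  · rw [hd2]
    refine (Complex.abs_re_le_norm _).trans (e2.trans ?_)
    rw [div_le_div_iff₀ (by positivity) (by positivity)]
    have : ((2 : ℕ).factorial : ℝ) = 2 := by norm_num [Nat.factorial]
    rw [this]
    nlinarith [mul_nonneg ha (sq_nonneg R)]

theorem Lf_ld (hG : AnGroup G) (hm : Minimal G) (hne : ¬ LebErgodic G)
    (hhyp : ∃ f ∈ Lf G, ∃ p : ℝ, f p = p ∧ deriv (f : ℝ → ℝ) p ≠ 1) (x R : ℝ) (hR : 0 < R) :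
    ∃ ε > 0, ∀ f ∈ Lf G, NI f x R ε → f = 1 := by
  by_contra hcon
  push Not at hcon
  -- the sequence
  set δ : ℝ := min 1 (R ^ 2) with hδ
  have hδ0 : 0 < δ := lt_min one_pos (by positivity)
  have hε : ∀ n : ℕ, 0 < δ / (n + 1) := fun n => by positivity
  choose f hfL hfN hf1 using fun n : ℕ => hcon (δ / (n + 1)) (hε n)
  choose g hgG hgf using hfL
  have hεle : ∀ n : ℕ, δ / ((n : ℝ) + 1) ≤ δ := by
    intro n
    apply div_le_self hδ0.le
    have : (0 : ℝ) ≤ n := Nat.cast_nonneg n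
    linarith
  have hnr : ∀ n : ℕ, ∀ {y : ℝ}, |y - x| ≤ R / 2 →
      |f n y - y| ≤ δ / (n + 1) ∧ |deriv (f n : ℝ → ℝ) y - 1| ≤ 8 * (δ / (n + 1)) / R ∧
      |deriv (deriv (f n : ℝ → ℝ)) y| ≤ 100 * (δ / (n + 1)) / R ^ 2 := fun n y hy =>
    ni_real (isL_c2 hG (hgG n) (hgf n)).1 hR (hfN n) hy
  have hx : |x - x| ≤ R / 2 := by
    rw [sub_self, abs_zero]; positivity
  have hg1 : ∀ n, g n ≠ 1 := by
    intro n hn
    have h1 := hgf n
    rw [hn] at h1
    obtain ⟨k, hk⟩ := isL_one h1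
    have h2 := (hnr n hx).1
    rw [hk, tt_zpow] at h2
    have h3 : |(k : ℝ) * (2 * Real.pi)| ≤ 1 := by
      have : x + (k : ℝ) * (2 * Real.pi) - x = (k : ℝ) * (2 * Real.pi) := by ring
      rw [this] at h2
      exact h2.trans ((hεle n).trans (min_le_left _ _))
    have hk0 : k = 0 := by
      by_contra hk0
      have h4 : (1 : ℝ) ≤ |(k : ℝ)| := by
        rw [← Int.cast_abs]
        exact_mod_cast Int.one_le_abs hk0
      rw [abs_mul, abs_of_pos Real.two_pi_pos] at h3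
      nlinarith [Real.pi_gt_three]
    rw [hk0, zpow_zero] at hk
    exact hf1 n hk
  obtain ⟨f0, ⟨g0, hg0, hf0⟩, p, hp, hdp⟩ := hhyp
  have hlift := isL_isLift hG hg0 hf0
  have hfix : FixLift p g0 (f0 : ℝ → ℝ) := ⟨hlift.1, hlift.2, hp⟩
  have hlim : Tendsto (fun n : ℕ => δ / ((n : ℝ) + 1)) atTop (𝓝 0) := by
    have h1 := tendsto_one_div_add_atTop_nhds_zero_nat (𝕜 := ℝ)
    have h2 := h1.const_mul δ
    simp only [mul_one_div, mul_zero] at h2
    exact h2
  have hmem : ∀ t ∈ Ioo (x - R / 2) (x + R / 2), |t - x| ≤ R / 2 := by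
    intro t ht
    rw [abs_le]
    constructor <;> linarith [ht.1, ht.2]
  apply hne
  refine disc (an_c2 hG) hm hg0 hfix hdp ?_ (α := x - R / 2) (β := x + R / 2) (by linarith)
    (U := fun n => (f n : ℝ → ℝ)) ?_ ?_ ?_ ?_ (M := 100 * δ / R ^ 2) ?_
  · intro g hg hpos hgp hg1
    obtain ⟨f, hf⟩ := exists_isL (an_c2 hG) hg hpos
    obtain ⟨f', hf', hp'⟩ := exists_isL_fix hf hgp
    exact (an_iso_circle hG hg hf' hg1 hp').filter_mono
      (nhdsWithin_mono _ fun t ht => ne_of_gt ht)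
  · intro n
    exact ⟨g n, hgG n, hg1 n, fun t _ => hgf n t⟩
  · intro n
    exact (isL_c2 hG (hgG n) (hgf n)).1.contDiffOn
  · intro ε hε
    obtain ⟨N, hN⟩ := (hlim.eventually (gt_mem_nhds hε)).exists_forall_of_atTop
    refine ⟨N, fun n hn t ht => (hnr n (hmem t ht)).1.trans_lt (hN n hn)⟩
  · intro ε hε
    have h2 : Tendsto (fun n : ℕ => 8 * (δ / ((n : ℝ) + 1)) / R) atTop (𝓝 0) := by
      have := (hlim.const_mul 8).div_const R
      simpa using this
    obtain ⟨N, hN⟩ := (h2.eventually (gt_mem_nhds hε)).exists_forall_of_atTop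
    refine ⟨N, fun n hn t ht => (hnr n (hmem t ht)).2.1.trans_lt (hN n hn)⟩
  · intro n t ht
    refine (hnr n (hmem t ht)).2.2.trans ?_
    have := hεle n
    gcongr

end Pool.Agent.H50.GSD
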