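import Mathlib
import Pool.Agent.H25.KH.Main
import Pool.Agent.H50.GSD.D2

/-!
# GD-KR: rational rotation numbers, from the Katok-Herman theorem
-/

set_option autoImplicit false
open Set Filter Topology MeasureTheory

namespace Pool.Agent.H50.GSD

open Pool.Agent.H52.GS (TT)
open Pool.Agent.H50.GS

theorem Lf_rat {G : Subgroup (Circle ≃ₜ Circle)} (hG : AnGroup G) (hne : ¬ LebErgodic G) :
    ∀ f ∈ Lf G, ∃ q : ℕ, 0 < q ∧ ∃ k : ℤ, ∃ z : ℝ, (f ^ q) z = z + k * (2 * Real.pi) := by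
  rintro f ⟨g, hg, hf⟩
  by_contra hcon
  have hfree : Free f := fun q hq k z hz => hcon ⟨q, hq, k, z, hz⟩
  apply hne
  intro A hA hinv
  have hc := isL_c2 hG hg hf
  refine H25.KH.katok_herman f (isL_per hf) hc.1 hc.2 hfree _ hA (fun x => ?_) (fun x => ?_)
  · rw [mem_preimage, mem_preimage, hf x]
    have h2 := hinv g hg
    rw [← mem_preimage (f := ⇑g), h2]
  · rw [mem_preimage, mem_preimage]
    have h1 : Circle.exp (x + 2 * Real.pi) = Circle.exp x :=
      Circle.exp_eq_exp.2 ⟨1, by simp⟩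
    rw [h1]

end Pool.Agent.H50.GSD
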