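import Mathlib
import Pool.Agent.H50.GSD.D3
import Pool.Agent.H50.GSD.D4
import Pool.Agent.H50.GSD.D7
import Pool.Agent.H50.GSD.D8
import Pool.Agent.H50.GSD.D9
import Pool.Agent.H50.GSD.D10
import Pool.Agent.H50.GSD.D11
import Pool.Agent.H50.GSD.D12
import Pool.Agent.H50.GSD.D13
import Pool.Agent.H50.GSD.KR

/-!
# GD-14: the standing facts hold for the group of lifts
-/

set_option autoImplicit false
open Set Filter Topology MeasureTheory

namespace Pool.Agent.H50.GSD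

open Pool.Agent.H52.GS (TT Uni Ext NI Gp BB)
open Pool.Agent.H50.GS

theorem gp {G : Subgroup (Circle ≃ₜ Circle)} (hG : AnGroup G) (hm : Minimal G)
    (hne : ¬ LebErgodic G) (hfg : G.FG)
    (hfix : ∃ f ∈ Lf G, f ≠ 1 ∧ ∃ z : ℝ, f z = z)
    (koe : ∃ C : ℝ, 1 ≤ C ∧ ∀ w ∈ Lf G, ∀ x r : ℝ, 0 < r → Uni w x r → ∀ y : ℝ,
      |y - x| ≤ r / 2 → deriv (w : ℝ → ℝ) x / C ≤ deriv (w : ℝ → ℝ) y ∧
        deriv (w : ℝ → ℝ) y ≤ C * deriv (w : ℝ → ℝ) x) : Gp (Lf G) := by
  have hrat := Lf_rat hG hne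
  have hhyp := exists_hyp hG hm hfix
  exact
    { T_mem := TT_mem
      comm := fun f hf x => by
        obtain ⟨g, hg, hgf⟩ := hf
        exact isL_per hgf x
      cnt := Lf_cnt hfg
      ext := fun f hf => by
        obtain ⟨g, hg, hgf⟩ := hf
        obtain ⟨h1, h2⟩ := isL_an hG hg hgf
        exact ext_strip (isL_per hgf) h1 h2
      stab := Lf_stab hG hm hne
      rat := hrat
      ld := fun x R hR => Lf_ld hG hm hne hhyp x R hR
      expd := Lf_expd (an_c2 hG) hm hfix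
      thin := Lf_thin hG hm hne koe }

end Pool.Agent.H50.GSD
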