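import Mathlib
import Pool.Agent.H50.GSD.D14
import Pool.Agent.H52.GS.A6

/-!
# GD-15: the standing facts hold for the group of lifts, with Koebe's theorem inserted, and the
reduction of ergodicity to a statement on `Gp`
-/

set_option autoImplicit false
open Set Filter Topology MeasureTheory

namespace Pool.Agent.H50.GSD

open Pool.Agent.H52.GS (TT Uni Ext NI Gp BB)
open Pool.Agent.H50.GS

theorem koe16 (G : Subgroup (Circle ≃ₜ Circle)) :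
    ∃ C : ℝ, 1 ≤ C ∧ ∀ w ∈ Lf G, ∀ x r : ℝ, 0 < r → Uni w x r → ∀ y : ℝ,
      |y - x| ≤ r / 2 → deriv (w : ℝ → ℝ) x / C ≤ deriv (w : ℝ → ℝ) y ∧
        deriv (w : ℝ → ℝ) y ≤ C * deriv (w : ℝ → ℝ) x := by
  refine ⟨16, by norm_num, fun w _ x r hr hw y hy => ?_⟩
  have h := Pool.Agent.H52.GS.A6_bd (ρ := 1 / 2) hr (by norm_num) (by norm_num) hw (t := y)
    (by linarith)
  norm_num at h
  constructor
  · linarith [h.1]
  · linarith [h.2]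

theorem gp' {G : Subgroup (Circle ≃ₜ Circle)} (hG : AnGroup G) (hm : Minimal G)
    (hne : ¬ LebErgodic G) (hfg : G.FG)
    (hfix : ∃ f ∈ Lf G, f ≠ 1 ∧ ∃ z : ℝ, f z = z) : Gp (Lf G) :=
  gp hG hm hne hfg hfix (koe16 G)

/-- reduction of the main theorem to a statement on groups of homeomorphisms of the line -/
theorem ergodic_of {G : Subgroup (Circle ≃ₜ Circle)} (hG : AnGroup G) (hm : Minimal G)
    (hfg : G.FG) (htor : BddTorsion G)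
    (hcon : ∀ Γ : Subgroup (ℝ ≃o ℝ), Gp Γ →
      (∃ Q : ℕ, 0 < Q ∧ ∀ f ∈ Γ, (∃ q : ℕ, 0 < q ∧ ∃ k : ℤ, f ^ q = TT ^ k) →
        ∃ k : ℤ, f ^ Q = TT ^ k) → (∃ S : Set (ℝ ≃o ℝ), S.Finite ∧ S ⊆ Γ ∧
      (1 : ℝ ≃o ℝ) ∈ S ∧ (∀ s ∈ S, s⁻¹ ∈ S) ∧ ∀ f ∈ Γ, ∃ n, f ∈ BB S n) → False) :
    LebErgodic G := by
  by_contra hne
  exact hcon (Lf G) (gp' hG hm hne hfg (exists_fix (an_c2 hG) hm htor (Lf_rat hG hne)))
    (Lf_tor htor) (Lf_gen (an_c2 hG) hfg)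

end Pool.Agent.H50.GSD
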