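import Mathlib
import Pool.Agent.H50.GSD.D15
import Pool.Agent.H50.GSD.D16
import Pool.Agent.H50.GSD.D17
import Pool.Agent.H52.GS.Full

/-!
# GD-18: finitely generated minimal groups of real-analytic circle diffeomorphisms are ergodic
-/

set_option autoImplicit false
open Set Filter Topology MeasureTheory

namespace Pool.Agent.H50.GSD

open Pool.Agent.H52.GS (TT Uni Ext NI Gp BB)
open Pool.Agent.H50.GS

theorem ergodic_full {G : Subgroup (Circle ≃ₜ Circle)} (hG : AnGroup G) (hm : Minimal G)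
    (hfg : G.FG) : LebErgodic G := by
  by_contra hne
  have hC := an_c2 hG
  have hgp : Gp (Lf G) := gp' hG hm hne hfg (exists_fix_fg hC hm hfg (Lf_rat hG hne))
  obtain ⟨A, hA, hinv, hpos⟩ := inv_set hC hm hne
  obtain ⟨S, hSf, hSΓ, h1, -, hgen⟩ := Lf_gen hC hfg
  exact Pool.Agent.H52.GS.main_full hgp hA hinv hpos hSf hSΓ h1 hgen

end Pool.Agent.H50.GSD
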