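import Mathlib
import Pool.Agent.H50.GSD.Def

/-!
# GD-K0: the continued fraction algorithm of a circle homeomorphism without periodic points

`f : ℝ ≃o ℝ` commutes with `TT` (`Per f`) and no `f^q TT^k` with `q ≠ 0` has a fixed point
(`Free f`, `free_zpow`).  A state consists of `a = f^q TT^*` and `b = f^(-q') TT^*`, both moving all
points to the right, such that the intervals `f^i [z, a z)`, `i < q'`, and `f^j [b⁻¹ z, z)`,
`j < q`, tile the circle.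
-/

set_option autoImplicit false
open Set Filter Topology MeasureTheory

namespace Pool.Agent.H50.GSD

open Pool.Agent.H52.GS (TT)

/-- a state of the continued fraction algorithm -/
structure St (f a b : ℝ ≃o ℝ) (q q' : ℕ) : Prop where
  ha : ∃ k : ℤ, a = f ^ q * TT ^ k
  hb : ∃ k : ℤ, b⁻¹ = f ^ q' * TT ^ k
  posa : ∀ z : ℝ, z < a z
  posb : ∀ z : ℝ, z < b z
  qpos : 0 < q
  tot : ∀ z : ℝ, ∑ i ∈ Finset.range q', ((f ^ i) (a z) - (f ^ i) z) +
    ∑ j ∈ Finset.range q, ((f ^ j) z - (f ^ j) ((b⁻¹ : ℝ ≃o ℝ) z)) = 2 * Real.pi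
  cov : ∀ z y : ℝ,
    (∃ i < q', ∃ m : ℤ, (f ^ i) z ≤ (TT ^ m) y ∧ (TT ^ m) y < (f ^ i) (a z)) ∨
    (∃ j < q, ∃ m : ℤ, (f ^ j) ((b⁻¹ : ℝ ≃o ℝ) z) ≤ (TT ^ m) y ∧ (TT ^ m) y < (f ^ j) z)

end Pool.Agent.H50.GSD
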