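import Mathlib
import Pool.Agent.H50.GSD.K0
import Pool.Agent.H50.GSD.D1

/-!
# GD-K1: the continued fraction algorithm, basic facts and initial state

See `K0.lean` for the definition of a state `St f a b q q'`.  Products are compositions
(`RelIso.mul_apply`, `RelIso.inv_apply_self`, `RelIso.apply_inv_self`).

PROOFS.
* `st_comm`, `st_coma`, `st_comb`: everything is a product of powers of the commuting elements
  `f` and `TT` (`per_comm`; `Commute` calculus).
* `st_pera`, `st_perb`: `per_mul`, `per_pow`, `per_inv` and `TT ^ k` is `Per` (`tt_zpow`).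
* `st_init`: let `k = ⌊f 0 / (2 pi)⌋`, `a = f * TT ^ (-k)`.  Then `0 ≤ a 0`, and `a z ≠ z` for all
  `z` (`free_zpow` with `n = 1`), so `z < a z` for all `z`: otherwise the continuous function
  `a z - z` would have a zero.  `posb`: `TT z = z + 2 pi`.  `tot`: the sum over `range 0` is `0`, the
  sum over `range 1` is `z - (z - 2 pi)`.  `cov`: the second alternative with `j = 0` and
  the integer `m` with `z - 2 pi ≤ y + m 2 pi < z` (`existsUnique_add_zsmul_mem_Ico`, or
  `toIcoMod`, or floor).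
* `st_tri`: `c = a * b⁻¹ = f^(q+q') TT^*`, `q + q' > 0`, so `c z ≠ z` for all `z` (`free_zpow`), and
  by continuity either `c z > z` for all `z` or `c z < z` for all `z`; put `z = b w` (`a`, `b`
  commute).
-/

set_option autoImplicit false
open Set Filter Topology MeasureTheory

namespace Pool.Agent.H50.GSD

open Pool.Agent.H52.GS (TT)

variable {f a b : ℝ ≃o ℝ} {q q' : ℕ}

theorem K1_c (hper : Per f) : Commute f TT := by
  have h1 := per_comm hper 1
  rw [zpow_one] at h1
  exact h1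

theorem K1_perTT (k : ℤ) : Per (TT ^ k) := fun x => by
  rw [tt_zpow, tt_zpow]
  ring

theorem K1_a (hper : Per f) (h : St f a b q q') :
    ∃ k : ℤ, ∀ (i : ℕ) (x : ℝ), (f ^ i) (a x) = (f ^ (i + q)) x + k * (2 * Real.pi) := by
  obtain ⟨k, hk⟩ := h.ha
  refine ⟨k, fun i x => ?_⟩
  rw [hk, RelIso.mul_apply, tt_zpow, per_int (per_pow hper q), per_int (per_pow hper i), pow_add,
    RelIso.mul_apply]

theorem K1_ab (hper : Per f) (h : St f a b q q') :
    ∃ k : ℤ, a * b⁻¹ = f ^ (q + q') * TT ^ k := by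
  obtain ⟨k, hk⟩ := h.ha
  obtain ⟨k', hk'⟩ := h.hb
  refine ⟨k + k', ?_⟩
  have hc : Commute (TT ^ k) (f ^ q') := ((K1_c hper).symm.zpow_left k).pow_right q'
  rw [hk, hk', pow_add, zpow_add, mul_assoc, ← mul_assoc (TT ^ k), hc.eq]
  simp only [mul_assoc]

theorem st_comm (hper : Per f) (h : St f a b q q') : a * b = b * a := by
  obtain ⟨k, hk⟩ := h.ha
  obtain ⟨k', hk'⟩ := h.hb
  have hc := K1_c hper
  have h1 : Commute a b⁻¹ := by
    rw [hk, hk']
    refine Commute.mul_left (Commute.mul_right ?_ ?_) (Commute.mul_right ?_ ?_)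
    · exact Commute.pow_pow_self f q q'
    · exact (hc.zpow_right k').pow_left q
    · exact ((hc.zpow_right k).pow_left q').symm
    · exact Commute.zpow_zpow_self TT k k'
  exact (Commute.inv_right_iff.1 h1).eq

theorem st_coma (hper : Per f) (h : St f a b q q') (n : ℤ) : a * f ^ n = f ^ n * a := by
  obtain ⟨k, hk⟩ := h.ha
  have hc := K1_c hper
  have h1 : Commute a (f ^ n) := by
    rw [hk]
    refine Commute.mul_left ?_ ?_
    · exact ((Commute.refl f).pow_left q).zpow_right n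
    · exact (hc.symm.zpow_left k).zpow_right n
  exact h1.eq

theorem st_comb (hper : Per f) (h : St f a b q q') (n : ℤ) : b * f ^ n = f ^ n * b := by
  obtain ⟨k, hk⟩ := h.hb
  have hc := K1_c hper
  have h1 : Commute b⁻¹ (f ^ n) := by
    rw [hk]
    refine Commute.mul_left ?_ ?_
    · exact ((Commute.refl f).pow_left q').zpow_right n
    · exact (hc.symm.zpow_left k).zpow_right n
  exact (Commute.inv_left_iff.1 h1).eq

theorem st_pera (hper : Per f) (h : St f a b q q') : Per a := by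
  obtain ⟨k, hk⟩ := h.ha
  rw [hk]
  exact per_mul (per_pow hper q) (K1_perTT k)

theorem st_perb (hper : Per f) (h : St f a b q q') : Per b := by
  obtain ⟨k, hk⟩ := h.hb
  have h1 : Per b⁻¹ := by
    rw [hk]
    exact per_mul (per_pow hper q') (K1_perTT k)
  have h2 := per_inv h1
  rwa [inv_inv] at h2

theorem K1_sign {u v : ℝ ≃o ℝ} (hne : ∀ z, u z ≠ v z) :
    (∀ z, v z < u z) ∨ ∀ z, u z < v z := by
  by_contra hcon
  rw [not_or] at hcon
  obtain ⟨h1, h2⟩ := hcon
  rw [not_forall] at h1 h2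
  obtain ⟨x, hx⟩ := h1
  obtain ⟨y, hy⟩ := h2
  have hc : Continuous fun z : ℝ => u z - v z := u.continuous.sub v.continuous
  obtain ⟨z, hz⟩ := mem_range_of_exists_le_of_exists_ge (c := (0 : ℝ)) hc
    ⟨x, sub_nonpos.2 (not_lt.1 hx)⟩ ⟨y, sub_nonneg.2 (not_lt.1 hy)⟩
  exact hne z (sub_eq_zero.1 hz)

theorem K1_inv (z : ℝ) : ((TT⁻¹ : ℝ ≃o ℝ)) z = z - 2 * Real.pi := by
  have h1 := tt_zpow (-1) z
  rw [zpow_neg_one] at h1
  rw [h1]
  push_cast
  ring

theorem st_init (hper : Per f) (hfree : Free f) : ∃ a, St f a TT 1 0 := by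
  have hpi : (0 : ℝ) < 2 * Real.pi := by positivity
  obtain ⟨k, hk⟩ : ∃ k : ℤ, k = ⌊f 0 / (2 * Real.pi)⌋ := ⟨_, rfl⟩
  have hne : ∀ z, (f * TT ^ (-k)) z ≠ (1 : ℝ ≃o ℝ) z := fun z hz => by
    refine free_zpow hper hfree one_ne_zero (-k) z ?_
    rw [zpow_one]
    exact hz
  have h0 : 0 ≤ (f * TT ^ (-k)) 0 := by
    rw [RelIso.mul_apply, tt_zpow, per_int hper]
    have h1 : (k : ℝ) ≤ f 0 / (2 * Real.pi) := by rw [hk]; exact Int.floor_le _
    rw [le_div_iff₀ hpi] at h1
    push_cast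
    linarith
  have hpos : ∀ z, z < (f * TT ^ (-k)) z := by
    rcases K1_sign hne with h | h
    · exact h
    · exact absurd (h 0) (not_lt.2 h0)
  refine ⟨f * TT ^ (-k), ⟨⟨-k, by rw [pow_one]⟩, ⟨-1, by rw [pow_zero, one_mul, zpow_neg_one]⟩,
    hpos, fun z => ?_, one_pos, fun z => ?_, fun z y => Or.inr ?_⟩⟩
  · change z < z + 2 * Real.pi
    linarith
  · rw [Finset.sum_range_zero, Finset.sum_range_one, pow_zero, RelIso.one_apply, RelIso.one_apply,
      K1_inv]
    ring
  · obtain ⟨m, hm, -⟩ := existsUnique_add_zsmul_mem_Ico hpi y (z - 2 * Real.pi)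
    refine ⟨0, one_pos, m, ?_⟩
    rw [pow_zero, RelIso.one_apply, RelIso.one_apply, K1_inv, tt_zpow]
    simp only [zsmul_eq_mul, mem_Ico] at hm
    exact ⟨hm.1, by linarith [hm.2]⟩

theorem st_tri (hper : Per f) (hfree : Free f) (h : St f a b q q') :
    (∀ z, b z < a z) ∨ ∀ z, a z < b z := by
  refine K1_sign fun z hz => ?_
  obtain ⟨k, hk⟩ := K1_ab hper h
  have hq := h.qpos
  refine free_zpow hper hfree (n := ((q + q' : ℕ) : ℤ)) (by omega) k (b z) ?_
  rw [zpow_natCast, ← hk, RelIso.mul_apply, RelIso.inv_apply_self]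
  exact hz

end Pool.Agent.H50.GSD
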