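import Mathlib
import Pool.Agent.H50.GSD.K1

/-!
# GD-K2: the continued fraction algorithm, step A

See `K0.lean` for the definition of a state `St f a b q q'`.  All maps commute (`st_comm`,
`st_coma`, `st_comb`, `per_comm`).

PROOF of `st_stepA` (`b < a`, new state `(a * b⁻¹, b, q + q', q')`).
* `ha`: `a b⁻¹ = f^q TT^k f^q' TT^k' = f^(q+q') TT^(k+k')`.
* `posa`: `(a b⁻¹) z = b⁻¹ (a z) > z` as `a z > b z` (apply `b⁻¹`, strictly increasing).
* `tot`: write `w = (a b⁻¹) z = b⁻¹ (a z)`, and `a = f^q TT^k`.  For `i < q'`: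
  `f^i (a z) - f^i z = (f^i w - f^i z) + (f^i (a z) - f^i w)` and
  `f^i (a z) - f^i (a (b⁻¹ z)) = f^(i+q) z - f^(i+q) (b⁻¹ z)` (the translation `TT^k` commutes with
  everything and cancels in the difference: `f^i (a x) = f^(i+q) x + k 2 pi` by `tt_zpow`,
  `per_int`).  Sum over `i < q'` and use
  `∑ j ∈ range (q + q') = ∑ j ∈ range q + ∑ i ∈ range q'` (terms `q + i`)
  (`Finset.sum_range_add`... or `Finset.sum_range_add_sum...`, `Finset.range_add`-type lemma
  `Finset.prod_range_add`/`Finset.sum_range_add`).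
* `cov`: if the old alternative 1 holds with `(i, m)`: either `(TT^m) y < f^i w`, and the new
  alternative 1 holds with `(i, m)`; or `f^i w ≤ (TT^m) y < f^i (a z)`; with
  `f^i (a z) = f^(i+q) z + k 2 pi` and `f^i w = f^i (a (b⁻¹ z)) = f^(i+q) (b⁻¹ z) + k 2 pi` the new
  alternative 2 holds with `(i + q, m - k)` (`(TT^(m-k)) y = (TT^m) y - k 2 pi`).  The old
  alternative 2 is contained in the new alternative 2.
-/

set_option autoImplicit false
open Set Filter Topology MeasureTheory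

namespace Pool.Agent.H50.GSD

open Pool.Agent.H52.GS (TT)

variable {f a b : ℝ ≃o ℝ} {q q' : ℕ}

theorem st_stepA (hper : Per f) (h : St f a b q q') (hlt : ∀ z, b z < a z) :
    St f (a * b⁻¹) b (q + q') q' := by
  obtain ⟨k, hk⟩ := K1_a hper h
  have hq := h.qpos
  refine ⟨K1_ab hper h, h.hb, fun z => ?_, h.posb, by omega, fun z => ?_, fun z y => ?_⟩
  · have h1 := hlt ((b⁻¹ : ℝ ≃o ℝ) z)
    rw [RelIso.apply_inv_self] at h1
    exact h1
  · have h1 := h.tot z
    have h2 : ∑ i ∈ Finset.range q', ((f ^ i) (a z) - (f ^ i) z) =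
        ∑ i ∈ Finset.range q', ((f ^ i) ((a * b⁻¹) z) - (f ^ i) z) +
        ∑ i ∈ Finset.range q', ((f ^ (q + i)) z - (f ^ (q + i)) ((b⁻¹ : ℝ ≃o ℝ) z)) := by
      rw [← Finset.sum_add_distrib]
      refine Finset.sum_congr rfl fun i _ => ?_
      rw [RelIso.mul_apply, hk, hk, add_comm q i]
      ring
    have h3 := Finset.sum_range_add (fun j => (f ^ j) z - (f ^ j) ((b⁻¹ : ℝ ≃o ℝ) z)) q q'
    rw [h3]
    linarith
  · have hTT : ∀ m : ℤ, (TT ^ (m - k)) y = (TT ^ m) y - k * (2 * Real.pi) := fun m => by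
      rw [tt_zpow, tt_zpow]
      push_cast
      ring
    rcases h.cov z y with ⟨i, hi, m, h1, h2⟩ | ⟨j, hj, m, h1, h2⟩
    · rcases lt_or_ge ((TT ^ m) y) ((f ^ i) ((a * b⁻¹) z)) with h3 | h3
      · exact Or.inl ⟨i, hi, m, h1, h3⟩
      · refine Or.inr ⟨i + q, by omega, m - k, ?_, ?_⟩
        · rw [RelIso.mul_apply, hk] at h3
          rw [hTT]
          linarith
        · rw [hk] at h2
          rw [hTT]
          linarith
    · exact Or.inr ⟨j, by omega, m, h1, h2⟩

end Pool.Agent.H50.GSD
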