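import Mathlib
import Pool.Agent.H50.GSD.K1

/-!
# GD-K3: the continued fraction algorithm, step B

See `K0.lean` for the definition of a state `St f a b q q'`.  All maps commute (`st_comm`,
`st_coma`, `st_comb`, `per_comm`).

PROOF of `st_stepB` (`a < b`, new state `(a, b * a⁻¹, q, q + q')`).  `b⁻¹ = f^q' TT^k'`,
`b' = b a⁻¹`, `b'⁻¹ = a b⁻¹` (`mul_inv_rev`).
* `hb`: `b'⁻¹ = a b⁻¹ = f^q TT^k f^q' TT^k' = f^(q+q') TT^(k+k')`.
* `posb`: `b' z = a⁻¹ (b z) > z` as `a z < b z`.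
* `tot`: write `w = b⁻¹ z`; then `w < a w < z` (`a w < b w = z`), `b'⁻¹ z = a w`.  For `j < q`:
  `f^j z - f^j w = (f^j z - f^j (a w)) + (f^j (a w) - f^j w)` and
  `f^j (a w) - f^j w = f^j (b⁻¹ (a z)) - f^j (b⁻¹ z) = f^(j+q') (a z) - f^(j+q') z` (the translation
  `TT^k'` cancels in the difference: `f^j (b⁻¹ x) = f^(j+q') x + k' 2 pi` by `tt_zpow`, `per_int`).
  Sum over `j < q` and use `∑ i ∈ range (q + q') = ∑ i ∈ range q' + ∑ j ∈ range q` (terms
  `q' + j`) (`Finset.sum_range_add`-type lemma, `add_comm`).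
* `cov`: the old alternative 1 is contained in the new alternative 1.  If the old alternative 2
  holds with `(j, m)`, `f^j w ≤ (TT^m) y < f^j z`: either `f^j (a w) ≤ (TT^m) y`, and the new
  alternative 2 holds with `(j, m)`; or `f^j w ≤ (TT^m) y < f^j (a w)`; with
  `f^j w = f^(j+q') z + k' 2 pi`, `f^j (a w) = f^(j+q') (a z) + k' 2 pi` the new alternative 1 holds
  with `(j + q', m - k')`.
-/

set_option autoImplicit false
open Set Filter Topology MeasureTheory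

namespace Pool.Agent.H50.GSD

open Pool.Agent.H52.GS (TT)

variable {f a b : ℝ ≃o ℝ} {q q' : ℕ}

theorem K3_b (hper : Per f) (h : St f a b q q') :
    ∃ k : ℤ, ∀ (i : ℕ) (x : ℝ),
      (f ^ i) ((b⁻¹ : ℝ ≃o ℝ) x) = (f ^ (q' + i)) x + k * (2 * Real.pi) := by
  obtain ⟨k, hk⟩ := h.hb
  refine ⟨k, fun i x => ?_⟩
  rw [hk, RelIso.mul_apply, tt_zpow, per_int (per_pow hper q'), per_int (per_pow hper i),
    add_comm q' i, pow_add, RelIso.mul_apply]

theorem st_stepB (hper : Per f) (h : St f a b q q') (hlt : ∀ z, a z < b z) :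
    St f a (b * a⁻¹) q (q + q') := by
  have hinv : (b * a⁻¹)⁻¹ = a * b⁻¹ := by rw [mul_inv_rev, inv_inv]
  have hab : a * b⁻¹ = b⁻¹ * a := by
    have h1 := st_comm hper h
    have h2 : Commute a b := h1
    exact (Commute.inv_right h2).eq
  obtain ⟨k, hk⟩ := K3_b hper h
  refine ⟨h.ha, ?_, h.posa, fun z => ?_, h.qpos, fun z => ?_, fun z y => ?_⟩
  · obtain ⟨m, hm⟩ := K1_ab hper h
    exact ⟨m, by rw [hinv, hm]⟩
  · have h1 := hlt ((a⁻¹ : ℝ ≃o ℝ) z)
    rw [RelIso.apply_inv_self] at h1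
    rw [RelIso.mul_apply]
    exact h1
  · have h1 := h.tot z
    rw [hinv]
    rw [add_comm q q', Finset.sum_range_add, add_assoc]
    rw [← h1]
    congr 1
    rw [← Finset.sum_add_distrib]
    refine Finset.sum_congr rfl fun j _ => ?_
    have e1 : (a * b⁻¹) z = (b⁻¹ : ℝ ≃o ℝ) (a z) := by rw [hab, RelIso.mul_apply]
    rw [e1, hk j (a z), hk j z]
    ring
  · rw [hinv]
    have e1 : (a * b⁻¹) z = (b⁻¹ : ℝ ≃o ℝ) (a z) := by rw [hab, RelIso.mul_apply]
    rw [e1]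
    rcases h.cov z y with ⟨i, hi, m, h1, h2⟩ | ⟨j, hj, m, h1, h2⟩
    · exact Or.inl ⟨i, by omega, m, h1, h2⟩
    · rcases le_or_gt ((f ^ j) ((b⁻¹ : ℝ ≃o ℝ) (a z))) ((TT ^ m) y) with h3 | h3
      · exact Or.inr ⟨j, hj, m, h3, h2⟩
      · refine Or.inl ⟨q' + j, by omega, m - k, ?_, ?_⟩
        · rw [hk j z, tt_zpow] at h1
          rw [tt_zpow]
          push_cast
          linarith
        · rw [hk j (a z), tt_zpow] at h3
          rw [tt_zpow]
          push_cast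
          linarith

end Pool.Agent.H50.GSD
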