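import Mathlib
import Pool.Agent.H50.GSD.K2
import Pool.Agent.H50.GSD.K3

/-!
# GD-K4: the continued fraction algorithm, existence of late states

See `K0.lean` for the definition of a state `St f a b q q'`.

PROOFS.
* `no_bound`: if `z < b z` for all `z` then for all `z, x` there is `n` with `x < (b ^ n) z`: the
  sequence `n ↦ (b ^ n) z` is strictly increasing; if it were bounded above it would converge to
  its supremum `L` (`tendsto_atTop_ciSup`), and by continuity of `b` (`OrderIso.continuous`)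
  `b L = L`, against `L < b L`.
* `st_runA`: from any state one reaches a state `(a₁, b, q₁, q')`, `q ≤ q₁`, with `a₁ < b`.  Suppose
  not.  Then for all `n : ℕ` there is `q₂ ≥ q` with `St f (a * (b⁻¹) ^ n) b q₂ q'`: induction on `n`,
  by `st_tri` (the alternative `a₂ < b` is excluded) and `st_stepA`.  So
  `z < (a * (b⁻¹) ^ n) z`, and as everything commutes (`st_comm`) `(b ^ n) z < a z` for all `n`, in
  contradiction to `no_bound`.
* `st_runB`: the same with `st_stepB`: for all `n` there is `q₂ ≥ q'` with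
  `St f a (b * (a⁻¹) ^ n) q q₂`.
* `st_exists`: induction on `N`.  `N = 0`: `st_init`.  Step: from a state with `N ≤ q`, `N ≤ q'`
  use `st_runA`, then `st_stepB` (`q'` becomes `q + q' ≥ N + 1` since `0 < q`, `St.qpos`), then
  `st_runB`, then `st_stepA` (`q` becomes `q + q' ≥ N + 1`).
-/

set_option autoImplicit false
open Set Filter Topology MeasureTheory

namespace Pool.Agent.H50.GSD

open Pool.Agent.H52.GS (TT)

variable {f a b : ℝ ≃o ℝ} {q q' : ℕ}

theorem no_bound (h : ∀ z, z < b z) (z x : ℝ) : ∃ n : ℕ, x < (b ^ n) z := by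
  by_contra hcon
  rw [not_exists] at hcon
  have hs : ∀ n : ℕ, (b ^ (n + 1)) z = b ((b ^ n) z) := fun n => by
    rw [pow_succ', RelIso.mul_apply]
  have hm : Monotone fun n : ℕ => (b ^ n) z := by
    refine monotone_nat_of_le_succ fun n => ?_
    rw [hs]
    exact (h _).le
  have hb : BddAbove (range fun n : ℕ => (b ^ n) z) := by
    refine ⟨x, ?_⟩
    rintro _ ⟨n, rfl⟩
    exact not_lt.1 (hcon n)
  have hl := tendsto_atTop_ciSup hm hb
  have hl1 := (tendsto_add_atTop_iff_nat 1).2 hl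
  have hl2 := (b.continuous.tendsto _).comp hl
  have he : (fun n : ℕ => (b ^ (n + 1)) z) = b ∘ fun n : ℕ => (b ^ n) z := funext fun n => hs n
  have h3 : b (⨆ n : ℕ, (b ^ n) z) = ⨆ n : ℕ, (b ^ n) z := by
    refine tendsto_nhds_unique hl2 ?_
    rw [← he]
    exact hl1
  exact absurd h3 (h _).ne'

theorem K4_com (hper : Per f) (h : St f a b q q') : Commute a b := st_comm hper h

theorem st_runA (hper : Per f) (hfree : Free f) (h : St f a b q q') :
    ∃ a₁ q₁, St f a₁ b q₁ q' ∧ q ≤ q₁ ∧ ∀ z, a₁ z < b z := by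
  by_contra hcon
  have key : ∀ n : ℕ, ∃ q₂, q ≤ q₂ ∧ St f (a * (b⁻¹) ^ n) b q₂ q' := by
    intro n
    induction n with
    | zero => exact ⟨q, le_rfl, by rw [pow_zero, mul_one]; exact h⟩
    | succ n ih =>
      obtain ⟨q₂, h1, h2⟩ := ih
      rcases (st_tri hper hfree h2).symm with h3 | h3
      · exact absurd ⟨_, q₂, h2, h1, h3⟩ hcon
      · refine ⟨q₂ + q', by omega, ?_⟩
        have h4 := st_stepA hper h2 h3
        rw [pow_succ, ← mul_assoc]
        exact h4
  have hc := K4_com hper h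
  obtain ⟨n, hn⟩ := no_bound h.posb 0 (a 0)
  obtain ⟨q₂, _, h2⟩ := key n
  have h3 := h2.posa ((b ^ n) 0)
  have h4 : (a * (b⁻¹) ^ n) ((b ^ n) 0) = a 0 := by
    rw [RelIso.mul_apply, ← RelIso.mul_apply ((b⁻¹) ^ n) (b ^ n), ← Commute.mul_pow
      (Commute.refl b).inv_left, inv_mul_cancel, one_pow]
    rfl
  rw [h4] at h3
  linarith

theorem st_runB (hper : Per f) (hfree : Free f) (h : St f a b q q') :
    ∃ b₁ q₁, St f a b₁ q q₁ ∧ q' ≤ q₁ ∧ ∀ z, b₁ z < a z := by
  by_contra hcon
  have key : ∀ n : ℕ, ∃ q₂, q' ≤ q₂ ∧ St f a (b * (a⁻¹) ^ n) q q₂ := by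
    intro n
    induction n with
    | zero => exact ⟨q', le_rfl, by rw [pow_zero, mul_one]; exact h⟩
    | succ n ih =>
      obtain ⟨q₂, h1, h2⟩ := ih
      rcases (st_tri hper hfree h2).symm with h3 | h3
      · refine ⟨q + q₂, by omega, ?_⟩
        have h4 := st_stepB hper h2 h3
        rw [pow_succ, ← mul_assoc]
        exact h4
      · exact absurd ⟨_, q₂, h2, h1, h3⟩ hcon
  obtain ⟨n, hn⟩ := no_bound h.posa 0 (b 0)
  obtain ⟨q₂, _, h2⟩ := key n
  have h3 := h2.posb ((a ^ n) 0)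
  have h4 : (b * (a⁻¹) ^ n) ((a ^ n) 0) = b 0 := by
    rw [RelIso.mul_apply, ← RelIso.mul_apply ((a⁻¹) ^ n) (a ^ n), ← Commute.mul_pow
      (Commute.refl a).inv_left, inv_mul_cancel, one_pow]
    rfl
  rw [h4] at h3
  linarith

theorem st_exists (hper : Per f) (hfree : Free f) (N : ℕ) :
    ∃ a b q q', St f a b q q' ∧ N ≤ q ∧ N ≤ q' := by
  induction N with
  | zero =>
    obtain ⟨a, ha⟩ := st_init hper hfree
    exact ⟨a, TT, 1, 0, ha, by omega, by omega⟩
  | succ N ih =>
    obtain ⟨a, b, q, q', h, h1, h2⟩ := ih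
    obtain ⟨a₁, q₁, h3, h4, h5⟩ := st_runA hper hfree h
    have h6 := st_stepB hper h3 h5
    have hq₁ := h3.qpos
    obtain ⟨b₁, q₂, h7, h8, h9⟩ := st_runB hper hfree h6
    have h10 := st_stepA hper h7 h9
    exact ⟨_, _, _, _, h10, by omega, by omega⟩

end Pool.Agent.H50.GSD
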