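import Mathlib
import Pool.Agent.H50.GSD.K4
import Pool.Agent.H50.GSD.K5

/-!
# GD-K6: Denjoy's theorem in the form: the intervals of the continued fraction algorithm shrink

See `K0.lean` for the definition of a state `St f a b q q'`; everything commutes (`st_comm`,
`st_coma`, `st_comb`).

PROOFS.
* `totA`: each term is nonnegative and at most `(f^i) (a z) - (f^i) z` (monotonicity), the sum over
  `i < n ≤ q'` is at most the first sum in `St.tot`, and the second sum is nonnegative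
  (`b⁻¹ z < z`).
* `totB`: the same with the second sum.
* `st_small`.  Suppose that for every state `x + δ ≤ a x` or `b⁻¹ x ≤ x - δ`.  By `st_exists`:
  (A) for every `N` there is a state with `N ≤ q`, `N ≤ q'`, `x + δ ≤ a x`, or
  (B) for every `N` there is a state with `N ≤ q`, `N ≤ q'`, `b⁻¹ x ≤ x - δ`.
  (If (A) fails for `N0` then all states with `q, q' ≥ N0` satisfy the second alternative.)
  In both cases apply `dj_core` with `B = 4 pi`.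
  Case (A): `s = x`, `t = x + δ`.  `hp n`: take a state as in (A) with `n ≤ q'`, `totA` with `z = x`.
  `hm n`: take a state as in (A) with `n + 1 ≤ q'`, `z = ((f⁻¹) ^ n) x`; then
  `((f⁻¹) ^ n) t ≤ ((f⁻¹) ^ n) (a x) = a z`, and for `i < n`,
  `((f⁻¹) ^ i) t = (f ^ (n - i)) (((f⁻¹) ^ n) t)`, so the sum over `i < n` is (reflected,
  `Finset.sum_range_reflect` or `Finset.sum_range_succ'`) at most
  `∑ l < n + 1, ((f ^ l) (((f⁻¹) ^ n) t) - (f ^ l) (((f⁻¹) ^ n) s)) ≤ 2 pi` by `totA`.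
  `hk N`: take a state as in (A) for `N`.
   - If `q ≤ q'`: `k = q`, `u = a⁻¹ x`, `v = a x`.  With `a = f^q TT^k0`,
     `((f⁻¹) ^ q) y = a⁻¹ y + k0 2 pi`: take `m = -k0`.  `u ≤ s`, `t ≤ v`, `u = a⁻¹ s`,
     `a⁻¹ t ≤ a⁻¹ (a x) = x ≤ v`.  The sum over `l < q` is the sum for `[x, a x]` plus the sum for
     `[a⁻¹ x, x]`, both `≤ 2 pi` by `totA` (`z = x`, `z = a⁻¹ x`).
   - If `q' < q`: `k = q'`, `u = x`, `v = b (a x)`.  With `b⁻¹ = f^q' TT^k'`,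
     `((f⁻¹) ^ q') y = b y + k' 2 pi`: take `m = -k'`.  `u ≤ s`, `t ≤ a x ≤ b (a x)`,
     `u = x ≤ b x`, `b t ≤ b (a x)`.  The sum over `l < q'` is the sum for `[x, a x]` (`totA`) plus
     the sum for `[a x, b (a x)]` (`totB` with `z = b (a x)`, as `q' ≤ q`).
  Case (B): `s = x - δ`, `t = x`.  `hp n`: `totB` with `z = x`, `n ≤ q`.  `hm n`: `totB` with
  `z = ((f⁻¹) ^ n) x`, `n + 1 ≤ q` (`b⁻¹ z ≤ ((f⁻¹) ^ n) s`).  `hk N`:
   - If `q' ≤ q`: `k = q'`, `u = b⁻¹ x`, `v = b x`: `u ≤ s`, `t = x ≤ b x`, `u ≤ x ≤ b s`,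
     `b t = b x`.  The sum over `l < q'` is the sum for `[b⁻¹ x, x]` plus the sum for `[x, b x]`
     (`totB` with `z = x`, `z = b x`).
   - If `q < q'`: `k = q`, `u = a⁻¹ (b⁻¹ x)`, `v = x`: `u ≤ b⁻¹ x ≤ s`, `t ≤ v`, `u ≤ a⁻¹ s`,
     `a⁻¹ t = a⁻¹ x ≤ x`.  The sum over `l < q` is the sum for `[b⁻¹ x, x]` (`totB`) plus the sum for
     `[a⁻¹ (b⁻¹ x), b⁻¹ x]` (`totA` with `z = a⁻¹ (b⁻¹ x)`, as `q ≤ q'`).
-/

set_option autoImplicit false
open Set Filter Topology MeasureTheory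

namespace Pool.Agent.H50.GSD

open Pool.Agent.H52.GS (TT)

variable {f a b : ℝ ≃o ℝ} {q q' : ℕ}

theorem totA (h : St f a b q q') {n : ℕ} (hn : n ≤ q') {z s t : ℝ} (h1 : z ≤ s) (h2 : s ≤ t)
    (h3 : t ≤ a z) : ∑ i ∈ Finset.range n, ((f ^ i) t - (f ^ i) s) ≤ 2 * Real.pi := by
  sorry

theorem totB (h : St f a b q q') {n : ℕ} (hn : n ≤ q) {z s t : ℝ}
    (h1 : (b⁻¹ : ℝ ≃o ℝ) z ≤ s) (h2 : s ≤ t) (h3 : t ≤ z) :
    ∑ i ∈ Finset.range n, ((f ^ i) t - (f ^ i) s) ≤ 2 * Real.pi := by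
  sorry

theorem st_small (hper : Per f) (hc : C2p f) (hfree : Free f) (x : ℝ) {δ : ℝ} (hδ : 0 < δ) :
    ∃ a b q q', St f a b q q' ∧ a x < x + δ ∧ x - δ < (b⁻¹ : ℝ ≃o ℝ) x := by
  sorry

end Pool.Agent.H50.GSD
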