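import Mathlib
import Pool.Agent.H50.GSD.K5

/-!
# GD-K7: measure of an invariant set in the image of an interval, and reduction modulo the period

PROOFS.
* `pow_inv_set`: `(f ^ n) y ∈ A ↔ y ∈ A` by induction.
* `img_dens`.  Let `g = f ^ i` (C², increasing, onto), `E = A ∩ Ico s t`.  By invariance
  `A ∩ Ico (g s) (g t) = g '' E`.  Let `K = exp (C S) (g t - g s) / (t - s)`; by the mean value
  theorem there is `ξ ∈ (s, t)` with `g t - g s = deriv g ξ (t - s)`, and for `y ∈ [s, t]`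
  `log (deriv g y) ≤ log (deriv g ξ) + C S` by `hC` (with `u = s`, `v = t`), so
  `0 < deriv g y ≤ K`.  `volume (g '' E) ≤ K * volume E`: e.g.
  `MeasureTheory.lintegral_abs_det_fderiv_eq_addHaar_image`, or
  `MeasureTheory.lintegral_image_eq_lintegral_abs_deriv_mul` with the function `1`
  (`volume (g '' E) = ∫⁻ y in E, |deriv g y|`), bounded by the constant `K` on `E`.
* `vol_mod`.  `A ∩ Ico 0 (2 pi)` is contained in the union over `n ∈ s` and `m : ℤ` of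
  `A ∩ Ico 0 (2 pi) ∩ {y | y + m 2 pi ∈ E n}`; by `measure_biUnion_finset_le`,
  `measure_iUnion_le` its measure is at most the sum over `n` of
  `∑' m, volume (A ∩ Ico 0 (2 pi) ∩ {y | y + m 2 pi ∈ E n})`, and by translation invariance
  (`measure_preimage_add_right`) the `m`-th term is
  `volume (A ∩ Ico (m 2 pi) ((m+1) 2 pi) ∩ E n)`; these sets are disjoint measurable subsets of
  `A ∩ E n` (`pairwise_disjoint_Ico_...`, `measure_iUnion`), so the sum over `m` is at most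
  `volume (A ∩ E n)`.
* `vol_per_zero`: `A` is the union of the translates of `A ∩ Ico 0 (2 pi)` by `m 2 pi`, `m : ℤ`.
-/

set_option autoImplicit false
open Set Filter Topology MeasureTheory

namespace Pool.Agent.H50.GSD

open Pool.Agent.H52.GS (TT)

variable {f : ℝ ≃o ℝ}

theorem K7_pow_inv_set {A : Set ℝ} (hinv : ∀ x, f x ∈ A ↔ x ∈ A) (n : ℕ) (y : ℝ) :
    (f ^ n) y ∈ A ↔ y ∈ A := by
  induction n with
  | zero => rw [pow_zero]; rfl
  | succ n ih => rw [pow_succ', RelIso.mul_apply, hinv, ih]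

theorem K7_zmem {A : Set ℝ} (hT : ∀ x, x + 2 * Real.pi ∈ A ↔ x ∈ A) (m : ℤ) (x : ℝ) :
    x + m * (2 * Real.pi) ∈ A ↔ x ∈ A := by
  induction m using Int.induction_on generalizing x with
  | zero => simp
  | succ n ih =>
    have h1 : x + ((n : ℤ) + 1 : ℤ) * (2 * Real.pi) =
        (x + 2 * Real.pi) + ((n : ℤ) : ℝ) * (2 * Real.pi) := by push_cast; ring
    rw [h1, ih, hT]
  | pred n ih =>
    have h1 : x + (-(n : ℤ) - 1 : ℤ) * (2 * Real.pi) =
        (x - 2 * Real.pi) + ((-(n : ℤ) : ℤ) : ℝ) * (2 * Real.pi) := by push_cast; ring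
    rw [h1, ih, ← hT, sub_add_cancel]

theorem K7_image {A : Set ℝ} {g : ℝ ≃o ℝ} (hinv : ∀ x, g x ∈ A ↔ x ∈ A) (s t : ℝ) :
    A ∩ Ico (g s) (g t) = g '' (A ∩ Ico s t) := by
  ext z
  constructor
  · rintro ⟨hz, h1, h2⟩
    obtain ⟨y, rfl⟩ := g.surjective z
    exact ⟨y, ⟨(hinv y).1 hz, g.le_iff_le.1 h1, g.lt_iff_lt.1 h2⟩, rfl⟩
  · rintro ⟨y, ⟨hy, h1, h2⟩, rfl⟩
    exact ⟨(hinv y).2 hy, g.le_iff_le.2 h1, g.lt_iff_lt.2 h2⟩

theorem img_dens (hc : C2p f) {C : ℝ} (hC : ∀ (n : ℕ) (u v s t : ℝ),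
    s ∈ Icc u v → t ∈ Icc u v →
    |Real.log (deriv ((f ^ n : ℝ ≃o ℝ) : ℝ → ℝ) s) -
      Real.log (deriv ((f ^ n : ℝ ≃o ℝ) : ℝ → ℝ) t)| ≤
      C * ∑ l ∈ Finset.range n, ((f ^ l) v - (f ^ l) u)) {A : Set ℝ} (hA : MeasurableSet A)
    (hinv : ∀ x, f x ∈ A ↔ x ∈ A) {s t : ℝ} (hst : s < t) (i : ℕ) :
    volume (A ∩ Ico ((f ^ i) s) ((f ^ i) t)) ≤
      ENNReal.ofReal (Real.exp (C * ∑ l ∈ Finset.range i, ((f ^ l) t - (f ^ l) s)) *
        (((f ^ i) t - (f ^ i) s) / (t - s))) * volume (A ∩ Ico s t) := by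
  have hg := c2p_pow hc i
  have hinv' := K7_pow_inv_set hinv i
  have hCi := hC i s t
  obtain ⟨S, hS⟩ : ∃ S, S = C * ∑ l ∈ Finset.range i, ((f ^ l) t - (f ^ l) s) := ⟨_, rfl⟩
  rw [← hS] at hCi ⊢
  obtain ⟨g, hgdef⟩ : ∃ g, g = f ^ i := ⟨_, rfl⟩
  rw [← hgdef] at hg hinv' hCi ⊢
  have hd : ∀ y, HasDerivAt (g : ℝ → ℝ) (deriv (g : ℝ → ℝ) y) y := fun y =>
    (hg.1.differentiable (by norm_num) y).hasDerivAt
  obtain ⟨ξ, hξ, hξ'⟩ := exists_deriv_eq_slope (g : ℝ → ℝ) hst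
    (hg.1.continuous.continuousOn) (fun y _ => (hd y).differentiableAt.differentiableWithinAt)
  have hbd : ∀ y ∈ Icc s t, deriv (g : ℝ → ℝ) y ≤ Real.exp S * ((g t - g s) / (t - s)) := by
    intro y hy
    rw [← hξ']
    have h1 := hCi y ξ hy ⟨hξ.1.le, hξ.2.le⟩
    have h2 : Real.log (deriv (g : ℝ → ℝ) y) ≤ S + Real.log (deriv (g : ℝ → ℝ) ξ) := by
      have := le_of_abs_le h1
      linarith
    have h3 := Real.exp_le_exp.2 h2
    rwa [Real.exp_log (hg.2 y), Real.exp_add, Real.exp_log (hg.2 ξ)] at h3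
  rw [K7_image hinv' s t]
  have hE : MeasurableSet (A ∩ Ico s t) := hA.inter measurableSet_Ico
  have h1 := lintegral_image_eq_lintegral_abs_deriv_mul hE
    (fun x _ => (hd x).hasDerivWithinAt) (g.injective.injOn) (fun _ => 1)
  rw [setLIntegral_one] at h1
  rw [h1, ← setLIntegral_const]
  refine setLIntegral_mono' hE fun x hx => ?_
  rw [mul_one]
  refine ENNReal.ofReal_le_ofReal ?_
  rw [abs_of_pos (hg.2 x)]
  exact hbd x ⟨hx.2.1, hx.2.2.le⟩

theorem vol_mod {A : Set ℝ} (hA : MeasurableSet A) (hT : ∀ x, x + 2 * Real.pi ∈ A ↔ x ∈ A)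
    {ι : Type*} (s : Finset ι) (E : ι → Set ℝ) (hE : ∀ n ∈ s, MeasurableSet (E n))
    (hcov : ∀ y ∈ A ∩ Ico 0 (2 * Real.pi), ∃ n ∈ s, ∃ m : ℤ, y + m * (2 * Real.pi) ∈ E n) :
    volume (A ∩ Ico 0 (2 * Real.pi)) ≤ ∑ n ∈ s, volume (A ∩ E n) := by
  have hp : 0 < 2 * Real.pi := Real.two_pi_pos
  have h1 : A ∩ Ico 0 (2 * Real.pi) ⊆ ⋃ n ∈ s, ⋃ m : ℤ,
      (fun y => y + m * (2 * Real.pi)) ⁻¹'
        (A ∩ E n ∩ Ico (m * (2 * Real.pi)) ((m + 1) * (2 * Real.pi))) := by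
    intro y hy
    obtain ⟨n, hn, m, hm⟩ := hcov y hy
    simp only [mem_iUnion]
    refine ⟨n, hn, m, ⟨(K7_zmem hT m y).2 hy.1, hm⟩, ?_, ?_⟩
    · have := hy.2.1
      change (m : ℝ) * (2 * Real.pi) ≤ y + m * (2 * Real.pi)
      linarith
    · have := hy.2.2
      change y + m * (2 * Real.pi) < (m + 1) * (2 * Real.pi)
      linarith
  refine (measure_mono h1).trans ((measure_biUnion_finset_le _ _).trans ?_)
  refine Finset.sum_le_sum fun n hn => ?_
  refine (measure_iUnion_le _).trans ?_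
  have h2 : ∀ m : ℤ, volume ((fun y => y + m * (2 * Real.pi)) ⁻¹'
      (A ∩ E n ∩ Ico (m * (2 * Real.pi)) ((m + 1) * (2 * Real.pi)))) =
      volume (A ∩ E n ∩ Ico (m * (2 * Real.pi)) ((m + 1) * (2 * Real.pi))) := fun m =>
    measure_preimage_add_right volume _ _
  rw [tsum_congr h2, ← measure_iUnion]
  · exact measure_mono (iUnion_subset fun m => inter_subset_left)
  · intro m m' hmm
    rw [Function.onFun, Set.disjoint_left]
    rintro y ⟨-, h3, h4⟩ ⟨-, h5, h6⟩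
    have h7 : (m : ℝ) < m' + 1 := lt_of_mul_lt_mul_right (h3.trans_lt h6) hp.le
    have h8 : (m' : ℝ) < m + 1 := lt_of_mul_lt_mul_right (h5.trans_lt h4) hp.le
    have h9 : m < m' + 1 := by exact_mod_cast h7
    have h10 : m' < m + 1 := by exact_mod_cast h8
    omega
  · intro m
    exact (hA.inter (hE n hn)).inter measurableSet_Ico

theorem vol_per_zero {A : Set ℝ} (hT : ∀ x, x + 2 * Real.pi ∈ A ↔ x ∈ A)
    (h0 : volume (A ∩ Ico 0 (2 * Real.pi)) = 0) : volume A = 0 := by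
  have hp : 0 < 2 * Real.pi := Real.two_pi_pos
  have h1 : A ⊆ ⋃ m : ℤ, (fun y => y + m * (2 * Real.pi)) ⁻¹' (A ∩ Ico 0 (2 * Real.pi)) := by
    intro x hx
    rw [mem_iUnion]
    refine ⟨-⌊x / (2 * Real.pi)⌋, (K7_zmem hT _ x).2 hx, ?_⟩
    have h2 := Int.floor_le (x / (2 * Real.pi))
    have h3 := Int.lt_floor_add_one (x / (2 * Real.pi))
    rw [le_div_iff₀ hp] at h2
    rw [div_lt_iff₀ hp] at h3
    push_cast
    constructor
    · linarith
    · linarith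
  refine measure_mono_null h1 ((measure_iUnion_null_iff).2 fun m => ?_)
  rw [measure_preimage_add_right]
  exact h0

end Pool.Agent.H50.GSD
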