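import Mathlib
import Pool.Agent.H50.GSD.K6
import Pool.Agent.H50.GSD.K7
import Pool.Agent.H50.GSD.D2

/-!
# GD-K8: the Katok-Herman theorem and rational rotation numbers

PROOF of `kh`.  Suppose `volume A ≠ 0`.  By `Besicovitch.ae_tendsto_measure_inter_div_of_measurableSet`
(for `Aᶜ`; used in the same way in `GS/Dens.lean`) there is `x ∈ A` with
`volume (Aᶜ ∩ closedBall x r) / volume (closedBall x r) → 0` as `r → 0+`.  Let `η > 0`; there is
`δ0 > 0` with `volume (Aᶜ ∩ closedBall x r) ≤ η * (2 r)` for `0 < r < δ0`; in particular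
`volume (Aᶜ ∩ Ico x (x + r)) ≤ 2 η r` and `volume (Aᶜ ∩ Ico (x - r) x) ≤ 2 η r`.  Let `St f a b q q'`
be a state with `a x < x + δ0`, `x - δ0 < b⁻¹ x` (`st_small`), `C` as in `dist_bd`.
By `cov x y` and `vol_mod` (for `Aᶜ`, index set `range q'` and `range q`, as `Finset.disjSum` or by
applying `vol_mod` with `ι = ℕ ⊕ ℕ`; `(TT ^ m) y = y + m 2 pi`, `tt_zpow`)
`volume (Aᶜ ∩ Ico 0 (2 pi)) ≤ ∑ i < q', volume (Aᶜ ∩ Ico (f^i x) (f^i (a x)))
  + ∑ j < q, volume (Aᶜ ∩ Ico (f^j (b⁻¹ x)) (f^j x))`.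
By `img_dens` (with `totA`, `totB`: the sums in the exponent are at most `2 pi`) each term is at most
`exp (2 pi C) * (f^i (a x) - f^i x) * 2 η`, resp. `exp (2 pi C) * (f^j x - f^j (b⁻¹ x)) * 2 η`, and by
`St.tot` the total is at most `exp (2 pi C) * 2 η * 2 pi`.  As `η > 0` is arbitrary,
`volume (Aᶜ ∩ Ico 0 (2 pi)) = 0`, and `vol_per_zero` gives `volume Aᶜ = 0`.

PROOF of `Lf_rat`.  Let `f ∈ Lf G`, `IsL g f`, and suppose the conclusion fails: `Free f`.  `f` is `Per`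
(`isL_per`) and `C2p` (`isL_c2`).  As `G` is not ergodic there is `A ⊆ Circle` with measurable
preimage `A' = exp⁻¹ A`, invariant under `G`, with `volume A' ≠ 0`, `volume (exp⁻¹ Aᶜ) ≠ 0`.  Apply
`kh` to `A'`: `exp (x + 2 pi) = exp x`, and `f x ∈ A' ↔ exp (f x) ∈ A ↔ g (exp x) ∈ A ↔ exp x ∈ A`.
-/

set_option autoImplicit false
open Set Filter Topology MeasureTheory

namespace Pool.Agent.H50.GSD

open Pool.Agent.H52.GS (TT)
open Pool.Agent.H50.GS

private theorem k8_dens {A : Set ℝ} (hA : MeasurableSet A) (h0 : volume A ≠ 0) :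
    ∃ x ∈ A, ∀ η : ℝ, 0 < η → ∃ δ : ℝ, 0 < δ ∧ ∀ r : ℝ, 0 < r → r < δ →
      volume (Aᶜ ∩ Metric.closedBall x r) ≤ ENNReal.ofReal (η * (2 * r)) := by
  have a2 := Besicovitch.ae_tendsto_measure_inter_div_of_measurableSet (volume : Measure ℝ) hA.compl
  obtain ⟨x, hx, hx2⟩ : ∃ x ∈ A,
      Tendsto (fun r => volume (Aᶜ ∩ Metric.closedBall x r) / volume (Metric.closedBall x r))
        (𝓝[>] 0) (𝓝 (Aᶜ.indicator 1 x)) := by
    by_contra hno
    push Not at hno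
    apply h0
    refine measure_mono_null ?_ (ae_iff.1 a2)
    intro x hx
    rw [mem_ofPred_eq]
    exact hno x hx
  rw [indicator_of_notMem (by simpa using hx)] at hx2
  refine ⟨x, hx, fun η hη => ?_⟩
  have h1 : ∀ᶠ r in 𝓝[>] (0 : ℝ), volume (Aᶜ ∩ Metric.closedBall x r) /
      volume (Metric.closedBall x r) < ENNReal.ofReal η :=
    hx2.eventually (gt_mem_nhds (ENNReal.ofReal_pos.2 hη))
  obtain ⟨δ, hδ, h2⟩ := (mem_nhdsGT_iff_exists_Ioo_subset).1 h1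
  refine ⟨δ, hδ, fun r hr hr' => ?_⟩
  have h3 := h2 ⟨hr, hr'⟩
  rw [mem_ofPred_eq] at h3
  have h4 : volume (Metric.closedBall x r) = ENNReal.ofReal (2 * r) := Real.volume_closedBall x r
  rw [h4] at h3
  rw [ENNReal.ofReal_mul hη.le]
  have h5 := h3.le
  rwa [ENNReal.div_le_iff (ENNReal.ofReal_pos.2 (by linarith)).ne' ENNReal.ofReal_ne_top] at h5

private theorem k8_term {f : ℝ ≃o ℝ} (hc : C2p f) {C : ℝ} (hC0 : 0 ≤ C)
    (hC : ∀ (n : ℕ) (u v s t : ℝ),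
    s ∈ Icc u v → t ∈ Icc u v →
    |Real.log (deriv ((f ^ n : ℝ ≃o ℝ) : ℝ → ℝ) s) -
      Real.log (deriv ((f ^ n : ℝ ≃o ℝ) : ℝ → ℝ) t)| ≤
      C * ∑ l ∈ Finset.range n, ((f ^ l) v - (f ^ l) u)) {B : Set ℝ} (hB : MeasurableSet B)
    (hinv : ∀ x, f x ∈ B ↔ x ∈ B) {s t η : ℝ} (hst : s < t) (hη : 0 < η) (i : ℕ)
    (hsum : ∑ l ∈ Finset.range i, ((f ^ l) t - (f ^ l) s) ≤ 2 * Real.pi)
    (hvol : volume (B ∩ Ico s t) ≤ ENNReal.ofReal (η * (2 * (t - s)))) :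
    volume (B ∩ Ico ((f ^ i) s) ((f ^ i) t)) ≤
      ENNReal.ofReal (Real.exp (C * (2 * Real.pi)) * (2 * η) * ((f ^ i) t - (f ^ i) s)) := by
  refine (img_dens hc hC hB hinv hst i).trans ?_
  have hts : 0 < t - s := sub_pos.2 hst
  have hfi : 0 ≤ (f ^ i) t - (f ^ i) s := sub_nonneg.2 ((f ^ i).monotone hst.le)
  refine (mul_le_mul' le_rfl hvol).trans ?_
  rw [← ENNReal.ofReal_mul (mul_nonneg (Real.exp_pos _).le (div_nonneg hfi hts.le))]
  refine ENNReal.ofReal_le_ofReal ?_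
  have h1 : Real.exp (C * ∑ l ∈ Finset.range i, ((f ^ l) t - (f ^ l) s)) ≤
      Real.exp (C * (2 * Real.pi)) :=
    Real.exp_le_exp.2 (mul_le_mul_of_nonneg_left hsum hC0)
  have h2 : Real.exp (C * ∑ l ∈ Finset.range i, ((f ^ l) t - (f ^ l) s)) *
      (((f ^ i) t - (f ^ i) s) / (t - s)) * (η * (2 * (t - s))) =
      Real.exp (C * ∑ l ∈ Finset.range i, ((f ^ l) t - (f ^ l) s)) *
        (2 * η * ((f ^ i) t - (f ^ i) s)) := by
    field_simp
  have h3 : 0 ≤ 2 * η * ((f ^ i) t - (f ^ i) s) := mul_nonneg (by linarith) hfi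
  rw [h2, mul_assoc (Real.exp (C * (2 * Real.pi)))]
  exact mul_le_mul_of_nonneg_right h1 h3

theorem kh {f : ℝ ≃o ℝ} (hper : Per f) (hc : C2p f) (hfree : Free f) {A : Set ℝ}
    (hA : MeasurableSet A) (hT : ∀ x, x + 2 * Real.pi ∈ A ↔ x ∈ A)
    (hinv : ∀ x, f x ∈ A ↔ x ∈ A) : volume A = 0 ∨ volume Aᶜ = 0 := by
  by_cases h0 : volume A = 0
  · exact Or.inl h0
  right
  have hT' : ∀ x, x + 2 * Real.pi ∈ Aᶜ ↔ x ∈ Aᶜ := fun x => not_congr (hT x)
  have hinv' : ∀ x, f x ∈ Aᶜ ↔ x ∈ Aᶜ := fun x => not_congr (hinv x)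
  refine vol_per_zero hT' ?_
  obtain ⟨x, hx, hd⟩ := k8_dens hA h0
  obtain ⟨C, hC0, hC⟩ := dist_bd hper hc
  set M : ℝ := Real.exp (C * (2 * Real.pi)) * 2 * (2 * Real.pi) with hM
  have hMpos : 0 < M := by
    have := Real.exp_pos (C * (2 * Real.pi))
    have := Real.pi_pos
    positivity
  have key : ∀ η : ℝ, 0 < η → volume (Aᶜ ∩ Ico 0 (2 * Real.pi)) ≤ ENNReal.ofReal (M * η) := by
    intro η hη
    obtain ⟨δ, hδ, hdδ⟩ := hd η hη
    obtain ⟨a, b, q, q', h, h1, h2⟩ := st_small hper hc hfree x hδ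
    have ha : x < a x := h.posa x
    have hb : (b⁻¹ : ℝ ≃o ℝ) x < x := by
      have h3 := h.posb ((b⁻¹ : ℝ ≃o ℝ) x)
      rwa [RelIso.apply_inv_self] at h3
    have va : volume (Aᶜ ∩ Ico x (a x)) ≤ ENNReal.ofReal (η * (2 * (a x - x))) := by
      refine (measure_mono ?_).trans (hdδ (a x - x) (by linarith) (by linarith))
      refine inter_subset_inter_right _ fun y hy => ?_
      rw [Real.closedBall_eq_Icc]
      exact ⟨by linarith [hy.1], by linarith [hy.2]⟩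
    have vb : volume (Aᶜ ∩ Ico ((b⁻¹ : ℝ ≃o ℝ) x) x) ≤
        ENNReal.ofReal (η * (2 * (x - (b⁻¹ : ℝ ≃o ℝ) x))) := by
      refine (measure_mono ?_).trans (hdδ (x - (b⁻¹ : ℝ ≃o ℝ) x) (by linarith) (by linarith))
      refine inter_subset_inter_right _ fun y hy => ?_
      rw [Real.closedBall_eq_Icc]
      exact ⟨by linarith [hy.1], by linarith [hy.2]⟩
    have hmod := vol_mod hA.compl hT' ((Finset.range q').disjSum (Finset.range q))
      (fun n : ℕ ⊕ ℕ => Sum.elim (fun i => Ico ((f ^ i) x) ((f ^ i) (a x)))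
        (fun j => Ico ((f ^ j) ((b⁻¹ : ℝ ≃o ℝ) x)) ((f ^ j) x)) n)
      (fun n _ => by rcases n with n | n <;> exact measurableSet_Ico) (fun y _ => by
        rcases h.cov x y with ⟨i, hi, m, h3, h4⟩ | ⟨j, hj, m, h3, h4⟩
        · refine ⟨Sum.inl i, Finset.inl_mem_disjSum.2 (Finset.mem_range.2 hi), m, ?_⟩
          rw [← tt_zpow]
          exact ⟨h3, h4⟩
        · refine ⟨Sum.inr j, Finset.inr_mem_disjSum.2 (Finset.mem_range.2 hj), m, ?_⟩
          rw [← tt_zpow]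
          exact ⟨h3, h4⟩)
    refine hmod.trans ?_
    rw [Finset.sum_disjSum]
    simp only [Sum.elim_inl, Sum.elim_inr]
    have s1 : ∑ i ∈ Finset.range q', volume (Aᶜ ∩ Ico ((f ^ i) x) ((f ^ i) (a x))) ≤
        ∑ i ∈ Finset.range q', ENNReal.ofReal (Real.exp (C * (2 * Real.pi)) * (2 * η) *
          ((f ^ i) (a x) - (f ^ i) x)) := Finset.sum_le_sum fun i hi =>
      k8_term hc hC0 hC hA.compl hinv' ha hη i
        (totA h (Finset.mem_range.1 hi).le le_rfl ha.le le_rfl) va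
    have s2 : ∑ j ∈ Finset.range q, volume (Aᶜ ∩ Ico ((f ^ j) ((b⁻¹ : ℝ ≃o ℝ) x)) ((f ^ j) x)) ≤
        ∑ j ∈ Finset.range q, ENNReal.ofReal (Real.exp (C * (2 * Real.pi)) * (2 * η) *
          ((f ^ j) x - (f ^ j) ((b⁻¹ : ℝ ≃o ℝ) x))) := Finset.sum_le_sum fun j hj =>
      k8_term hc hC0 hC hA.compl hinv' hb hη j
        (totB h (Finset.mem_range.1 hj).le le_rfl hb.le le_rfl) vb
    refine (add_le_add s1 s2).trans ?_
    have hK : 0 ≤ Real.exp (C * (2 * Real.pi)) * (2 * η) :=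
      mul_nonneg (Real.exp_pos _).le (by linarith)
    have p1 : ∀ i ∈ Finset.range q', 0 ≤ Real.exp (C * (2 * Real.pi)) * (2 * η) *
          ((f ^ i) (a x) - (f ^ i) x) := fun i _ =>
      mul_nonneg hK (sub_nonneg.2 ((f ^ i).monotone ha.le))
    have p2 : ∀ j ∈ Finset.range q, 0 ≤ Real.exp (C * (2 * Real.pi)) * (2 * η) *
          ((f ^ j) x - (f ^ j) ((b⁻¹ : ℝ ≃o ℝ) x)) := fun j _ =>
      mul_nonneg hK (sub_nonneg.2 ((f ^ j).monotone hb.le))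
    rw [← ENNReal.ofReal_sum_of_nonneg p1, ← ENNReal.ofReal_sum_of_nonneg p2,
      ← ENNReal.ofReal_add (Finset.sum_nonneg p1) (Finset.sum_nonneg p2)]
    refine ENNReal.ofReal_le_ofReal ?_
    rw [← Finset.mul_sum, ← Finset.mul_sum, ← mul_add, h.tot x, hM]
    apply le_of_eq
    ring
  by_contra hv
  have hfin : volume (Aᶜ ∩ Ico 0 (2 * Real.pi)) ≠ ⊤ :=
    ((measure_mono inter_subset_right).trans_lt
      (by rw [Real.volume_Ico]; exact ENNReal.ofReal_lt_top)).ne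
  have hvpos : 0 < (volume (Aᶜ ∩ Ico 0 (2 * Real.pi))).toReal := ENNReal.toReal_pos hv hfin
  have h3 := key ((volume (Aᶜ ∩ Ico 0 (2 * Real.pi))).toReal / (2 * M)) (by positivity)
  have h4 : M * ((volume (Aᶜ ∩ Ico 0 (2 * Real.pi))).toReal / (2 * M)) =
      (volume (Aᶜ ∩ Ico 0 (2 * Real.pi))).toReal / 2 := by
    have := hMpos.ne'
    field_simp
  rw [h4] at h3
  have h5 := ENNReal.toReal_mono ENNReal.ofReal_ne_top h3
  rw [ENNReal.toReal_ofReal (by linarith)] at h5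
  linarith

theorem Lf_rat {G : Subgroup (Circle ≃ₜ Circle)} (hG : AnGroup G) (hne : ¬ LebErgodic G) :
    ∀ f ∈ Lf G, ∃ q : ℕ, 0 < q ∧ ∃ k : ℤ, ∃ z : ℝ, (f ^ q) z = z + k * (2 * Real.pi) := by
  rintro f ⟨g, hg, hf⟩
  by_contra hcon
  have hfree : Free f := fun q hq k z hz => hcon ⟨q, hq, k, z, hz⟩
  apply hne
  intro A hA hinv
  refine kh (isL_per hf) (isL_c2 hG hg hf) hfree hA (fun x => ?_) (fun x => ?_)
  · rw [mem_preimage, mem_preimage]
    have h1 : Circle.exp (x + 2 * Real.pi) = Circle.exp x :=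
      Circle.exp_eq_exp.2 ⟨1, by simp⟩
    rw [h1]
  · rw [mem_preimage, mem_preimage, hf x]
    have h2 := hinv g hg
    rw [← mem_preimage (f := ⇑g), h2]

end Pool.Agent.H50.GSD
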